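import Mathlib

/-!
# Escape of resources with finite mean (MP_37d2f2_pr, dimensions `d ≥ 3`)

Definitions for the hierarchical forest.

`T_0` is a single vertex.  `T_{k+1}` has a straight trunk of `B` vertices, every trunk vertex has a
side child which is the last vertex of a stem of `S = m - 2` vertices; the first vertex of the
stem is the parent of the root of a copy of `T_k`.

The *profile* of a vertex `v` is the function `n ↦` total resource of the `n`-th generation
below `v`, i.e. the resource sitting at `v` after `n` steps.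
-/

namespace ES

/-- A profile: nonnegative, strictly decreasing as long as it is positive, zero from `h` on. -/
structure Dec (f : ℕ → ℝ) (h : ℕ) : Prop where
  nonneg : ∀ n, 0 ≤ f n
  pos : 0 < f 0
  dec : ∀ n, 0 < f (n + 1) → f (n + 1) < f n
  zero : ∀ n, h ≤ n → f n = 0

/-- `f` is the profile of the root of `T_k`; `ph f m (j + n)` is the content, after `n` steps, of
the stem vertex at distance `j` from the trunk (`1 ≤ j ≤ m - 2`); `j = m - 1` is the root. -/
noncomputable def ph (f : ℕ → ℝ) (m : ℕ) (j : ℕ) : ℝ :=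
  if j + 2 ≤ m then f 0 + ((m : ℝ) - 1 - j) / (m - 1) else f (j + 1 - m)

/-- the sum of `ph f m 1, ..., ph f m n` -/
noncomputable def Ph (f : ℕ → ℝ) (m : ℕ) (n : ℕ) : ℝ := ∑ i ∈ Finset.range n, ph f m (i + 1)

/-- the total resource of a side tree (stem and copy of `T_k`) -/
noncomputable def RR (f : ℕ → ℝ) (m h : ℕ) : ℝ := Ph f m (m + h)

/-- `PP f m h B i` is the profile of the trunk vertex at distance `i` from the root
(`0 ≤ i < B`) of `T_{k+1}` -/
noncomputable def PP (f : ℕ → ℝ) (m h B : ℕ) (i n : ℕ) : ℝ :=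
  if i + n < B then f 0 + 1 + (RR f m h - Ph f m (i + n)) + ((B : ℝ) - i - n) / B + Ph f m n
  else Ph f m n - Ph f m (i + n - B)

/-- The state of the construction at level `k`: the cell has size `X × Y × Z`, the root profile
of `T_k` is `f`, and `f` vanishes from `h` on. -/
structure St where
  X : ℕ
  Y : ℕ
  Z : ℕ
  h : ℕ
  f : ℕ → ℝ

/-- the width of the margin of the cell -/
def St.m (s : St) : ℕ := s.Y * s.Z

/-- The trunk length of `T_{k+1}` if the next `X` is `x`. -/
def St.B (s : St) (x : ℕ) : ℕ := x - s.X * ((s.Y + 1) * s.Z) - 2 * s.m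

noncomputable def St.init : St where
  X := 27
  Y := 3
  Z := 4
  h := 1
  f := fun n => if n = 0 then 1 else 0

noncomputable def St.next (s : St) (x : ℕ) : St where
  X := x
  Y := s.X
  Z := (s.Y + 1) * s.Z
  h := s.B x + s.m + s.h
  f := PP s.f s.m s.h (s.B x) 0

/-- The sequence of states; `grow` says that the next `X` is huge. -/
structure Tower where
  s : ℕ → St
  init : s 0 = St.init
  step : ∀ k, s (k + 1) = (s k).next (s (k + 1)).X
  pow : ∀ k, ∃ e, (s k).X = 3 ^ e
  grow : ∀ k, (4 : ℝ) ^ (k + 4) * ((s k).X * ((s k).Y + 1) * (s k).Z + (s k).m +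
    ((s k).m + (s k).h + 1) * (RR (s k).f (s k).m (s k).h + (s k).f 0 + 4)) ≤ (s (k + 1)).X

namespace Tower

variable (T : Tower) (k : ℕ)

abbrev X : ℕ := (T.s k).X
abbrev Y : ℕ := (T.s k).Y
abbrev Z : ℕ := (T.s k).Z
abbrev h : ℕ := (T.s k).h
abbrev f : ℕ → ℝ := (T.s k).f
/-- margin of the cell of level `k` -/
abbrev m : ℕ := (T.s k).m
/-- trunk length of `T_{k+1}` -/
abbrev B : ℕ := (T.s k).B (T.s (k + 1)).X

end Tower

/-- The three kinds of steps to the parent: subtract `(1,0,0)`, `(0,1,0)` or `(1,1,1)`. -/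
inductive Dir
  | e1 | e2 | f
  deriving DecidableEq

namespace Dir

/-- exchange the first two coordinates -/
def swap : Dir → Dir
  | e1 => e2
  | e2 => e1
  | f => f

def x : Dir → ℤ
  | e1 => 1
  | e2 => 0
  | f => 1

def y : Dir → ℤ
  | e1 => 0
  | e2 => 1
  | f => 1

def z : Dir → ℤ
  | e1 => 0
  | e2 => 0
  | f => 1

end Dir

/-- Kinds of vertices: `t 0 0` is the vertex of `T_0`, `t (l+1) i` is the trunk vertex of
`T_{l+1}` at distance `i` from the root, `s l i` the stem vertex of `T_{l+1}` at distance `i`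
from the trunk. -/
inductive Tag
  | t (l i : ℕ)
  | s (l i : ℕ)

/-- the profile of a vertex -/
noncomputable def prof (T : Tower) : Tag → ℕ → ℝ
  | Tag.t 0 _, n => T.f 0 n
  | Tag.t (l + 1) i, n => PP (T.f l) (T.m l) (T.h l) (T.B l) i n
  | Tag.s l i, n => ph (T.f l) (T.m l) (i + n)

/-- `Rel T p c`: `p` is the kind of the parent of a vertex of kind `c` -/
inductive Rel (T : Tower) : Tag → Tag → Prop
  | trunk (l i : ℕ) (hi : i + 1 < T.B l) : Rel T (Tag.t (l + 1) i) (Tag.t (l + 1) (i + 1))
  | side (l i : ℕ) (hi : i < T.B l) : Rel T (Tag.t (l + 1) i) (Tag.s l 1)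
  | stem (l i : ℕ) (hi : 1 ≤ i) : Rel T (Tag.s l i) (Tag.s l (i + 1))
  | root (l : ℕ) : Rel T (Tag.s l (T.m l - 2)) (Tag.t l 0)

/-- For `a, b` coprime and positive: the multiple `J` of `b` with `0 ≤ J < a b` and
`x + J ≡ 1 mod a`. -/
def JJ (a b : ℕ) (x : ℤ) : ℤ := b * (((1 - x) * Int.gcdB a b) % a)

/-- The finite structure `T_k` in the cell of level `k`: `info T k u v w` is the kind of the
vertex `(u,v,w)` and the direction of its parent, or `none` if the vertex carries nothing.
`T_{k+1}` consists of the trunk, the stems (both in the zone `v < m_k`) and of copies of `T_k`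
(first two coordinates exchanged). -/
def info (T : Tower) : ℕ → ℤ → ℤ → ℤ → Option (Tag × Dir)
  | 0, u, v, w => if u = T.m 0 ∧ v = 1 ∧ w = 0 then some (Tag.t 0 0, Dir.e1) else none
  | k + 1, u, v, w =>
    if v < T.m k then
      if v = 1 ∧ w = 0 ∧ (T.m (k + 1) : ℤ) ≤ u ∧ u < T.m (k + 1) + T.B k then
        some (Tag.t (k + 1) (u - T.m (k + 1)).toNat, Dir.e1)
      else if 2 ≤ v ∧ (T.m (k + 1) : ℤ) ≤ u - w ∧ u - w < T.m (k + 1) + T.B k ∧
          w = min (v - 2) (JJ (T.Y k) (T.Z k) (u - w)) then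
        some (Tag.s k (v - 1).toNat, if w = v - 2 ∧ 0 < w then Dir.f else Dir.e2)
      else none
    else if 0 ≤ w ∧ w < T.Y k * T.Z k ∧
        (T.m (k + 1) : ℤ) ≤ T.Y k * (u / T.Y k) + 1 - T.Z k * (w / T.Z k) ∧
        T.Y k * (u / T.Y k) + 1 - T.Z k * (w / T.Z k) < (T.m (k + 1) : ℤ) + T.B k then
      (info T k v (u % T.Y k) (w % T.Z k)).map (fun r => (r.1, r.2.swap))
    else none

/-- The profile attached to a (possibly empty) vertex. -/
noncomputable def pr (T : Tower) (o : Option (Tag × Dir)) (n : ℕ) : ℝ :=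
  match o with
  | some (t, _) => prof T t n
  | none => 0

/-- The contribution of the neighbour with kind `o` which is reached in direction `d`. -/
noncomputable def ct (T : Tower) (o : Option (Tag × Dir)) (d : Dir) (n : ℕ) : ℝ :=
  match o with
  | some (t, d') => if d' = d then prof T t n else 0
  | none => 0

/-- The properties of the finite structure which are proved by induction. -/
structure Str (T : Tower) (k : ℕ) : Prop where
  supp : ∀ u v w r, info T k u v w = some r →
    (T.m k : ℤ) ≤ u ∧ u < T.X k ∧ 1 ≤ v ∧ v < T.Y k ∧ 0 ≤ w ∧ w + 1 < T.Z k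
  root : info T k (T.m k) 1 0 = some (Tag.t k 0, Dir.e1)
  r21 : info T k (T.m k) 2 1 = none
  parent : ∀ u v w t d, info T k u v w = some (t, d) → (u = T.m k ∧ v = 1 ∧ w = 0) ∨
    ∃ p d', info T k (u - d.x) (v - d.y) (w - d.z) = some (p, d') ∧ Rel T p t
  nbr : ∀ (u v w : ℤ) t d (δ : Dir) t' d', info T k u v w = some (t, d) →
    info T k (u + δ.x) (v + δ.y) (w + δ.z) = some (t', d') → d' = δ ∨ t' = t
  child : ∀ (u v w : ℤ) (n : ℕ), ¬ (u = (T.m k : ℤ) - 1 ∧ v = 1 ∧ w = 0) →
    ct T (info T k (u + 1) v w) Dir.e1 n + ct T (info T k u (v + 1) w) Dir.e2 n +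
      ct T (info T k (u + 1) (v + 1) (w + 1)) Dir.f n = pr T (info T k u v w) (n + 1)

end ES
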