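import Pool.Agent.H75.ES.RunDef

/-! The deterministic step (definitions, helper75). -/

open MeasureTheory Filter Topology

namespace MP_37d2f2_pr

variable {d : ℕ}

/-- the vertices at distance at most one -/
def nbrs (x : Fin d → ℤ) : Finset (Fin d → ℤ) :=
  insert x (Finset.univ.biUnion fun i => {x + Pi.single i 1, x - Pi.single i 1})

open Classical in
/-- one step of the dynamics if there are no ties -/
noncomputable def FF (c : (Fin d → ℤ) → ENNReal) : (Fin d → ℤ) → ENNReal := fun x =>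
  ∑ y ∈ nbrs x, if (∀ z ∈ nbrs y, z ≠ x → c z < c x) then c y else 0

/-- there are never ties, and every vertex is eventually empty -/
def QQ (c : (Fin d → ℤ) → ENNReal) : Prop :=
  (∀ n x, (FF^[n] c) x ≠ 0 → ∃ p ∈ nbrs x, ∀ z ∈ nbrs x, z ≠ p → (FF^[n] c) z < (FF^[n] c) p) ∧
    ∀ x, ∃ N, ∀ n, N ≤ n → (FF^[n] c) x = 0

end MP_37d2f2_pr
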