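import Pool.Agent.H75.ES.Det

/-!
Job ES-E1a: the finite set `nbrs x` is the `ℓ¹` ball of radius one.

`∑ i, |x i - y i| ≤ 1` for integers: either all summands vanish (`y = x`) or exactly one equals `1`
and the others vanish (`y = x + Pi.single i 1` or `y = x - Pi.single i 1`). For the converse compute
the sum with `Finset.sum_eq_single i`.
-/

open MeasureTheory Filter Topology

namespace MP_37d2f2_pr

variable {d : ℕ}

theorem mem_nbrs {x y : Fin d → ℤ} : y ∈ nbrs x ↔ Nbr x y := by
  unfold nbrs Nbr
  simp only [Finset.mem_insert, Finset.mem_biUnion, Finset.mem_univ, true_and,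
    Finset.mem_singleton]
  constructor
  · rintro (rfl | ⟨i, rfl | rfl⟩)
    · simp
    · have h1 : ∀ j, |x j - (x + Pi.single i 1 : Fin d → ℤ) j| = if j = i then 1 else 0 := by
        intro j
        by_cases h : j = i
        · subst h; simp
        · simp [h]
      simp only [h1, Finset.sum_ite_eq', Finset.mem_univ, if_true, le_refl]
    · have h1 : ∀ j, |x j - (x - Pi.single i 1 : Fin d → ℤ) j| = if j = i then 1 else 0 := by
        intro j
        by_cases h : j = i
        · subst h; simp
        · simp [h]
      simp only [h1, Finset.sum_ite_eq', Finset.mem_univ, if_true, le_refl]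
  · intro h
    by_cases h0 : ∀ i, x i = y i
    · left
      funext i
      exact (h0 i).symm
    · right
      push Not at h0
      obtain ⟨i, hi⟩ := h0
      have h1 : 1 ≤ |x i - y i| := Int.one_le_abs (sub_ne_zero.2 hi)
      have h2 : ∀ j, j ≠ i → x j = y j := by
        intro j hj
        by_contra hne
        have h3 : 1 ≤ |x j - y j| := Int.one_le_abs (sub_ne_zero.2 hne)
        have h4 : |x i - y i| + |x j - y j| ≤ ∑ k, |x k - y k| := by
          rw [← Finset.sum_pair hj.symm (f := fun k => |x k - y k|)]
          exact Finset.sum_le_sum_of_subset_of_nonneg (Finset.subset_univ _)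
            (fun _ _ _ => abs_nonneg _)
        omega
      have h5 : |x i - y i| ≤ 1 :=
        (Finset.single_le_sum (f := fun k => |x k - y k|) (fun j _ => abs_nonneg _)
          (Finset.mem_univ i)).trans h
      have h6 : |x i - y i| = 1 := le_antisymm h5 h1
      refine ⟨i, ?_⟩
      rcases (abs_eq (by norm_num)).1 h6 with h7 | h7
      · right
        funext j
        by_cases hj : j = i
        · subst hj
          simp only [Pi.sub_apply, Pi.single_eq_same]
          omega
        · simp [hj, h2 j hj]
      · left
        funext j
        by_cases hj : j = i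
        · subst hj
          simp only [Pi.add_apply, Pi.single_eq_same]
          omega
        · simp [hj, h2 j hj]

theorem mem_nbrs_symm {x y : Fin d → ℤ} : y ∈ nbrs x ↔ x ∈ nbrs y := by
  rw [mem_nbrs, mem_nbrs]
  unfold Nbr
  simp only [abs_sub_comm]

theorem self_mem_nbrs (x : Fin d → ℤ) : x ∈ nbrs x := Finset.mem_insert_self _ _

end MP_37d2f2_pr
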