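import Pool.Agent.H75.ES.DetA

/-!
Job ES-E1b: runs exist, and without ties there is only one.

* `exists_run`: for a configuration `c` put `b c x = x` if `c x = 0` and otherwise some point of
  `nbrs x` where `c` is maximal (`Finset.exists_max_image`, `nbrs x` contains `x`); iterate
  `c ↦ fun x => ∑' y, if b c y = x then c y else 0`.
* `IsRun.eq_FF`: induction on `n`. Let `c' = C n = FF^[n] c`. If `c' y ≠ 0` then `QQ` gives `p ∈ nbrs y`
  with `c' z < c' p` for all other `z ∈ nbrs y`; since `c' p ≤ c' (a n y)` (`IsRun.max`) and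
  `a n y ∈ nbrs y` (`IsRun.near`, `mem_nbrs`), `a n y = p`. So for `x ∈ nbrs y`
  (i.e. `y ∈ nbrs x`, `mem_nbrs_symm`): `a n y = x ↔ ∀ z ∈ nbrs y, z ≠ x → c' z < c' x`; for `y ∉ nbrs x` the
  summand of the `tsum` is `0`. `tsum_eq_sum`, `Function.iterate_succ_apply'`.
-/

open MeasureTheory Filter Topology

namespace MP_37d2f2_pr

variable {d : ℕ}

open Classical in
/-- the target of the resource at `x` -/
noncomputable def detB_b (c : (Fin d → ℤ) → ENNReal) (x : Fin d → ℤ) : Fin d → ℤ :=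
  if c x = 0 then x else
    (Finset.exists_max_image (nbrs x) c ⟨x, self_mem_nbrs x⟩).choose

theorem detB_b_zero {c : (Fin d → ℤ) → ENNReal} {x : Fin d → ℤ} (h : c x = 0) :
    detB_b c x = x := by
  unfold detB_b
  rw [if_pos h]

theorem detB_b_spec {c : (Fin d → ℤ) → ENNReal} {x : Fin d → ℤ} (h : c x ≠ 0) :
    detB_b c x ∈ nbrs x ∧ ∀ z ∈ nbrs x, c z ≤ c (detB_b c x) := by
  unfold detB_b
  rw [if_neg h]
  exact (Finset.exists_max_image (nbrs x) c ⟨x, self_mem_nbrs x⟩).choose_spec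

/-- one step -/
noncomputable def detB_step (c : (Fin d → ℤ) → ENNReal) : (Fin d → ℤ) → ENNReal := fun x =>
  ∑' y, if detB_b c y = x then c y else 0

theorem exists_run (c : (Fin d → ℤ) → ENNReal) : ∃ C a, IsRun C a ∧ C 0 = c := by
  refine ⟨fun n => detB_step^[n] c, fun n x => detB_b (detB_step^[n] c) x, ⟨?_, ?_, ?_, ?_⟩, rfl⟩
  · intro n x h
    exact detB_b_zero h
  · intro n x h
    exact mem_nbrs.1 (detB_b_spec h).1
  · intro n x h z hz
    exact (detB_b_spec h).2 z (mem_nbrs.2 hz)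
  · intro n x
    rw [Function.iterate_succ_apply']
    rfl

theorem detB_iff {c : (Fin d → ℤ) → ENNReal} {x y q : Fin d → ℤ} (hx : x ∈ nbrs y)
    (hp : ∃ p ∈ nbrs y, ∀ z ∈ nbrs y, z ≠ p → c z < c p) (hq : q ∈ nbrs y)
    (hm : ∀ z ∈ nbrs y, c z ≤ c q) : q = x ↔ ∀ z ∈ nbrs y, z ≠ x → c z < c x := by
  obtain ⟨p, hp1, hp2⟩ := hp
  have h1 : q = p := by
    by_contra hne
    exact absurd (hm p hp1) (not_le.2 (hp2 q hq hne))
  rw [h1]
  constructor
  · rintro rfl
    exact hp2
  · intro h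
    by_contra hne
    exact absurd (h p hp1 hne) (not_lt.2 (hp2 x hx (Ne.symm hne)).le)

theorem IsRun.eq_FF {C : ℕ → (Fin d → ℤ) → ENNReal} {a : ℕ → (Fin d → ℤ) → (Fin d → ℤ)}
    {c : (Fin d → ℤ) → ENNReal} (hq : QQ c) (h : IsRun C a) (h0 : C 0 = c) (n : ℕ) :
    C n = FF^[n] c := by
  induction n with
  | zero => exact h0
  | succ n ih =>
    have hq1 := hq.1 n
    rw [Function.iterate_succ_apply', ← ih]
    rw [← ih] at hq1
    funext x
    rw [h.step, tsum_eq_sum (s := nbrs x)]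
    · unfold FF
      refine Finset.sum_congr rfl (fun y hy => ?_)
      by_cases hy0 : C n y = 0
      · rw [hy0, ite_self, ite_self]
      · have h1 := detB_iff (c := C n) (mem_nbrs_symm.1 hy) (hq1 y hy0)
          (mem_nbrs.2 (h.near n y hy0)) (fun z hz => h.max n y hy0 z (mem_nbrs.1 hz))
        by_cases h2 : a n y = x
        · rw [if_pos h2, if_pos (h1.1 h2)]
        · rw [if_neg h2, if_neg (fun h3 => h2 (h1.2 h3))]
    · intro y hy
      by_cases h2 : a n y = x
      · rw [if_pos h2]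
        by_contra hy0
        apply hy
        have h3 := h.near n y hy0
        rw [h2] at h3
        exact mem_nbrs_symm.1 (mem_nbrs.2 h3)
      · rw [if_neg h2]

end MP_37d2f2_pr
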