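import Pool.Agent.H75.ES.DetA

/-!
Job ES-E1c: a way to verify `QQ`.

Show `FF^[n] (c 0) = c n` by induction (`Function.iterate_succ_apply'`): by `hs` it is enough that for
`y ∈ nbrs x` with `c n y ≠ 0`: `(∀ z ∈ nbrs y, z ≠ x → c n z < c n x) ↔ p y = x`. If `p y = x` this is `hp`.
If `p y ≠ x`, then `c n x < c n (p y)` by `hp` (`x ∈ nbrs y` by `mem_nbrs_symm`), while the left side with
`z = p y` gives `c n (p y) < c n x`. Then both parts of `QQ (c 0)` are immediate.
-/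

open MeasureTheory Filter Topology

namespace MP_37d2f2_pr

variable {d : ℕ}

theorem iterate_FF_of_parent {c : ℕ → (Fin d → ℤ) → ENNReal} {p : (Fin d → ℤ) → (Fin d → ℤ)}
    (hp : ∀ n x, c n x ≠ 0 → p x ∈ nbrs x ∧ ∀ z ∈ nbrs x, z ≠ p x → c n z < c n (p x))
    (hs : ∀ n x, c (n + 1) x = ∑ y ∈ nbrs x, if p y = x then c n y else 0) (n : ℕ) :
    FF^[n] (c 0) = c n := by
  classical
  induction n with
  | zero => rfl
  | succ n ih =>
    rw [Function.iterate_succ_apply', ih]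
    funext x
    rw [hs n x]
    unfold FF
    refine Finset.sum_congr rfl fun y hy => ?_
    by_cases h0 : c n y = 0
    · simp [h0]
    · obtain ⟨h1, h2⟩ := hp n y h0
      by_cases h3 : p y = x
      · rw [if_pos h3, if_pos]
        intro z hz hzx
        have := h2 z hz (by rw [h3]; exact hzx)
        rwa [h3] at this
      · rw [if_neg h3, if_neg]
        intro h4
        have h5 := h4 (p y) h1 h3
        have h6 := h2 x (mem_nbrs_symm.1 hy) (fun h => h3 h.symm)
        exact absurd h5 (not_lt.2 h6.le)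

theorem QQ_of_parent {c : ℕ → (Fin d → ℤ) → ENNReal} {p : (Fin d → ℤ) → (Fin d → ℤ)}
    (hp : ∀ n x, c n x ≠ 0 → p x ∈ nbrs x ∧ ∀ z ∈ nbrs x, z ≠ p x → c n z < c n (p x))
    (hs : ∀ n x, c (n + 1) x = ∑ y ∈ nbrs x, if p y = x then c n y else 0)
    (h0 : ∀ x, ∃ N, ∀ n, N ≤ n → c n x = 0) : QQ (c 0) := by
  refine ⟨fun n x hx => ?_, fun x => ?_⟩
  · rw [iterate_FF_of_parent hp hs n] at hx ⊢
    obtain ⟨h1, h2⟩ := hp n x hx
    exact ⟨p x, h1, h2⟩
  · obtain ⟨N, hN⟩ := h0 x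
    exact ⟨N, fun n hn => by rw [iterate_FF_of_parent hp hs n]; exact hN n hn⟩

end MP_37d2f2_pr
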