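import Pool.Agent.H75.ES.Det

/-!
Job ES-E2: measurability.

`measurable_FF`: `measurable_pi_iff`, `Finset.measurable_sum`, `Measurable.ite`; the set
`{c | ∀ z ∈ nbrs y, z ≠ x → c z < c x}` is a finite intersection of sets `{c | c z < c x}`
(`measurableSet_lt`, `measurable_pi_apply`). `measurableSet_QQ`: `{c | QQ c}` is obtained from such
sets for `(FF^[n] c)` (`Measurable.iterate`) by countable intersections and unions (`Fin d → ℤ` is
countable; `MeasurableSet.iInter`, `MeasurableSet.iUnion`, or `measurability` after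
`Set.setOf_forall`, `Set.setOf_exists`).
-/

open MeasureTheory Filter Topology

namespace MP_37d2f2_pr

variable {d : ℕ}

theorem measurable_FF : Measurable (FF (d := d)) := by
  classical
  rw [measurable_pi_iff]
  intro x
  unfold FF
  refine Finset.measurable_sum _ fun y _ => ?_
  refine Measurable.ite ?_ (measurable_pi_apply y) measurable_const
  have : {c : (Fin d → ℤ) → ENNReal | ∀ z ∈ nbrs y, z ≠ x → c z < c x}
      = ⋂ z ∈ nbrs y, ⋂ _ : z ≠ x, {c | c z < c x} := by
    ext c
    simp only [Set.mem_setOf_eq, Set.mem_iInter]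
  rw [this]
  refine Finset.measurableSet_biInter _ fun z _ => MeasurableSet.iInter fun _ => ?_
  exact measurableSet_lt (measurable_pi_apply z) (measurable_pi_apply x)

theorem detD_iter (n : ℕ) (x : Fin d → ℤ) :
    Measurable (fun c : (Fin d → ℤ) → ENNReal => (FF^[n] c) x) :=
  (measurable_pi_apply x).comp (measurable_FF.iterate n)

theorem measurableSet_QQ : MeasurableSet {c : (Fin d → ℤ) → ENNReal | QQ c} := by
  classical
  have h : {c : (Fin d → ℤ) → ENNReal | QQ c}
      = (⋂ n : ℕ, ⋂ x : Fin d → ℤ, ({c | (FF^[n] c) x = 0} ∪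
          ⋃ p ∈ nbrs x, ⋂ z ∈ nbrs x, ⋂ _ : z ≠ p, {c | (FF^[n] c) z < (FF^[n] c) p})) ∩
        ⋂ x : Fin d → ℤ, ⋃ N : ℕ, ⋂ n : ℕ, ⋂ _ : N ≤ n, {c | (FF^[n] c) x = 0} := by
    ext c
    simp only [QQ, Set.mem_setOf_eq, Set.mem_inter_iff, Set.mem_iInter, Set.mem_iUnion,
      Set.mem_union, exists_prop]
    constructor
    · rintro ⟨h1, h2⟩
      refine ⟨fun n x => ?_, h2⟩
      by_cases h : (FF^[n] c) x = 0
      · exact Or.inl h
      · exact Or.inr (h1 n x h)
    · rintro ⟨h1, h2⟩
      refine ⟨fun n x h => ?_, h2⟩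
      exact (h1 n x).resolve_left h
  have hz : ∀ (n : ℕ) (x : Fin d → ℤ),
      MeasurableSet {c : (Fin d → ℤ) → ENNReal | (FF^[n] c) x = 0} := fun n x =>
    (detD_iter n x) (measurableSet_singleton 0)
  rw [h]
  refine MeasurableSet.inter ?_ ?_
  · refine MeasurableSet.iInter fun n => MeasurableSet.iInter fun x => ?_
    refine (hz n x).union ?_
    refine Finset.measurableSet_biUnion _ fun p _ => ?_
    refine Finset.measurableSet_biInter _ fun z _ => MeasurableSet.iInter fun _ => ?_
    exact measurableSet_lt (detD_iter n z) (detD_iter n p)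
  · refine MeasurableSet.iInter fun x => MeasurableSet.iUnion fun N =>
      MeasurableSet.iInter fun n => MeasurableSet.iInter fun _ => hz n x

end MP_37d2f2_pr
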