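import Pool.Agent.H75.ES.Def

/-!
Job ES-A7: a tower exists.

For a state `s` and `k : ℕ` choose `e` with
`4^(k+4) * (X (Y+1) Z + m + (m + h + 1) (RR f m h + f 0 + 4)) ≤ 3^e` (`∃ e : ℕ, c ≤ 3^e`,
`pow_unbounded_of_one_lt`) and let `x s k = 3^e`. Define `s 0 = St.init`,
`s (k+1) = (s k).next (x (s k) k)`. `init`, `step` (`((s k).next x).X = x`) and `grow` are immediate;
`pow`: `27 = 3^3` and `3^e`.
-/

namespace ES

theorem exists_tower : Nonempty Tower := by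
  classical
  have hx : ∀ (s : St) (k : ℕ), ∃ e : ℕ, (4 : ℝ) ^ (k + 4) * (s.X * (s.Y + 1) * s.Z + s.m +
      (s.m + s.h + 1) * (RR s.f s.m s.h + s.f 0 + 4)) ≤ (3 : ℝ) ^ e := fun s k => by
    obtain ⟨e, he⟩ := pow_unbounded_of_one_lt ((4 : ℝ) ^ (k + 4) * (s.X * (s.Y + 1) * s.Z + s.m +
      (s.m + s.h + 1) * (RR s.f s.m s.h + s.f 0 + 4))) (by norm_num : (1 : ℝ) < 3)
    exact ⟨e, he.le⟩
  choose e he using hx
  let s : ℕ → St := fun k => Nat.rec St.init (fun k s => s.next (3 ^ (e s k))) k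
  refine ⟨⟨s, rfl, fun k => rfl, fun k => ?_, fun k => ?_⟩⟩
  · cases k with
    | zero => exact ⟨3, rfl⟩
    | succ k => exact ⟨e (s k) k, rfl⟩
  · have h1 : ((s (k + 1)).X : ℝ) = (3 : ℝ) ^ (e (s k) k) := by
      have : (s (k + 1)).X = 3 ^ (e (s k) k) := rfl
      rw [this]; push_cast; rfl
    rw [h1]
    exact he (s k) k

end ES
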