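import Pool.Agent.H75.ES.Mean
import Pool.Agent.H75.ES.DetA

/-! The random configuration on `ℤ^d`, `d ≥ 3` (definitions, helper75). -/

open MeasureTheory Filter Topology MP_37d2f2_pr

namespace ES

variable (T : Tower) {d : ℕ} (hd : 3 ≤ d)

/-- the coordinates in which the third basis vector is `(1,1,1)` -/
def pt (x : Fin d → ℤ) : ℤ × ℤ × ℤ :=
  (x ⟨0, by omega⟩ + x ⟨2, by omega⟩, x ⟨1, by omega⟩ + x ⟨2, by omega⟩, x ⟨2, by omega⟩)

/-- the vertex is in one of the three-dimensional layers which carry the configuration -/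
def on (e : Fin d → ZMod 2) (x : Fin d → ℤ) : Prop :=
  ∀ i : Fin d, 3 ≤ i.val → (x i : ZMod 2) + e i = 0

instance (e : Fin d → ZMod 2) (x : Fin d → ℤ) : Decidable (on e x) := by unfold on; infer_instance

/-- the content at time `n` -/
noncomputable def con (g : GG T) (e : Fin d → ZMod 2) (n : ℕ) (x : Fin d → ℤ) : ENNReal :=
  if on e x then ENNReal.ofReal (pr T (Inf T (g + ι T (pt hd x))) n) else 0

/-- the unit vector of a direction -/
def uv : Dir → (Fin d → ℤ)
  | Dir.e1 => Pi.single ⟨0, by omega⟩ 1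
  | Dir.e2 => Pi.single ⟨1, by omega⟩ 1
  | Dir.f => Pi.single ⟨2, by omega⟩ 1

/-- the parent -/
noncomputable def par (g : GG T) (e : Fin d → ZMod 2) (x : Fin d → ℤ) : Fin d → ℤ :=
  if on e x then
    match Inf T (g + ι T (pt hd x)) with
    | some (_, δ) => x - uv hd δ
    | none => x
  else x

/-- the initial configuration -/
noncomputable def Γ (ω : GG T × (Fin d → ZMod 2)) (x : Fin d → ℤ) : ENNReal :=
  if on ω.2 x then cc T (ω.1 + ι T (pt hd x)) else 0

theorem pt_add (x y : Fin d → ℤ) : pt hd (x + y) = pt hd x + pt hd y := by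
  simp only [pt, Pi.add_apply, Prod.mk_add_mk]
  refine Prod.ext ?_ (Prod.ext ?_ ?_)
  · show x _ + y _ + (x _ + y _) = x _ + x _ + (y _ + y _)
    ring
  · show x _ + y _ + (x _ + y _) = x _ + x _ + (y _ + y _)
    ring
  · rfl

theorem pt_uv (δ : Dir) : pt hd (uv hd δ) = vec δ := by
  cases δ <;> simp [pt, uv, vec, Dir.x, Dir.y, Dir.z]

theorem pt_add_uv (x : Fin d → ℤ) (δ : Dir) : pt hd (x + uv hd δ) = pt hd x + vec δ := by
  rw [pt_add, pt_uv]

theorem pt_sub_uv (x : Fin d → ℤ) (δ : Dir) : pt hd (x - uv hd δ) = pt hd x - vec δ := by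
  rw [eq_sub_iff_add_eq, ← pt_add_uv, sub_add_cancel]

theorem uv_apply_of_le (δ : Dir) {i : Fin d} (hi : 3 ≤ i.val) : uv hd δ i = 0 := by
  cases δ <;> simp only [uv] <;> apply Pi.single_eq_of_ne <;> intro h <;>
    rw [h] at hi <;> simp at hi

theorem on_add_uv {e : Fin d → ZMod 2} {x : Fin d → ℤ} (δ : Dir) :
    on e (x + uv hd δ) ↔ on e x := by
  refine forall_congr' fun i => ?_
  refine forall_congr' fun hi => ?_
  rw [Pi.add_apply, uv_apply_of_le hd δ hi, add_zero]

theorem on_sub_uv {e : Fin d → ZMod 2} {x : Fin d → ℤ} (δ : Dir) :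
    on e (x - uv hd δ) ↔ on e x := by
  rw [← on_add_uv hd δ, sub_add_cancel]

end ES
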