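import Pool.Agent.H75.ES.InfoL

/-!
Job ES-B7a: an empty vertex (other than the parent of the root) has no children.

Each of the three terms vanishes: `ct T (info T k (u+δ.x) ..) δ n` is `0` unless the vertex
`q + δ` has `info = some (t', δ)`; then `hp` for `q + δ` says that either `q + δ` is the root
`(m, 1, 0)`, whose direction is `e1` by `hr`, so `δ = e1` and `q = (m - 1, 1, 0)`, excluded by `hn`; or
`info T k ((u + δ.x) - δ.x) .. = info T k u v w` is `some _`, contradicting `h`.
-/

namespace ES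

variable {T : Tower} {k : ℕ}

theorem ct_eq_zero (hr : info T k (T.m k) 1 0 = some (Tag.t k 0, Dir.e1))
    (hp : ∀ u v w t d, info T k u v w = some (t, d) → (u = T.m k ∧ v = 1 ∧ w = 0) ∨
      ∃ p d', info T k (u - d.x) (v - d.y) (w - d.z) = some (p, d') ∧ Rel T p t)
    {u v w : ℤ} (n : ℕ) (hn : ¬ (u = (T.m k : ℤ) - 1 ∧ v = 1 ∧ w = 0)) (h : info T k u v w = none)
    (δ : Dir) {u' v' w' : ℤ} (hu : u' = u + δ.x) (hv : v' = v + δ.y) (hw : w' = w + δ.z) :
    ct T (info T k u' v' w') δ n = 0 := by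
  cases hi : info T k u' v' w' with
  | none => rfl
  | some r =>
    obtain ⟨t', d'⟩ := r
    simp only [ct]
    by_cases hd : d' = δ
    · subst hd
      exfalso
      rcases hp _ _ _ _ _ hi with ⟨h1, h2, h3⟩ | ⟨p, d'', h4, -⟩
      · rw [h1, h2, h3, hr] at hi
        have hd2 : d' = Dir.e1 := by
          have := Option.some.inj hi
          exact (Prod.mk.inj this).2.symm
        subst hd2
        apply hn
        simp only [Dir.x, Dir.y, Dir.z] at hu hv hw
        refine ⟨by omega, by omega, by omega⟩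
      · have e1 : u' - d'.x = u := by omega
        have e2 : v' - d'.y = v := by omega
        have e3 : w' - d'.z = w := by omega
        rw [e1, e2, e3, h] at h4
        exact absurd h4 (by simp)
    · rw [if_neg hd]

theorem child_none (hr : info T k (T.m k) 1 0 = some (Tag.t k 0, Dir.e1))
    (hp : ∀ u v w t d, info T k u v w = some (t, d) → (u = T.m k ∧ v = 1 ∧ w = 0) ∨
      ∃ p d', info T k (u - d.x) (v - d.y) (w - d.z) = some (p, d') ∧ Rel T p t)
    {u v w : ℤ} (n : ℕ) (hn : ¬ (u = (T.m k : ℤ) - 1 ∧ v = 1 ∧ w = 0)) (h : info T k u v w = none) :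
    ct T (info T k (u + 1) v w) Dir.e1 n + ct T (info T k u (v + 1) w) Dir.e2 n +
      ct T (info T k (u + 1) (v + 1) (w + 1)) Dir.f n = 0 := by
  rw [ct_eq_zero hr hp n hn h Dir.e1 (by simp [Dir.x]) (by simp [Dir.y]) (by simp [Dir.z]),
    ct_eq_zero hr hp n hn h Dir.e2 (by simp [Dir.x]) (by simp [Dir.y]) (by simp [Dir.z]),
    ct_eq_zero hr hp n hn h Dir.f (by simp [Dir.x]) (by simp [Dir.y]) (by simp [Dir.z])]
  norm_num

end ES
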