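import Pool.Agent.H75.ES.InfoL

/-!
Job ES-B8: children in the copies of `T_k`.

`info_sub_some`: `u = Y κ + v'`, `w = Z j + w'`, `info T k v v' w' = some (t, d.swap)`; by `H.supp`
`1 ≤ v' < Y k`, `0 ≤ w'`, `w' + 1 < Z k`. Claim: for `a, b, c ∈ {0, 1}` (the vectors of the three directions)
`info T (k+1) (u + a) (v + b) (w + c) = (info T k (v + b) (v' + a) (w' + c)).map fun r => (r.1, r.2.swap)`:
if `v' + a < Y k` this is `info_cell` (same `κ, j`, the conditions hold); if `v' + a = Y k` the right side is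
`none` by `H.supp`, and the left side is `info_cell` for `κ + 1` and `v'' = 0`, which is `none` by `H.supp`
(`1 ≤ v''` fails) whatever the condition. Next `ct T (o.map fun r => (r.1, r.2.swap)) δ n = ct T o δ.swap n`
(cases on `o`, `Dir.swap_inj`). So the sum is (first two terms exchanged) the left side of
`H.child v v' w' n`, whose exception `v = m k - 1` does not occur, and `pr T (some (t, _)) (n+1) =
prof T t (n+1)`.
-/

namespace ES

variable {T : Tower} {k : ℕ}

/-- the neighbours inside the zone of the copies, in terms of the cell -/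
theorem info_copy (H : Str T k) {κ j v' w' v : ℤ} (hv : (T.m k : ℤ) ≤ v) (h1 : 1 ≤ v')
    (h2 : v' < T.Y k) (h3 : 0 ≤ w') (h4 : w' + 1 < T.Z k) (hj : 0 ≤ j) (hj' : j < T.Y k)
    (hc : (T.m (k + 1) : ℤ) ≤ T.Y k * κ + 1 - T.Z k * j)
    (hc' : T.Y k * κ + 1 - T.Z k * j < (T.m (k + 1) : ℤ) + T.B k) (δ : Dir) :
    info T (k + 1) (T.Y k * κ + v' + δ.x) (v + δ.y) (T.Z k * j + w' + δ.z) =
      (info T k (v + δ.y) (v' + δ.x) (w' + δ.z)).map fun r => (r.1, r.2.swap) := by
  have hδx : 0 ≤ δ.x ∧ δ.x ≤ 1 := by cases δ <;> simp [Dir.x]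
  have hδy : 0 ≤ δ.y ∧ δ.y ≤ 1 := by cases δ <;> simp [Dir.y]
  have hδz : 0 ≤ δ.z ∧ δ.z ≤ 1 := by cases δ <;> simp [Dir.z]
  rcases lt_or_ge (v' + δ.x) (T.Y k : ℤ) with hlt | hge
  · rw [show T.Y k * κ + v' + δ.x = T.Y k * κ + (v' + δ.x) by ring,
      show T.Z k * j + w' + δ.z = T.Z k * j + (w' + δ.z) by ring,
      info_cell T k (by omega) (by omega) hlt (by omega) (by omega), if_pos ⟨hj, hj', hc, hc'⟩]
  · have e : T.Y k * κ + v' + δ.x = T.Y k * (κ + 1) + 0 := by
      have : v' + δ.x = T.Y k := by omega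
      linear_combination this
    have hY := T.three_le_Y k
    have n1 : info T k (v + δ.y) (v' + δ.x) (w' + δ.z) = none := by
      cases h : info T k (v + δ.y) (v' + δ.x) (w' + δ.z) with
      | none => rfl
      | some r => have := H.supp _ _ _ _ h; omega
    have n2 : info T k (v + δ.y) 0 (w' + δ.z) = none := by
      cases h : info T k (v + δ.y) 0 (w' + δ.z) with
      | none => rfl
      | some r => have := H.supp _ _ _ _ h; omega
    rw [e, show T.Z k * j + w' + δ.z = T.Z k * j + (w' + δ.z) by ring,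
      info_cell T k (by omega) le_rfl (by omega) (by omega) (by omega), n1, n2]
    simp

theorem ct_swap (o : Option (Tag × Dir)) (δ : Dir) (n : ℕ) :
    ct T (o.map fun r => (r.1, r.2.swap)) δ n = ct T o δ.swap n := by
  cases o with
  | none => rfl
  | some r =>
    obtain ⟨t, d⟩ := r
    simp only [Option.map_some, ct]
    have : d.swap = δ ↔ d = δ.swap := by
      rw [← Dir.swap_inj (e := δ), Dir.swap_swap]
    simp only [this]

theorem child_sub (H : Str T k) {u v w : ℤ} {t : Tag} {d : Dir} (n : ℕ)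
    (hv : (T.m k : ℤ) ≤ v) (h : info T (k + 1) u v w = some (t, d)) :
    ct T (info T (k + 1) (u + 1) v w) Dir.e1 n + ct T (info T (k + 1) u (v + 1) w) Dir.e2 n +
      ct T (info T (k + 1) (u + 1) (v + 1) (w + 1)) Dir.f n = prof T t (n + 1) := by
  obtain ⟨κ, j, v', w', rfl, rfl, a1, a2, a3, a4, a5, a6, a7, a8, hi⟩ := info_sub_some T k hv h
  have hs := H.supp _ _ _ _ hi
  have c1 := info_copy H (κ := κ) (j := j) hv hs.2.2.1 a2 a3 hs.2.2.2.2.2 a5 a6 a7 a8 Dir.e1
  have c2 := info_copy H (κ := κ) (j := j) hv hs.2.2.1 a2 a3 hs.2.2.2.2.2 a5 a6 a7 a8 Dir.e2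
  have c3 := info_copy H (κ := κ) (j := j) hv hs.2.2.1 a2 a3 hs.2.2.2.2.2 a5 a6 a7 a8 Dir.f
  simp only [Dir.x, Dir.y, Dir.z, add_zero] at c1 c2 c3
  rw [c1, c2, c3, ct_swap, ct_swap, ct_swap]
  have hc := H.child v v' w' n (by omega)
  rw [hi] at hc
  simp only [Dir.swap, pr] at hc ⊢
  rw [← hc]
  ring

end ES
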