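import Pool.Agent.H75.ES.Prof

/-!
Job ES-B7b: children of the trunk and stem vertices of `T_{k+1}`.

Write `a = T.Y k`, `b = T.Z k`, `m = T.m k = a b ≥ 12`, `μ = T.m (k+1)`, `J x = JJ a b x`
(`0 ≤ J x`, `J x + b ≤ a b`, `b ∣ J x`, `(x + J x) % a = 1 % a = 1`).
Case `v = 1` (`info_v1`): the vertex is the trunk vertex `(μ + i, 1, 0)`, `i < B`. Neighbours:
`(μ+i+1, 1, 0)` is the trunk vertex `i + 1` with direction `e1` if `i + 1 < B` and empty if
`i + 1 = B`; `(μ+i, 2, 0)` is the stem vertex `s k 1` of `x = μ + i` (`min 0 (J x) = 0`) with direction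
`e2` (`info_stem`); `(μ+i+1, 2, 1)` is empty (a stem vertex there would have
`1 = min 0 _`). The claim is `PP_succ` or `PP_last` (`prof T (s k 1) n = ph (1 + n)`).
Case `v ≥ 2` (`v ≤ 0` is impossible, `info_v0`; use `info_street_some`): `x = u - w`,
`w = min (v-2) (J x)`, tag `s k (v-1)`. The term `e1` vanishes: `(u+1, v, w)` is in the street zone with
`v ≥ 2`, its direction is never `e1` (`info_street_some`).
 * `v + 1 < m`: if `w = J x` then `(u, v+1, w)` is the stem vertex `s k v` of `x` with direction `e2`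
   (`w ≤ v - 2 < v - 1`) and `(u+1, v+1, w+1)` is empty (it would need
   `w + 1 = min (v-1) (J x) ≤ J x`). If `w < J x` then `w = v - 2`, `(u, v+1, w)` is empty
   (`min (v-1) (J x) = w + 1`) and `(u+1, v+1, w+1)` is the stem vertex `s k v` with direction `f`.
   `prof T (s k v) n = ph (v + n) = ph (v - 1 + (n+1))`.
 * `v + 1 = m`: `w = J x` (since `J x ≤ m - 4`), `u = x + J x ≡ 1 mod a`, `w = b j`, `0 ≤ j < a`. By
   `info_cell` with `κ = (u-1)/a`, `v' = 1`, `w' = 0`: `(u, m, w)` is the root of a copy of `T_k`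
   (condition: `a κ + 1 - b j = x ∈ [μ, μ + B)`), `H.root`, direction `e1.swap = e2`, contribution
   `prof T (t k 0) n = T.f k n` (`prof_root`) `= ph (m - 2 + 1 + n)` (`ph_root`). `(u+1, m, w+1)`:
   `v' = 2 < a`, `w' = 1 < b`: empty by `H.r21`.
-/

namespace ES

variable {T : Tower} {k : ℕ}

theorem ct_none_aux (d : Dir) (n : ℕ) : ct T none d n = 0 := rfl

theorem ct_some_aux (t : Tag) (d : Dir) (n : ℕ) : ct T (some (t, d)) d n = prof T t n := by
  simp [ct]

theorem ct_ne_aux {t : Tag} {d d' : Dir} (h : d' ≠ d) (n : ℕ) : ct T (some (t, d')) d n = 0 := by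
  simp [ct, h]

/-- the case of the trunk -/
theorem child_trunk_aux {u w : ℤ} {t : Tag} {d : Dir} (n : ℕ)
    (h : info T (k + 1) u 1 w = some (t, d)) :
    ct T (info T (k + 1) (u + 1) 1 w) Dir.e1 n + ct T (info T (k + 1) u (1 + 1) w) Dir.e2 n +
      ct T (info T (k + 1) (u + 1) (1 + 1) (w + 1)) Dir.f n = prof T t (n + 1) := by
  have h12 := T.twelve_le_m k
  have hY := T.three_le_Y k
  obtain ⟨i, hi, rfl, rfl, hr⟩ := info_v1 T k h
  simp only [Prod.mk.injEq] at hr
  obtain ⟨rfl, rfl⟩ := hr
  have hJ0 := JJ_nonneg (a := T.Y k) (b := T.Z k) (by omega) ((T.m (k + 1) : ℤ) + i)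
  have e2 : info T (k + 1) (T.m (k + 1) + i) (1 + 1) 0 = some (Tag.s k 1, Dir.e2) := by
    have := info_stem T k (x := T.m (k + 1) + i) (v := 2) (by omega) (by omega) (by norm_num)
      (by omega)
    have hm : min ((2 : ℤ) - 2) (JJ (T.Y k) (T.Z k) (T.m (k + 1) + i)) = 0 := by
      rw [min_eq_left] <;> omega
    rw [hm] at this
    simpa using this
  have e3 : info T (k + 1) (T.m (k + 1) + i + 1) (1 + 1) (0 + 1) = none := by
    cases hh : info T (k + 1) (T.m (k + 1) + i + 1) (1 + 1) (0 + 1) with
    | none => rfl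
    | some r =>
      obtain ⟨t', d'⟩ := r
      have := (info_street_some T k (by norm_num) (by omega) hh).2.2.1
      omega
  rw [e2, e3, ct_none_aux, ct_some_aux, add_zero]
  have hs : prof T (Tag.s k 1) n = ph (T.f k) (T.m k) (n + 1) := by
    rw [add_comm n 1]; rfl
  have ht : prof T (Tag.t (k + 1) i) (n + 1) = PP (T.f k) (T.m k) (T.h k) (T.B k) i (n + 1) := rfl
  rw [hs, ht]
  rcases Nat.lt_or_ge (i + 1) (T.B k) with hc | hc
  · have e1 : info T (k + 1) (T.m (k + 1) + i + 1) 1 0 =
        some (Tag.t (k + 1) (i + 1), Dir.e1) := by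
      rw [add_assoc]
      have := info_trunk T k hc
      push_cast at this
      exact this
    rw [e1, ct_some_aux, PP_succ hc]
    rfl
  · have hc' : i + 1 = T.B k := by omega
    have e1 : info T (k + 1) (T.m (k + 1) + i + 1) 1 0 = none := by
      cases hh : info T (k + 1) (T.m (k + 1) + i + 1) 1 0 with
      | none => rfl
      | some r =>
        obtain ⟨j, hj, hj', -⟩ := info_v1 T k hh
        omega
    rw [e1, ct_none_aux, PP_last hc', zero_add]

theorem child_street (H : Str T k) {u v w : ℤ} {t : Tag} {d : Dir} (n : ℕ) (hv : v < T.m k)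
    (h : info T (k + 1) u v w = some (t, d)) :
    ct T (info T (k + 1) (u + 1) v w) Dir.e1 n + ct T (info T (k + 1) u (v + 1) w) Dir.e2 n +
      ct T (info T (k + 1) (u + 1) (v + 1) (w + 1)) Dir.f n = prof T t (n + 1) := by
  have h12 := T.twelve_le_m k
  have hY := T.three_le_Y k
  have hZ := T.four_le_Z k
  have hmeq : (T.m k : ℤ) = T.Y k * T.Z k := by exact_mod_cast T.m_eq k
  rcases le_or_gt v 0 with hv0 | hv0
  · rw [info_v0 T k hv0] at h; simp at h
  rcases (show v = 1 ∨ 2 ≤ v by omega) with rfl | hv2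
  · exact child_trunk_aux n h
  obtain ⟨hx, hx', hw, rfl, hd⟩ := info_street_some T k hv2 hv h
  set a := T.Y k with ha
  set b := T.Z k with hb
  obtain ⟨x, rfl⟩ : ∃ x, u = x + w := ⟨u - w, by ring⟩
  rw [add_sub_cancel_right] at hx hx' hw
  have hJ0 := JJ_nonneg (a := a) (b := b) (by omega) x
  have hJle := JJ_le (a := a) (b := b) (by omega) x
  have hw0 : 0 ≤ w := by omega
  -- the term in direction e1
  have e1 : ct T (info T (k + 1) (x + w + 1) v w) Dir.e1 n = 0 := by
    cases hh : info T (k + 1) (x + w + 1) v w with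
    | none => rfl
    | some r =>
      obtain ⟨t', d'⟩ := r
      have := (info_street_some T k hv2 hv hh).2.2.2.2
      apply ct_ne_aux
      rw [this]
      split_ifs <;> simp
  rw [e1, zero_add]
  have hprof : prof T (Tag.s k (v - 1).toNat) (n + 1) =
      ph (T.f k) (T.m k) ((v - 1).toNat + (n + 1)) := rfl
  rw [hprof]
  have hvt : ((v - 1).toNat : ℤ) = v - 1 := by omega
  rcases lt_or_ge (v + 1) (T.m k : ℤ) with hvm | hvm
  · have hs : prof T (Tag.s k (v + 1 - 1).toNat) n =
        ph (T.f k) (T.m k) ((v - 1).toNat + (n + 1)) := by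
      have : (v - 1).toNat + (n + 1) = (v + 1 - 1).toNat + n := by omega
      rw [this]; rfl
    have hst := info_stem T k (x := x) (v := v + 1) hx hx' (by omega) hvm
    rcases (show w = JJ a b x ∨ w < JJ a b x by omega) with hwJ | hwJ
    · have hmin : min (v + 1 - 2) (JJ a b x) = w := by omega
      rw [hmin, if_neg (by omega)] at hst
      have e3 : ct T (info T (k + 1) (x + w + 1) (v + 1) (w + 1)) Dir.f n = 0 := by
        cases hh : info T (k + 1) (x + w + 1) (v + 1) (w + 1) with
        | none => rfl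
        | some r =>
          obtain ⟨t', d'⟩ := r
          have := (info_street_some T k (by omega) hvm hh).2.2.1
          rw [show x + w + 1 - (w + 1) = x by ring, ← ha, ← hb] at this
          omega
      rw [hst, e3, ct_some_aux, hs, add_zero]
    · have hw2 : w = v - 2 := by omega
      have hmin : min (v + 1 - 2) (JJ a b x) = w + 1 := by omega
      rw [hmin, if_pos (by omega)] at hst
      have e2 : ct T (info T (k + 1) (x + w) (v + 1) w) Dir.e2 n = 0 := by
        cases hh : info T (k + 1) (x + w) (v + 1) w with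
        | none => rfl
        | some r =>
          obtain ⟨t', d'⟩ := r
          have := (info_street_some T k (by omega) hvm hh).2.2.1
          rw [show x + w - w = x by ring, ← ha, ← hb] at this
          omega
      rw [add_assoc x w 1, hst, e2, ct_some_aux, hs, zero_add]
  · have hvm' : v + 1 = T.m k := by omega
    have hwJ : w = JJ a b x := by omega
    obtain ⟨j, hj⟩ := JJ_dvd (a := a) (b := b) x
    have hmod := JJ_emod (a := a) (b := b) (by omega) (T.coprime k) x
    have h1 : (1 : ℤ) % a = 1 := Int.emod_eq_of_lt (by norm_num) (by omega)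
    rw [h1, ← hwJ] at hmod
    have hwj : w = b * j := by rw [hwJ, hj]
    have hu : x + w = a * ((x + w) / a) + 1 := by
      have := Int.mul_ediv_add_emod (x + w) a
      rw [hmod] at this
      exact this.symm
    set κ := (x + w) / a with hκ
    have hj0 : 0 ≤ j := by
      by_contra hjn
      have : (b : ℤ) * j ≤ b * (-1) := mul_le_mul_of_nonneg_left (by omega) (by omega)
      omega
    have hja : j < a := by
      by_contra hjn
      have : (b : ℤ) * a ≤ b * j := mul_le_mul_of_nonneg_left (by omega) (by omega)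
      rw [mul_comm (b : ℤ) a] at this
      omega
    have hcond : 0 ≤ j ∧ j < (T.Y k : ℤ) ∧ (T.m (k + 1) : ℤ) ≤ T.Y k * κ + 1 - T.Z k * j ∧
        T.Y k * κ + 1 - T.Z k * j < (T.m (k + 1) : ℤ) + T.B k := by
      refine ⟨hj0, hja, ?_, ?_⟩
      · have : (T.Y k : ℤ) * κ + 1 - T.Z k * j = x := by
          rw [← hwj, ← ha]; linarith
        omega
      · have : (T.Y k : ℤ) * κ + 1 - T.Z k * j = x := by
          rw [← hwj, ← ha]; linarith
        omega
    have e2 : info T (k + 1) (x + w) (v + 1) w = some (Tag.t k 0, Dir.e2) := by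
      have := info_cell T k (κ := κ) (j := j) (v' := 1) (w' := 0) (v := T.m k) le_rfl
        (by norm_num) (by omega) le_rfl (by omega)
      rw [if_pos hcond, H.root, add_zero] at this
      rw [hvm', hu, hwj]
      exact this
    have e3 : info T (k + 1) (x + w + 1) (v + 1) (w + 1) = none := by
      have := info_cell T k (κ := κ) (j := j) (v' := 2) (w' := 1) (v := T.m k) le_rfl
        (by norm_num) (by omega) (by norm_num) (by omega)
      rw [if_pos hcond, H.r21] at this
      rw [hvm', hu, hwj, add_assoc _ (1 : ℤ) 1]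
      exact this
    rw [e2, e3, ct_some_aux, ct_none_aux, add_zero, prof_root]
    have : (v - 1).toNat + (n + 1) = T.m k - 2 + 1 + n := by omega
    rw [this, ph_root (by omega)]

end ES
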