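import Pool.Agent.H75.ES.InfoL

/-!
Job ES-B5: neighbours in the street zone and across its boundary.

`nbr_street` (`v ≤ 0` is impossible, `info_v0`; `J = JJ (Y k) (Z k) x ≥ 0`, `x = u - w`):
* `δ = e1`: `v = 1`: both are trunk vertices, `d' = e1`. `v ≥ 2`: both have the tag `s k (v-1)`.
* `δ = e2`: `v = 1`: `w = 0`, and the stem vertex `(u, 2, 0)` has direction `e2`. `v ≥ 2`: same `x`,
  `w = min (v-2) J = min (v-1) J`, so `w ≤ v - 2 < (v+1) - 2` and `d' = e2`.
* `δ = f`: same `x`. `v = 1`: `(u+1, 2, 1)` would need `1 = min 0 J`, impossible. `v ≥ 2`: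
  `w = min (v-2) J`, `w + 1 = min (v-1) J`, so `w < J`, `w = v - 2`, `w + 1 = (v+1) - 2 > 0`: `d' = f`.
`nbr_cross`: `δ.y = 1`, `v = m k - 1`, `q = (u, v, w)` is a stem vertex with `w = J = Z j₀`
(`J ≤ m k - Z k ≤ m k - 4 < v - 2`), `0 ≤ j₀ < Y k`, and `(x + J) % Y k = 1` (`JJ_emod`, `T.coprime`).
`info_sub_some` for `q + δ`: the representations `u + δ.x = Y κ + v'`, `w + δ.z = Z j + w'` are unique, so for
`δ = e2`: `v' = 1`, `w' = 0` and `H.root` gives `d'.swap = e1`, `d' = e2`; for `δ = f`: `v' = 2`, `w' = 1`,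
which contradicts `H.r21`.
-/

namespace ES

variable {T : Tower} {k : ℕ}

theorem nbr_street {u v w : ℤ} {t t' : Tag} {d d' : Dir} (δ : Dir) (hv : v + δ.y < T.m k)
    (h : info T (k + 1) u v w = some (t, d))
    (h' : info T (k + 1) (u + δ.x) (v + δ.y) (w + δ.z) = some (t', d')) : d' = δ ∨ t' = t := by
  have h12 := T.twelve_le_m k
  have hY := T.three_le_Y k
  have hv1 : 1 ≤ v := by
    by_contra hc
    rw [info_v0 T k (by omega)] at h
    simp at h
  have hJ0 : ∀ x : ℤ, 0 ≤ JJ (T.Y k) (T.Z k) x := fun x => JJ_nonneg (by omega) x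
  rcases eq_or_lt_of_le hv1 with hv2 | hv2
  · subst hv2
    obtain ⟨i, hi, hu, hw, hr⟩ := info_v1 T k h
    subst hw
    cases δ with
    | e1 =>
      simp only [Dir.x, Dir.y, Dir.z, add_zero] at h'
      obtain ⟨i', hi', hu', hw', hr'⟩ := info_v1 T k h'
      left
      exact (Prod.mk.inj hr').2
    | e2 =>
      simp only [Dir.x, Dir.y, Dir.z, add_zero] at h' hv
      obtain ⟨a1, a2, a3, a4, a5⟩ := info_street_some T k (by norm_num) hv h'
      left
      rw [a5, if_neg]
      rintro ⟨-, h0⟩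
      exact lt_irrefl _ h0
    | f =>
      simp only [Dir.x, Dir.y, Dir.z] at h' hv
      obtain ⟨a1, a2, a3, a4, a5⟩ := info_street_some T k (by norm_num) hv h'
      exfalso
      omega
  · obtain ⟨b1, b2, b3, b4, b5⟩ := info_street_some T k (by omega) (by
      cases δ <;> simp only [Dir.y] at hv <;> omega) h
    have hJ := hJ0 (u - w)
    cases δ with
    | e1 =>
      simp only [Dir.x, Dir.y, Dir.z, add_zero] at h' hv
      obtain ⟨a1, a2, a3, a4, a5⟩ := info_street_some T k (by omega) hv h'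
      right
      rw [a4, b4]
    | e2 =>
      simp only [Dir.x, Dir.y, Dir.z, add_zero] at h' hv
      obtain ⟨a1, a2, a3, a4, a5⟩ := info_street_some T k (by omega) hv h'
      left
      rw [a5, if_neg]
      rintro ⟨h0, -⟩
      omega
    | f =>
      simp only [Dir.x, Dir.y, Dir.z] at h' hv
      obtain ⟨a1, a2, a3, a4, a5⟩ := info_street_some T k (by omega) hv h'
      left
      have e : u + 1 - (w + 1) = u - w := by ring
      rw [e] at a3
      rw [a5, if_pos]
      omega

theorem nbr_cross (H : Str T k) {u v w : ℤ} {t t' : Tag} {d d' : Dir} (δ : Dir)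
    (hv : v < T.m k) (hv' : (T.m k : ℤ) ≤ v + δ.y)
    (h : info T (k + 1) u v w = some (t, d))
    (h' : info T (k + 1) (u + δ.x) (v + δ.y) (w + δ.z) = some (t', d')) : d' = δ ∨ t' = t := by
  have h12 := T.twelve_le_m k
  have hY := T.three_le_Y k
  have hZ := T.four_le_Z k
  have hve : v = T.m k - 1 ∧ v + δ.y = T.m k := by
    cases δ <;> simp only [Dir.y] at hv' ⊢ <;> omega
  obtain ⟨b1, b2, b3, b4, b5⟩ := info_street_some T k (by omega) (by omega) h
  have hJ0 := JJ_nonneg (a := T.Y k) (b := T.Z k) (by omega) (u - w)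
  obtain ⟨j₀, hj₀⟩ := JJ_dvd (a := T.Y k) (b := T.Z k) (u - w)
  have hJle := JJ_le (a := T.Y k) (b := T.Z k) (by omega) (u - w)
  have hJmod := JJ_emod (a := T.Y k) (b := T.Z k) (by omega) (T.coprime k) (u - w)
  have hm : (T.m k : ℤ) = T.Y k * T.Z k := by
    have := T.m_eq k
    rw [this]
    push_cast
    ring
  have hwJ : w = JJ (T.Y k) (T.Z k) (u - w) := by
    rw [← hm] at hJle
    omega
  rw [← hwJ] at hj₀ hJmod
  rw [sub_add_cancel, Int.emod_eq_of_lt (a := 1) (by norm_num) (by omega)] at hJmod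
  rw [hve.2] at h'
  obtain ⟨κ, j, v', w', e1, e2, c1, c2, c3, c4, -, -, -, -, hi⟩ := info_sub_some T k le_rfl h'
  have hu : u = T.Y k * (u / T.Y k) + 1 := by
    have := Int.mul_ediv_add_emod u (T.Y k : ℤ)
    rw [hJmod] at this
    exact this.symm
  cases δ with
  | e1 =>
    exfalso
    simp only [Dir.y] at hv'
    omega
  | e2 =>
    simp only [Dir.x, Dir.z, add_zero] at e1 e2
    have hv1 : v' = 1 := by
      have : v' = u % T.Y k := by
        rw [e1, Int.mul_add_emod_self_left, Int.emod_eq_of_lt c1 c2]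
      rw [this, hJmod]
    have hw0 : w' = 0 := by
      have : w' = w % T.Z k := by
        rw [e2, Int.mul_add_emod_self_left, Int.emod_eq_of_lt c3 c4]
      rw [this, hj₀, Int.mul_emod_right]
    rw [hv1, hw0, H.root] at hi
    simp only [Option.some.injEq, Prod.mk.injEq] at hi
    left
    have := congrArg Dir.swap hi.2
    rw [Dir.swap_swap] at this
    exact this.symm
  | f =>
    simp only [Dir.x, Dir.z] at e1 e2
    have hv1 : v' = 2 := by
      have : v' = (u + 1) % T.Y k := by
        rw [e1, Int.mul_add_emod_self_left, Int.emod_eq_of_lt c1 c2]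
      rw [this, hu, add_assoc, Int.mul_add_emod_self_left, Int.emod_eq_of_lt (by norm_num)]
      · norm_num
      · omega
    have hw0 : w' = 1 := by
      have : w' = (w + 1) % T.Z k := by
        rw [e2, Int.mul_add_emod_self_left, Int.emod_eq_of_lt c3 c4]
      rw [this, hj₀, Int.mul_add_emod_self_left, Int.emod_eq_of_lt (by norm_num) (by omega)]
    rw [hv1, hw0, H.r21] at hi
    simp at hi

end ES
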