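import Pool.Agent.H75.ES.InfoL

/-!
Job ES-B6: neighbours inside the zone of the copies.

`info_sub_some` for both points: `u = Y κ + v'`, `w = Z j + w'`, `info T k v v' w' = some (t, d.swap)` and
`u + δ.x = Y κ₂ + v₂`, `w + δ.z = Z j₂ + w₂`, `info T k (v + δ.y) v₂ w₂ = some (t', d'.swap)`. By `H.supp`:
`1 ≤ v' < Y k`, `0 ≤ w'`, `w' + 1 < Z k`, `1 ≤ v₂ < Y k`, `0 ≤ w₂ < Z k`; as `δ.x, δ.z ∈ {0, 1}`, uniqueness
of division gives `κ₂ = κ`, `v₂ = v' + δ.x` (the case `v' + δ.x = Y k` would give `v₂ = 0`), `j₂ = j`,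
`w₂ = w' + δ.z`. Then `H.nbr` for `(v, v', w')` and the direction `δ.swap` (`Dir.swap_x` ..., `Dir.swap_inj`).
-/

namespace ES

variable {T : Tower} {k : ℕ}

theorem eq_zero_of_mul_small {Y z r : ℤ} (e : Y * z = r) (h1 : -Y < r) (h2 : r < Y) : z = 0 := by
  have hY : 0 < Y := by linarith
  by_contra hz
  rcases lt_or_gt_of_ne hz with h | h
  · have : Y * z ≤ Y * (-1) := mul_le_mul_of_nonneg_left (by omega) hY.le
    omega
  · have : Y * 1 ≤ Y * z := mul_le_mul_of_nonneg_left (by omega) hY.le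
    omega

theorem nbr_sub (H : Str T k) {u v w : ℤ} {t t' : Tag} {d d' : Dir} (δ : Dir)
    (hv : (T.m k : ℤ) ≤ v)
    (h : info T (k + 1) u v w = some (t, d))
    (h' : info T (k + 1) (u + δ.x) (v + δ.y) (w + δ.z) = some (t', d')) : d' = δ ∨ t' = t := by
  have hx0 : 0 ≤ δ.x ∧ δ.x ≤ 1 := by cases δ <;> simp [Dir.x]
  have hy0 : 0 ≤ δ.y := by cases δ <;> simp [Dir.y]
  have hz0 : 0 ≤ δ.z ∧ δ.z ≤ 1 := by cases δ <;> simp [Dir.z]
  obtain ⟨κ, j, v', w', eu, ew, -, -, -, -, -, -, -, -, hi⟩ := info_sub_some T k hv h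
  obtain ⟨κ₂, j₂, v₂, w₂, eu2, ew2, -, -, -, -, -, -, -, -, hi2⟩ :=
    info_sub_some T k (by omega) h'
  have s1 := H.supp _ _ _ _ hi
  have s2 := H.supp _ _ _ _ hi2
  have hκ : κ₂ - κ = 0 := by
    have e : (T.Y k : ℤ) * (κ₂ - κ) = v' + δ.x - v₂ := by rw [eu] at eu2; linarith
    exact eq_zero_of_mul_small e (by omega) (by omega)
  have hj : j₂ - j = 0 := by
    have e : (T.Z k : ℤ) * (j₂ - j) = w' + δ.z - w₂ := by rw [ew] at ew2; linarith
    exact eq_zero_of_mul_small e (by omega) (by omega)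
  have hκ' : κ₂ = κ := by omega
  have hj' : j₂ = j := by omega
  subst hκ'
  subst hj'
  have e1 : v₂ = v' + δ.swap.y := by rw [Dir.swap_y]; linarith
  have e2 : w₂ = w' + δ.swap.z := by rw [Dir.swap_z]; linarith
  have e3 : v + δ.y = v + δ.swap.x := by rw [Dir.swap_x]
  rw [e1, e2, e3] at hi2
  rcases H.nbr _ _ _ _ _ δ.swap _ _ hi hi2 with h3 | h3
  · exact Or.inl (Dir.swap_inj.mp h3)
  · exact Or.inr h3

end ES
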