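import Pool.Agent.H75.ES.InfoL

/-!
Job ES-B3: parents of the trunk and stem vertices of `T_{k+1}`.

`v ≤ 0`: `info_v0`. `v = 1` (`info_v1`): `i = 0` is the root; `i = i' + 1`: the parent `(u - 1, 1, 0)` is the
trunk vertex `i'` (`info_trunk`, `Rel.trunk`). `2 ≤ v < m k` (`info_street_some`, `x = u - w`,
`J = JJ (Y k) (Z k) x ≥ 0`, `w = min (v-2) J`, `t = s k (v-1)`): `v = 2`: `w = 0`, `d = e2`, the parent `(u, 1, 0)`
is the trunk vertex `i = x - m (k+1)` (`info_trunk`, `Rel.side`). `v > 2` and `w = v - 2` (then `0 < w`,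
`d = f`): the parent `(u-1, v-1, w-1)` has the same `x`, `w - 1 = min (v-3) J`: stem vertex `s k (v-2)`
(`info_stem`, `Rel.stem`). `v > 2` and `w = J < v - 2` (`d = e2`): the parent `(u, v-1, w)`, `w = min (v-3) J`.
-/

namespace ES

variable {T : Tower} {k : ℕ}

theorem parent_street {u v w : ℤ} {t : Tag} {d : Dir} (hv : v < T.m k)
    (h : info T (k + 1) u v w = some (t, d)) :
    (u = T.m (k + 1) ∧ v = 1 ∧ w = 0) ∨
      ∃ p d', info T (k + 1) (u - d.x) (v - d.y) (w - d.z) = some (p, d') ∧ Rel T p t := by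
  have h12 := T.twelve_le_m k
  rcases lt_or_ge v 2 with hv2 | hv2
  · rcases lt_or_ge v 1 with hv1 | hv1
    · rw [info_v0 T k (by omega)] at h
      simp at h
    · have hv1' : v = 1 := by omega
      subst hv1'
      obtain ⟨i, hi, hu, hw, hr⟩ := info_v1 T k h
      simp only [Prod.mk.injEq] at hr
      obtain ⟨rfl, rfl⟩ := hr
      rcases Nat.eq_zero_or_pos i with rfl | hi0
      · left
        exact ⟨by simpa using hu, rfl, hw⟩
      · right
        obtain ⟨i', rfl⟩ : ∃ i', i = i' + 1 := ⟨i - 1, by omega⟩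
        refine ⟨Tag.t (k + 1) i', Dir.e1, ?_, Rel.trunk k i' hi⟩
        have key := info_trunk T k (i := i') (by omega)
        subst hw
        have e : u - Dir.e1.x = (T.m (k + 1) : ℤ) + i' := by
          simp only [Dir.x]
          push_cast at hu
          omega
        have e2 : (1 : ℤ) - Dir.e1.y = 1 := by simp [Dir.y]
        have e3 : (0 : ℤ) - Dir.e1.z = 0 := by simp [Dir.z]
        rw [e, e2, e3]
        exact key
  · obtain ⟨h1, h2, h3, ht, hd⟩ := info_street_some T k hv2 hv h
    right
    have hJ : 0 ≤ JJ (T.Y k) (T.Z k) (u - w) :=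
      JJ_nonneg (by have := T.three_le_Y k; omega) (u - w)
    obtain ⟨J, hJe⟩ : ∃ J, J = JJ (T.Y k) (T.Z k) (u - w) := ⟨_, rfl⟩
    rw [← hJe] at h3 hJ
    rcases eq_or_lt_of_le hv2 with hv2' | hv3
    · subst hv2'
      have hw0 : w = 0 := by omega
      subst hw0
      have hd' : d = Dir.e2 := by rw [hd, if_neg (by omega)]
      subst hd'
      have ht' : t = Tag.s k 1 := by rw [ht]; rfl
      subst ht'
      obtain ⟨i, hi⟩ : ∃ i : ℕ, u = (T.m (k + 1) : ℤ) + i := ⟨(u - T.m (k + 1)).toNat, by omega⟩
      have hiB : i < T.B k := by omega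
      refine ⟨Tag.t (k + 1) i, Dir.e1, ?_, Rel.side k i hiB⟩
      have key := info_trunk T k (i := i) hiB
      have e : u - Dir.e2.x = (T.m (k + 1) : ℤ) + i := by simp only [Dir.x]; omega
      have e2 : (2 : ℤ) - Dir.e2.y = 1 := by simp [Dir.y]
      have e3 : (0 : ℤ) - Dir.e2.z = 0 := by simp [Dir.z]
      rw [e, e2, e3]
      exact key
    · have key := info_stem T k (x := u - w) (v := v - 1) h1 h2 (by omega) (by omega)
      rw [← hJe] at key
      have hrel : Rel T (Tag.s k (v - 1 - 1).toNat) t := by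
        have e : (v - 1).toNat = (v - 1 - 1).toNat + 1 := by omega
        rw [ht, e]
        exact Rel.stem k _ (by omega)
      rcases eq_or_lt_of_le (show w ≤ v - 2 by omega) with hw | hw
      · have hd' : d = Dir.f := by rw [hd, if_pos (by omega)]
        subst hd'
        have hm : min (v - 1 - 2) J = w - 1 := by omega
        rw [hm] at key
        have e : u - Dir.f.x = u - w + (w - 1) := by simp only [Dir.x]; omega
        have e2 : v - Dir.f.y = v - 1 := by simp [Dir.y]
        have e3 : w - Dir.f.z = w - 1 := by simp [Dir.z]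
        rw [e, e2, e3, key]
        exact ⟨_, _, rfl, hrel⟩
      · have hd' : d = Dir.e2 := by rw [hd, if_neg (by omega)]
        subst hd'
        have hm : min (v - 1 - 2) J = w := by omega
        rw [hm] at key
        have e : u - Dir.e2.x = u - w + w := by simp only [Dir.x]; omega
        have e2 : v - Dir.e2.y = v - 1 := by simp [Dir.y]
        have e3 : w - Dir.e2.z = w := by simp [Dir.z]
        rw [e, e2, e3, key]
        exact ⟨_, _, rfl, hrel⟩

end ES
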