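import Pool.Agent.H75.ES.InfoL

/-!
Job ES-B4: parents in the copies of `T_k` in `T_{k+1}`.

`info_sub_some`: `u = Y κ + v'`, `w = Z j + w'`, `info T k v v' w' = some (t, d.swap)`. `H.parent` for
`(v, v', w')`:
* root: `v = m k`, `v' = 1`, `w' = 0`: `H.root` gives `t = t k 0`, `d.swap = e1`, `d = e2`. The parent is
  `(u, m k - 1, w)` with `x = u - w = Y κ + 1 - Z j` in `[m (k+1), m (k+1) + B k)`, and `JJ (Y k) (Z k) x = Z j`
  by `JJ_eq` (`T.coprime`; `x + Z j = Y κ + 1`), `min (m k - 3) (Z j) = Z j` since `Z j ≤ m k - Z k ≤ m k - 4`: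
  `info_stem` gives the stem vertex `s k (m k - 2)`, `Rel.root`.
* otherwise `info T k (v - d.swap.x) (v' - d.swap.y) (w' - d.swap.z) = some (p, d')` with `Rel T p t`
  (`Dir.swap_x`, `Dir.swap_y`, `Dir.swap_z`); by `H.supp` the new coordinates are in the cell
  (`1 ≤ v' - d.x < Y k`, `0 ≤ w' - d.z < Z k`, `m k ≤ v - d.y`), so `info_cell` with the same `κ, j` gives
  `info T (k+1) (u - d.x) (v - d.y) (w - d.z) = some (p, d'.swap)`.
-/

namespace ES

variable {T : Tower} {k : ℕ}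

theorem parent_sub (H : Str T k) {u v w : ℤ} {t : Tag} {d : Dir} (hv : (T.m k : ℤ) ≤ v)
    (h : info T (k + 1) u v w = some (t, d)) :
    ∃ p d', info T (k + 1) (u - d.x) (v - d.y) (w - d.z) = some (p, d') ∧ Rel T p t := by
  obtain ⟨κ, j, v', w', hu, hw, a1, a2, a3, a4, a5, a6, a7, a8, hi⟩ := info_sub_some T k hv h
  have h12 := T.twelve_le_m k
  have hY := T.three_le_Y k
  have hZ := T.four_le_Z k
  have hm : (T.m k : ℤ) = T.Y k * T.Z k := by rw [T.m_eq]; push_cast; ring
  rcases H.parent _ _ _ _ _ hi with ⟨b1, b2, b3⟩ | ⟨p, d', hp, hr⟩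
  · -- the root of a copy
    subst b2 b3
    rw [b1, H.root] at hi
    simp only [Option.some.injEq, Prod.mk.injEq] at hi
    obtain ⟨ht, hd⟩ := hi
    have hd2 : d = Dir.e2 := by cases d <;> simp [Dir.swap] at hd ⊢
    subst hd2
    subst ht
    have hx : (T.m (k + 1) : ℤ) ≤ u - w := by rw [hu, hw]; linarith
    have hx' : u - w < T.m (k + 1) + T.B k := by rw [hu, hw]; linarith
    have hJ : JJ (T.Y k) (T.Z k) (u - w) = T.Z k * j := by
      apply JJ_eq (by omega) (T.coprime k) _ _ a5 a6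
      rw [hu, hw]
      have : ((T.Y k : ℤ) * κ + 1 - (T.Z k * j + 0) + T.Z k * j) = 1 + T.Y k * κ := by ring
      rw [this, Int.add_mul_emod_self_left]
    have hZj : (T.Z k : ℤ) * j ≤ T.m k - 4 := by
      have h1 : (T.Z k : ℤ) * j ≤ T.Z k * (T.Y k - 1) := by
        apply mul_le_mul_of_nonneg_left _ (by omega); omega
      have h2 : (T.Z k : ℤ) * (T.Y k - 1) = T.m k - T.Z k := by rw [hm]; ring
      omega
    have hmin : min ((T.m k : ℤ) - 1 - 2) (JJ (T.Y k) (T.Z k) (u - w)) = T.Z k * j := by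
      rw [hJ]; apply min_eq_right; omega
    have hs := info_stem T k (x := u - w) (v := (T.m k : ℤ) - 1) hx hx' (by omega) (by omega)
    rw [hmin] at hs
    have e4 : ((T.m k : ℤ) - 1 - 1).toNat = T.m k - 2 := by omega
    rw [e4] at hs
    have key : info T (k + 1) (u - Dir.e2.x) (v - Dir.e2.y) (w - Dir.e2.z) =
        info T (k + 1) (u - w + T.Z k * j) ((T.m k : ℤ) - 1) (T.Z k * j) := by
      have e1 : u - Dir.e2.x = u - w + T.Z k * j := by
        show u - 0 = _
        rw [hw]; ring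
      have e2 : v - Dir.e2.y = (T.m k : ℤ) - 1 := by
        show v - 1 = _
        rw [b1]
      have e3 : w - Dir.e2.z = T.Z k * j := by
        show w - 0 = _
        rw [hw]; ring
      rw [e1, e2, e3]
    exact ⟨Tag.s k (T.m k - 2), _, key.trans hs, Rel.root k⟩
  · -- inside a copy
    obtain ⟨c1, c2, c3, c4, c5, c6⟩ := H.supp _ _ _ _ hp
    rw [Dir.swap_x] at hp c1 c2
    rw [Dir.swap_y] at hp c3 c4
    rw [Dir.swap_z] at hp c5 c6
    refine ⟨p, d'.swap, ?_, hr⟩
    have e1 : u - d.x = T.Y k * κ + (v' - d.x) := by rw [hu]; ring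
    have e3 : w - d.z = T.Z k * j + (w' - d.z) := by rw [hw]; ring
    rw [e1, e3, info_cell T k (by omega) (by omega) (by omega) (by omega) (by omega),
      if_pos ⟨a5, a6, a7, a8⟩, hp]
    rfl

end ES
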