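import Pool.Agent.H75.ES.InfoL

/-!
Job ES-B2: support, root and the empty vertex `(m, 2, 1)` of `T_{k+1}`.

`supp_succ`: `v ≤ 0`: `info_v0`. `v = 1`: `info_v1`. `2 ≤ v < m k`: `info_street_some`
(`0 ≤ JJ`, `JJ + Z k ≤ Y k * Z k = m k`, `JJ_nonneg`, `JJ_le`), so `0 ≤ w ≤ m k - Z k` and `u = x + w`.
`v ≥ m k`: `info_sub_some` and `H.supp` for the point `(v, v', w')` of `T_k`: `m k ≤ v < X k = Y (k+1)`,
`1 ≤ v' < Y k`, `0 ≤ w'`, `w' + 1 < Z k`; with `0 ≤ Z k * j ≤ m k - Z k` all bounds follow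
(`T.X_succ`, `T.Y_succ`, `T.Z_succ : Z (k+1) = (Y k + 1) * Z k`, `T.m_eq`, `T.m_lt_X`).
`root_succ`: `info_trunk` with `i = 0`. `r21_succ`: `info_street`; the condition
`m (k+1) ≤ m (k+1) - 1` fails.
-/

namespace ES

variable {T : Tower} {k : ℕ}

theorem supp_succ (H : Str T k) {u v w : ℤ} {r : Tag × Dir} (h : info T (k + 1) u v w = some r) :
    (T.m (k + 1) : ℤ) ≤ u ∧ u < T.X (k + 1) ∧ 1 ≤ v ∧ v < T.Y (k + 1) ∧ 0 ≤ w ∧
      w + 1 < T.Z (k + 1) := by
  have h12 := T.twelve_le_m k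
  have hY := T.three_le_Y k
  have hZ := T.four_le_Z k
  have hZ1 := T.four_le_Z (k + 1)
  have hX27 := T.X_ge k
  have hYs : (T.Y (k + 1) : ℤ) = T.X k := by exact_mod_cast T.Y_succ k
  have hXs : (T.X (k + 1) : ℤ) = T.m (k + 1) + T.B k + 2 * T.m k := by exact_mod_cast T.X_succ k
  have hZs : (T.Z (k + 1) : ℤ) = T.m k + T.Z k := by
    have e : T.Z (k + 1) = T.m k + T.Z k := by rw [T.Z_succ k, T.m_eq k]; ring
    exact_mod_cast e
  have hme : (T.m k : ℤ) = T.Y k * T.Z k := by exact_mod_cast T.m_eq k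
  have hmX : (T.m k : ℤ) < T.X k := by exact_mod_cast T.m_lt_X k
  rcases lt_or_ge v 1 with hv1 | hv1
  · rw [info_v0 T k (by omega)] at h
    simp at h
  rcases eq_or_lt_of_le hv1 with hv1' | hv2
  · subst hv1'
    obtain ⟨i, hi, hu, hw, -⟩ := info_v1 T k h
    refine ⟨by omega, by omega, le_refl _, by omega, by omega, by omega⟩
  obtain ⟨t, d⟩ := r
  rcases lt_or_ge v (T.m k : ℤ) with hvm | hvm
  · obtain ⟨h1, h2, h3, -, -⟩ := info_street_some T k (by omega) hvm h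
    have hJ0 : 0 ≤ JJ (T.Y k) (T.Z k) (u - w) := JJ_nonneg (by omega) (u - w)
    have hJ1 : JJ (T.Y k) (T.Z k) (u - w) + T.Z k ≤ T.Y k * T.Z k := JJ_le (by omega) (u - w)
    rw [← hme] at hJ1
    obtain ⟨J, hJe⟩ : ∃ J, J = JJ (T.Y k) (T.Z k) (u - w) := ⟨_, rfl⟩
    rw [← hJe] at h3 hJ0 hJ1
    refine ⟨by omega, by omega, by omega, by omega, by omega, by omega⟩
  · obtain ⟨κ, j, v', w', hu, hw, a1, a2, a3, a4, b1, b2, c1, c2, hi⟩ := info_sub_some T k hvm h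
    obtain ⟨s1, s2, s3, s4, s5, s6⟩ := H.supp _ _ _ _ hi
    have hj0 : 0 ≤ (T.Z k : ℤ) * j := by positivity
    have hj1 : (T.Z k : ℤ) * j ≤ T.m k - T.Z k := by
      have e : (T.Z k : ℤ) * j ≤ T.Z k * (T.Y k - 1) :=
        mul_le_mul_of_nonneg_left (by omega) (by omega)
      have e2 : (T.Z k : ℤ) * (T.Y k - 1) = T.Y k * T.Z k - T.Z k := by ring
      rw [hme]
      linarith
    have hYm : (T.Y k : ℤ) ≤ T.m k := by
      rw [hme]
      have : (T.Y k : ℤ) * 1 ≤ T.Y k * T.Z k := mul_le_mul_of_nonneg_left (by omega) (by omega)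
      linarith
    refine ⟨by omega, by omega, by omega, by omega, by omega, by omega⟩

theorem root_succ : info T (k + 1) (T.m (k + 1)) 1 0 = some (Tag.t (k + 1) 0, Dir.e1) := by
  have h := info_trunk T k (i := 0) (T.B_pos k)
  simpa using h

theorem r21_succ : info T (k + 1) (T.m (k + 1)) 2 1 = none := by
  have h12 := T.twelve_le_m k
  rw [info_street T k (by omega), if_neg (by omega), if_neg (by omega)]

end ES
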