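import Pool.Agent.H75.ES.StrZ
import Pool.Agent.H75.ES.StrS
import Pool.Agent.H75.ES.StrP
import Pool.Agent.H75.ES.StrQ
import Pool.Agent.H75.ES.StrN
import Pool.Agent.H75.ES.StrO
import Pool.Agent.H75.ES.StrC
import Pool.Agent.H75.ES.StrE
import Pool.Agent.H75.ES.StrD

/-! Assembly of the induction (helper75). -/

namespace ES

variable {T : Tower} {k : ℕ}

theorem Str.succ (H : Str T k) : Str T (k + 1) where
  supp := fun _ _ _ _ h => supp_succ H h
  root := root_succ
  r21 := r21_succ
  parent := fun u v w t d h => by
    rcases lt_or_ge v (T.m k : ℤ) with hv | hv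
    · exact parent_street hv h
    · exact Or.inr (parent_sub H hv h)
  nbr := fun u v w t d δ t' d' h h' => by
    rcases lt_or_ge v (T.m k : ℤ) with hv | hv
    · rcases lt_or_ge (v + δ.y) (T.m k : ℤ) with hv' | hv'
      · exact nbr_street δ hv' h h'
      · exact nbr_cross H δ hv hv' h h'
    · exact nbr_sub H δ hv h h'
  child := fun u v w n hn => by
    cases h : info T (k + 1) u v w with
    | none =>
      refine child_none root_succ ?_ n hn h
      intro u v w t d h
      rcases lt_or_ge v (T.m k : ℤ) with hv | hv
      · exact parent_street hv h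
      · exact Or.inr (parent_sub H hv h)
    | some r =>
      obtain ⟨t, d⟩ := r
      rcases lt_or_ge v (T.m k : ℤ) with hv | hv
      · exact child_street H n hv h
      · exact child_sub H n hv h

theorem Str.all (T : Tower) : ∀ k, Str T k
  | 0 => Str.zero T
  | k + 1 => (Str.all T k).succ

end ES
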