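import Pool.Agent.H75.ES.LocA
import Pool.Agent.H75.ES.StrAll

/-!
Job ES-D1b: parents in the infinite structure.

Let `g' = g - ι T (vec d)`, in `GS` by `GS_add` (with `-vec d`), `g' + ι T (vec d) = g`. For all large `k`:
`Inf T g = II T k g`, `Inf T g' = II T k g'` (`eventually_Inf_eq`, `GS_ev`), the coordinates of `g` are
those of `g'` plus `twd k d` (`shift_coord` for `g'`), and `m k ≤ cu k g''` for
`g'' = g - ι T (vec (twd k e1))`..: simpler: `good T k g'` gives
`m k ≤ cv (k+1) g' = cu k g'` (`cu_eq`), and the same for the two points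
`g - ι T (vec e1)`, `g - ι T (vec e2)` gives `m k + 1 ≤ cu k g` (for one of them `twd k _ = e1`), so `g` is
not the root of `T_k`. `II T k g = some (t, d)` means `info T k (cu) (cv) (cw) = some (t, twd k d)`
(`twd_twd`); `(Str.all T k).parent` gives the parent at
`(cu - (twd k d).x, ..) =` coordinates of `g'`, hence `II T k g' = some (p, twd k d')`.
-/

open MeasureTheory Filter Topology

namespace ES

variable (T : Tower) {g : GG T}

theorem loc_parent (hg : g ∈ GS T) {t : Tag} {d : Dir} (h : Inf T g = some (t, d)) :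
    ∃ p d', Inf T (g - ι T (vec d)) = some (p, d') ∧ Rel T p t := by
  have hsub : ∀ δ : Dir, g - ι T (vec δ) ∈ GS T := by
    intro δ
    have := GS_add T hg (-vec δ)
    rwa [map_neg, ← sub_eq_add_neg] at this
  have hback : ∀ δ : Dir, g - ι T (vec δ) + ι T (vec δ) = g := fun δ => sub_add_cancel _ _
  have hs1 := shift_coord T (GS_ev T (hsub d)) d
  have hs2 := shift_coord T (GS_ev T (hsub Dir.e1)) Dir.e1
  have hs3 := shift_coord T (GS_ev T (hsub Dir.e2)) Dir.e2
  rw [hback] at hs1 hs2 hs3
  obtain ⟨k, hk1, hk2, hk3, hk4, hk5, hk6, hk7⟩ := (hs1.and (hs2.and (hs3.and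
    ((GS_ev T (hsub Dir.e1)).and ((GS_ev T (hsub Dir.e2)).and
      ((eventually_Inf_eq T (GS_ev T hg)).and
        (eventually_Inf_eq T (GS_ev T (hsub d))))))))).exists
  have hroot : (T.m k : ℤ) + 1 ≤ cu T k g := by
    by_cases he : Even k
    · have h1 := hk4.1
      rw [← cu_eq] at h1
      have h2 := hk2.1
      have h3 : (twd k Dir.e1).x = 1 := by simp [twd, he, Dir.x]
      rw [h3] at h2
      omega
    · have h1 := hk5.1
      rw [← cu_eq] at h1
      have h2 := hk3.1
      have h3 : (twd k Dir.e2).x = 1 := by simp [twd, he, Dir.x, Dir.swap]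
      rw [h3] at h2
      omega
  rw [hk6, II, Option.map_eq_some_iff] at h
  obtain ⟨⟨t', d₀⟩, hr, he⟩ := h
  simp only [Prod.mk.injEq] at he
  obtain ⟨rfl, he⟩ := he
  have hd0 : d₀ = twd k d := by rw [← he, twd_twd]
  subst hd0
  rcases (Str.all T k).parent _ _ _ _ _ hr with h1 | ⟨p, d', h1, h2⟩
  · exfalso
    omega
  · refine ⟨p, twd k d', ?_, h2⟩
    have e1 : cu T k (g - ι T (vec d)) = cu T k g - (twd k d).x := by omega
    have e2 : cv T k (g - ι T (vec d)) = cv T k g - (twd k d).y := by omega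
    have e3 : cw T k (g - ι T (vec d)) = cw T k g - (twd k d).z := by omega
    rw [hk7, II, e1, e2, e3, h1]
    rfl

end ES
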