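import Pool.Agent.H75.ES.LocA
import Pool.Agent.H75.ES.StrAll

/-!
Job ES-D1c: neighbours in the infinite structure.

For one large `k` (the intersection of the eventual sets) `Inf T g = II T k g`,
`Inf T (g + ι T (vec δ)) = II T k (g + ι T (vec δ))` (`eventually_Inf_eq`, `GS_add`, `GS_ev`), and
`shift_coord` gives the coordinates of `g + ι T (vec δ)`; then `(Str.all T k).nbr` with the direction
`twd k δ` (`twd k d' = twd k δ ↔ d' = δ` because `twd k` is an involution, `twd_twd`).
-/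

open MeasureTheory Filter Topology

namespace ES

variable (T : Tower) {g : GG T}

theorem loc_nbr (hg : g ∈ GS T) (δ : Dir) {t t' : Tag} {d d' : Dir}
    (h : Inf T g = some (t, d)) (h' : Inf T (g + ι T (vec δ)) = some (t', d')) :
    d' = δ ∨ t' = t := by
  have hev := ((eventually_Inf_eq T (GS_ev T hg)).and
    ((eventually_Inf_eq T (GS_ev T (GS_add T hg (vec δ)))).and
      (shift_coord T (GS_ev T hg) δ))).exists
  obtain ⟨k, h1, h2, h3, h4, h5⟩ := hev
  rw [h1, II, Option.map_eq_some_iff] at h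
  rw [h2, II, Option.map_eq_some_iff, h3, h4, h5] at h'
  obtain ⟨⟨t1, d1⟩, e1, e2⟩ := h
  obtain ⟨⟨t2, d2⟩, e3, e4⟩ := h'
  simp only [Prod.mk.injEq] at e2 e4
  obtain ⟨e5, e6⟩ := e2
  obtain ⟨e7, e8⟩ := e4
  rcases (Str.all T k).nbr _ _ _ t1 d1 (twd k δ) t2 d2 e1 e3 with h6 | h6
  · left
    rw [← e8, h6, twd_twd]
  · right
    rw [← e5, ← e7, h6]

end ES
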