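import Pool.Agent.H75.ES.Prof

/-!
Job ES-C4b: the tags which occur are valid.

`info_valid`: induction on `k` (generalizing everything). `k = 0`: unfold `info`, the tag is
`t 0 0`. `k + 1`: if `v < T.m k` unfold `info_street` and split: trunk: `(u - m).toNat < B`;
stem: `v ≥ 2`, `v < m`, so `(v - 1).toNat` is in `[1, m - 2]`. If `T.m k ≤ v` use `info_sub_some`
and the induction hypothesis (the tag is the same). `pr_nonneg`: `prof_nonneg`.
-/

namespace ES

variable {T : Tower}

theorem info_valid {k : ℕ} {u v w : ℤ} {t : Tag} {d : Dir} (h : info T k u v w = some (t, d)) :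
    Valid T t := by
  induction k generalizing u v w t d with
  | zero =>
    rw [info] at h
    split_ifs at h with h1
    simp only [Option.some.injEq, Prod.mk.injEq] at h
    rw [← h.1]
    rfl
  | succ k ih =>
    rcases lt_or_ge v (T.m k : ℤ) with hv | hv
    · rw [info_street T k hv] at h
      split_ifs at h with h1 h2
      · simp only [Option.some.injEq, Prod.mk.injEq] at h
        rw [← h.1]
        change (u - T.m (k + 1)).toNat < T.B k
        omega
      · simp only [Option.some.injEq, Prod.mk.injEq] at h
        rw [← h.1]
        change 1 ≤ (v - 1).toNat ∧ (v - 1).toNat + 2 ≤ T.m k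
        have h3 := h2.1
        omega
      · simp only [Option.some.injEq, Prod.mk.injEq] at h
        rw [← h.1]
        change 1 ≤ (v - 1).toNat ∧ (v - 1).toNat + 2 ≤ T.m k
        have h3 := h2.1
        omega
    · obtain ⟨κ, j, v', w', -, -, -, -, -, -, -, -, -, -, h1⟩ := info_sub_some T k hv h
      exact ih h1

theorem pr_nonneg (k : ℕ) (u v w : ℤ) (n : ℕ) : 0 ≤ pr T (info T k u v w) n := by
  cases h : info T k u v w with
  | none => exact le_rfl
  | some r =>
    obtain ⟨t, d⟩ := r
    exact prof_nonneg (info_valid h) n

end ES
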