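import Pool.Agent.H75.ES.Field
import Pool.Agent.H75.ES.LocB
import Pool.Agent.H75.ES.LocC
import Pool.Agent.H75.ES.ProfB

/-!
Job ES-E3: the parent has strictly more than all other neighbours.

Write `P x = g + ι T (pt hd x)`, in `GS T` by `GS_add`; `P (x + uv δ) = P x + ι T (vec δ)` and
`P (x - uv δ) = P x - ι T (vec δ)` (`pt_add_uv`, `pt_sub_uv`, `map_add`, `map_sub`). `con .. x ≠ 0` gives
`on e x`, `Inf T (P x) = some (t, δ₀)`, `0 < prof T t n`, and `par x = x - uv δ₀`, in `nbrs x` by definition of
`nbrs`. `loc_parent`: `Inf T (P (x - uv δ₀)) = some (p, _)` with `Rel T p t`, so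
`prof T t n < prof T p n` (`rel_lt`), and `con (par x) = ofReal (prof T p n)` (`on_sub_uv`). For the other
`z ∈ nbrs x` show `con z ≤ ofReal (prof T t n)` or `con z < con (par x)`:
 * `z = x`: clear. `z = x ± Pi.single i 1` with `3 ≤ i`: `on e z` fails (the parity of coordinate `i`
   changes), `con z = 0`;
 * `z = x + uv δ` (the cases `i = 0, 1, 2` are `δ = e1, e2, f`): if `Inf T (P z) = none`, `con z = 0`. If it is
   `some (t', d')`, `loc_nbr` at `P x` gives `d' = δ` or `t' = t`. If `t' = t`: same content as `x`. If `d' = δ`: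
   `loc_parent` for `z` says that its parent is `x`: `Rel T t t'`, so `prof T t' n < prof T t n` or
   `prof T t' n = 0` (`rel_lt`, `ENNReal.ofReal_lt_ofReal_iff`);
 * `z = x - uv δ`, `δ ≠ δ₀`: if `Inf T (P z) = some (t', d')`, `loc_nbr` at `P z` (direction `δ`, it reaches
   `P x`) gives `δ₀ = δ` or `t = t'`; so `t = t'` and `z` has the same content as `x`.
-/

open MeasureTheory Filter Topology MP_37d2f2_pr

namespace ES

variable (T : Tower) {d : ℕ} (hd : 3 ≤ d)

theorem con_max {g : GG T} (hg : g ∈ GS T) (e : Fin d → ZMod 2) (n : ℕ) (x : Fin d → ℤ)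
    (hx : con T hd g e n x ≠ 0) : par T hd g e x ∈ nbrs x ∧
      ∀ z ∈ nbrs x, z ≠ par T hd g e x → con T hd g e n z < con T hd g e n (par T hd g e x) := by
  have hon : on e x := by
    by_contra h
    exact hx (if_neg h)
  have hP : ∀ z, g + ι T (pt hd z) ∈ GS T := fun z => GS_add T hg _
  have hPa : ∀ z δ, g + ι T (pt hd (z + uv hd δ)) = g + ι T (pt hd z) + ι T (vec δ) := by
    intro z δ
    rw [pt_add_uv, map_add, add_assoc]
  have hPs : ∀ z δ, g + ι T (pt hd (z - uv hd δ)) = g + ι T (pt hd z) - ι T (vec δ) := by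
    intro z δ
    rw [pt_sub_uv, map_sub, add_sub_assoc]
  have hc : ∀ z, on e z →
      con T hd g e n z = ENNReal.ofReal (pr T (Inf T (g + ι T (pt hd z))) n) :=
    fun z hz => if_pos hz
  have hcx := hc x hon
  rcases hI : Inf T (g + ι T (pt hd x)) with _ | ⟨t, δ₀⟩
  · exfalso
    apply hx
    rw [hcx, hI]
    exact ENNReal.ofReal_zero
  have hpos : 0 < prof T t n := by
    by_contra h
    apply hx
    rw [hcx, hI]
    exact ENNReal.ofReal_of_nonpos (not_lt.1 h)
  have hpar : par T hd g e x = x - uv hd δ₀ := by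
    unfold par
    rw [if_pos hon, hI]
  rw [hpar]
  obtain ⟨p, d', hp, hrel⟩ := loc_parent T (hP x) hI
  rw [← hPs] at hp
  have hlt : prof T t n < prof T p n := rel_lt hrel hpos
  have hcp : con T hd g e n (x - uv hd δ₀) = ENNReal.ofReal (prof T p n) := by
    rw [hc _ ((on_sub_uv hd δ₀).2 hon), hp]
    rfl
  have hcx' : con T hd g e n x = ENNReal.ofReal (prof T t n) := by
    rw [hcx, hI]
    rfl
  have hlt' : ENNReal.ofReal (prof T t n) < ENNReal.ofReal (prof T p n) :=
    (ENNReal.ofReal_lt_ofReal_iff (hpos.trans hlt)).2 hlt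
  have hp0 : (0 : ENNReal) < ENNReal.ofReal (prof T p n) :=
    ENNReal.ofReal_pos.2 (hpos.trans hlt)
  have hplus : ∀ δ, con T hd g e n (x + uv hd δ) < ENNReal.ofReal (prof T p n) := by
    intro δ
    rw [hc _ ((on_add_uv hd δ).2 hon)]
    rcases hI' : Inf T (g + ι T (pt hd (x + uv hd δ))) with _ | ⟨t', e'⟩
    · refine lt_of_eq_of_lt ?_ hp0
      exact ENNReal.ofReal_zero
    · rcases loc_nbr T (hP x) δ hI (by rw [← hPa]; exact hI') with h | h
      · subst h
        obtain ⟨p', e'', hp', hrel'⟩ := loc_parent T (hP _) hI'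
        rw [← hPs, add_sub_cancel_right, hI] at hp'
        simp only [Option.some.injEq, Prod.mk.injEq] at hp'
        obtain ⟨rfl, -⟩ := hp'
        rcases le_or_gt (prof T t' n) 0 with h0 | h0
        · refine lt_of_eq_of_lt ?_ hp0
          exact ENNReal.ofReal_of_nonpos h0
        · refine lt_trans ?_ hlt'
          exact (ENNReal.ofReal_lt_ofReal_iff hpos).2 (rel_lt hrel' h0)
      · subst h
        exact hlt'
  have hminus : ∀ δ, δ ≠ δ₀ → con T hd g e n (x - uv hd δ) < ENNReal.ofReal (prof T p n) := by
    intro δ hδ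
    rw [hc _ ((on_sub_uv hd δ).2 hon)]
    rcases hI' : Inf T (g + ι T (pt hd (x - uv hd δ))) with _ | ⟨t', e'⟩
    · refine lt_of_eq_of_lt ?_ hp0
      exact ENNReal.ofReal_zero
    · rcases loc_nbr T (hP (x - uv hd δ)) δ hI' (by rw [← hPa, sub_add_cancel]; exact hI)
        with h | h
      · exact absurd h.symm hδ
      · subst h
        exact hlt'
  have hfar : ∀ (i : Fin d) (z : Fin d → ℤ), 3 ≤ i.val → ((z i : ZMod 2) = (x i : ZMod 2) + 1) →
      con T hd g e n z < ENNReal.ofReal (prof T p n) := by
    intro i z hi hz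
    have h : ¬ on e z := by
      intro h
      have h1 := h i hi
      have h2 := hon i hi
      rw [hz, add_right_comm, h2, zero_add] at h1
      exact one_ne_zero h1
    refine lt_of_eq_of_lt ?_ hp0
    exact if_neg h
  rw [hcp]
  constructor
  · unfold nbrs
    rw [Finset.mem_insert, Finset.mem_biUnion]
    right
    cases δ₀ with
    | e1 =>
      exact ⟨⟨0, by omega⟩, Finset.mem_univ _, by rw [Finset.mem_insert, Finset.mem_singleton]; right; rfl⟩
    | e2 =>
      exact ⟨⟨1, by omega⟩, Finset.mem_univ _, by rw [Finset.mem_insert, Finset.mem_singleton]; right; rfl⟩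
    | f =>
      exact ⟨⟨2, by omega⟩, Finset.mem_univ _, by rw [Finset.mem_insert, Finset.mem_singleton]; right; rfl⟩
  · intro z hz hne
    unfold nbrs at hz
    rw [Finset.mem_insert, Finset.mem_biUnion] at hz
    rcases hz with rfl | ⟨i, -, hz⟩
    · rw [hcx']
      exact hlt'
    · rw [Finset.mem_insert, Finset.mem_singleton] at hz
      have hcase : i = ⟨0, by omega⟩ ∨ i = ⟨1, by omega⟩ ∨ i = ⟨2, by omega⟩ ∨ 3 ≤ i.val := by
        rcases Nat.lt_or_ge i.val 3 with h | h
        · have : i.val = 0 ∨ i.val = 1 ∨ i.val = 2 := by omega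
          rcases this with h' | h' | h'
          · left; exact Fin.ext h'
          · right; left; exact Fin.ext h'
          · right; right; left; exact Fin.ext h'
        · right; right; right; exact h
      rcases hcase with h | h | h | h
      · subst h
        rcases hz with hz | hz
        · rw [hz]; exact hplus Dir.e1
        · rw [hz]
          refine hminus Dir.e1 ?_
          rintro rfl
          exact hne hz
      · subst h
        rcases hz with hz | hz
        · rw [hz]; exact hplus Dir.e2
        · rw [hz]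
          refine hminus Dir.e2 ?_
          rintro rfl
          exact hne hz
      · subst h
        rcases hz with hz | hz
        · rw [hz]; exact hplus Dir.f
        · rw [hz]
          refine hminus Dir.f ?_
          rintro rfl
          exact hne hz
      · refine hfar i z h ?_
        rcases hz with hz | hz
        · rw [hz, Pi.add_apply, Pi.single_eq_same]
          push_cast
          rfl
        · rw [hz, Pi.sub_apply, Pi.single_eq_same]
          push_cast
          rw [sub_eq_add_neg]
          congr 1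

end ES
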