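import Pool.Agent.H75.ES.LocA
import Pool.Agent.H75.ES.StrAll

/-!
Job ES-D1d: children in the infinite structure.

For one large `k`: `Inf = II T k` at `g` and at the three points `g + ι T (vec δ)`, coordinates by
`shift_coord`. `(Str.all T k).child (cu T k g) (cv T k g) (cw T k g) n` with the side condition
`cu T k g ≠ m k - 1`: `good T k g` gives `m k ≤ cv (k+1) g = cu k g` (`cu_eq`). If `k` is even `twd k = id`; if `k`
is odd `twd k` exchanges `e1` and `e2`, so the first two summands are exchanged: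
`ct T (o.map fun r => (r.1, twd k r.2)) δ n = ct T o (twd k δ) n` and
`pr T (o.map fun r => (r.1, twd k r.2)) n = pr T o n` (cases on `o`). You may choose `k` even
(`Even k` is frequent) and avoid the odd case altogether.
-/

open MeasureTheory Filter Topology

namespace ES

variable (T : Tower) {g : GG T}

theorem loc_child (hg : g ∈ GS T) (n : ℕ) :
    ct T (Inf T (g + ι T (vec Dir.e1))) Dir.e1 n + ct T (Inf T (g + ι T (vec Dir.e2))) Dir.e2 n +
      ct T (Inf T (g + ι T (vec Dir.f))) Dir.f n = pr T (Inf T g) (n + 1) := by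
  have h0 := GS_ev T hg
  have hfr : ∃ᶠ k : ℕ in atTop, Even k := Nat.frequently_even
  have hev : ∀ᶠ k in atTop, (good T k g ∧ Inf T g = II T k g) ∧
      (Inf T (g + ι T (vec Dir.e1)) = II T k (g + ι T (vec Dir.e1)) ∧
       Inf T (g + ι T (vec Dir.e2)) = II T k (g + ι T (vec Dir.e2)) ∧
       Inf T (g + ι T (vec Dir.f)) = II T k (g + ι T (vec Dir.f))) ∧
      ((cu T k (g + ι T (vec Dir.e1)) = cu T k g + (twd k Dir.e1).x ∧
        cv T k (g + ι T (vec Dir.e1)) = cv T k g + (twd k Dir.e1).y ∧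
        cw T k (g + ι T (vec Dir.e1)) = cw T k g + (twd k Dir.e1).z) ∧
       (cu T k (g + ι T (vec Dir.e2)) = cu T k g + (twd k Dir.e2).x ∧
        cv T k (g + ι T (vec Dir.e2)) = cv T k g + (twd k Dir.e2).y ∧
        cw T k (g + ι T (vec Dir.e2)) = cw T k g + (twd k Dir.e2).z) ∧
       (cu T k (g + ι T (vec Dir.f)) = cu T k g + (twd k Dir.f).x ∧
        cv T k (g + ι T (vec Dir.f)) = cv T k g + (twd k Dir.f).y ∧
        cw T k (g + ι T (vec Dir.f)) = cw T k g + (twd k Dir.f).z)) := by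
    filter_upwards [h0, eventually_Inf_eq T h0,
      eventually_Inf_eq T (GS_ev T (GS_add T hg (vec Dir.e1))),
      eventually_Inf_eq T (GS_ev T (GS_add T hg (vec Dir.e2))),
      eventually_Inf_eq T (GS_ev T (GS_add T hg (vec Dir.f))),
      shift_coord T h0 Dir.e1, shift_coord T h0 Dir.e2, shift_coord T h0 Dir.f] with
      k a1 a2 a3 a4 a5 a6 a7 a8
    exact ⟨⟨a1, a2⟩, ⟨a3, a4, a5⟩, a6, a7, a8⟩
  obtain ⟨k, hk, ⟨hgd, i0⟩, ⟨i1, i2, i3⟩, ⟨s11, s12, s13⟩, ⟨s21, s22, s23⟩, s31, s32, s33⟩ :=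
    (hfr.and_eventually hev).exists
  have htw : ∀ d : Dir, twd k d = d := fun d => by rw [twd, if_pos hk]
  have hmap : ∀ o : Option (Tag × Dir), o.map (fun r => (r.1, twd k r.2)) = o := by
    intro o
    cases o with
    | none => rfl
    | some r => simp [htw]
  have hII : ∀ g' : GG T, II T k g' = info T k (cu T k g') (cv T k g') (cw T k g') := fun g' => by
    rw [II, hmap]
  rw [i0, i1, i2, i3, hII, hII, hII, hII, s11, s12, s13, s21, s22, s23, s31, s32, s33]
  simp only [htw, Dir.x, Dir.y, Dir.z, add_zero]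
  refine (Str.all T k).child (cu T k g) (cv T k g) (cw T k g) n ?_
  rintro ⟨h1, -, -⟩
  have h2 := hgd.1
  rw [← cu_eq T k g] at h2
  omega

end ES
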