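import Pool.Agent.H75.ES.Field
import Pool.Agent.H75.ES.LocD
import Pool.Agent.H75.ES.ProfB

/-!
Job ES-E4: the step of the configuration of a good orbit.

`con_step`: write `P x = g + ι T (pt hd x)` (in `GS T` by `GS_add`). In the sum over `y ∈ nbrs x` a term is
`0` unless `par y = x` and `con n y ≠ 0`; then `on e y`, `Inf T (P y) = some (t, δ)` and `y = x + uv δ`. So
the sum is the sum over the three points `x + uv e1`, `x + uv e2`, `x + uv f` (distinct elements of
`nbrs x`; `Finset.sum_subset` for `{x + uv e1, x + uv e2, x + uv f} ⊆ nbrs x`) of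
`if par y = x then con n y else 0 = if on e x then ofReal (ct T (Inf T (P x + ι T (vec δ))) δ n) else 0`
(`on_add_uv`, `pt_add_uv`; for `y = x + uv δ` and `Inf T (P y) = some (t, d')`:
`par y = x + uv δ - uv d' = x ↔ d' = δ`). Now `loc_child` and `ENNReal.ofReal_add` (all `ct ≥ 0` by
`prof_nonneg`, `info_valid`, as `Inf T (P y) = II T k (P y)` for some `k`, `eventually_Inf_eq`, `GS_ev`).
`con_zero`: `prof_zero` with the same remark on `Valid`.
-/

open MeasureTheory Filter Topology MP_37d2f2_pr

namespace ES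

variable (T : Tower) {d : ℕ} (hd : 3 ≤ d)

theorem fb_valid {g : GG T} (hg : g ∈ GS T) {t : Tag} {δ : Dir} (h : Inf T g = some (t, δ)) :
    Valid T t := by
  obtain ⟨k, hk⟩ := (eventually_Inf_eq T (GS_ev T hg)).exists
  rw [hk, II, Option.map_eq_some_iff] at h
  obtain ⟨⟨t', d'⟩, h1, h2⟩ := h
  have h3 : t' = t := congrArg Prod.fst h2
  subst h3
  exact info_valid h1

theorem fb_ct_nonneg {g : GG T} (hg : g ∈ GS T) (δ : Dir) (n : ℕ) :
    0 ≤ ct T (Inf T g) δ n := by
  rcases h : Inf T g with _ | ⟨t, d'⟩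
  · exact le_refl _
  · show 0 ≤ if d' = δ then prof T t n else 0
    split_ifs
    · exact prof_nonneg (fb_valid T hg h) n
    · exact le_refl _

theorem fb_vec_inj {δ δ' : Dir} (h : vec δ = vec δ') : δ = δ' := by
  cases δ <;> cases δ' <;> first | rfl | (exfalso; revert h; simp [vec, Dir.x, Dir.y, Dir.z])

theorem fb_uv_inj {δ δ' : Dir} (h : uv hd δ = uv hd δ') : δ = δ' := by
  apply fb_vec_inj
  rw [← pt_uv hd δ, ← pt_uv hd δ', h]

theorem fb_mem (x : Fin d → ℤ) (δ : Dir) : x + uv hd δ ∈ nbrs x := by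
  unfold nbrs
  refine Finset.mem_insert_of_mem (Finset.mem_biUnion.mpr ?_)
  cases δ
  · exact ⟨⟨0, by omega⟩, Finset.mem_univ _, Finset.mem_insert_self _ _⟩
  · exact ⟨⟨1, by omega⟩, Finset.mem_univ _, Finset.mem_insert_self _ _⟩
  · exact ⟨⟨2, by omega⟩, Finset.mem_univ _, Finset.mem_insert_self _ _⟩

theorem fb_term (g : GG T) (e : Fin d → ZMod 2) (n : ℕ) (x : Fin d → ℤ)
    (δ : Dir) :
    (if par T hd g e (x + uv hd δ) = x then con T hd g e n (x + uv hd δ) else 0) =
      if on e x then ENNReal.ofReal (ct T (Inf T (g + ι T (pt hd x) + ι T (vec δ))) δ n) else 0 := by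
  have hp : g + ι T (pt hd (x + uv hd δ)) = g + ι T (pt hd x) + ι T (vec δ) := by
    rw [pt_add_uv, map_add, add_assoc]
  by_cases hx : on e x
  · have hx' : on e (x + uv hd δ) := (on_add_uv hd δ).mpr hx
    unfold con par
    rw [if_pos hx, if_pos hx', if_pos hx', hp]
    rcases Inf T (g + ι T (pt hd x) + ι T (vec δ)) with _ | ⟨t, d'⟩
    · simp [pr, ct]
    · show (if x + uv hd δ - uv hd d' = x then ENNReal.ofReal (prof T t n) else 0) =
        ENNReal.ofReal (if d' = δ then prof T t n else 0)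
      by_cases hd' : d' = δ
      · subst hd'
        rw [if_pos rfl, if_pos (add_sub_cancel_right _ _)]
      · rw [if_neg hd', if_neg, ENNReal.ofReal_zero]
        intro h
        apply hd'
        apply fb_uv_inj hd
        have h1 : x + uv hd δ = x + uv hd d' := sub_eq_iff_eq_add.mp h
        exact (add_left_cancel h1).symm
  · have hx' : ¬ on e (x + uv hd δ) := fun h => hx ((on_add_uv hd δ).mp h)
    unfold con
    rw [if_neg hx, if_neg hx', ite_self]

theorem fb_other (g : GG T) (e : Fin d → ZMod 2) (n : ℕ) (x y : Fin d → ℤ)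
    (hy : ∀ δ : Dir, y ≠ x + uv hd δ) :
    (if par T hd g e y = x then con T hd g e n y else 0) = 0 := by
  by_cases hp : par T hd g e y = x
  · rw [if_pos hp]
    unfold par at hp
    unfold con
    by_cases hx : on e y
    · rw [if_pos hx] at hp ⊢
      rcases h : Inf T (g + ι T (pt hd y)) with _ | ⟨t, d'⟩
      · simp [pr]
      · rw [h] at hp
        have hp' : y - uv hd d' = x := hp
        exact absurd (sub_eq_iff_eq_add.mp hp') (hy d')
    · rw [if_neg hx]
  · rw [if_neg hp]

theorem fb_sum (x : Fin d → ℤ) (F : (Fin d → ℤ) → ENNReal)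
    (hF : ∀ y, (∀ δ : Dir, y ≠ x + uv hd δ) → F y = 0) :
    ∑ y ∈ nbrs x, F y = F (x + uv hd Dir.e1) + F (x + uv hd Dir.e2) + F (x + uv hd Dir.f) := by
  have hsub : ({x + uv hd Dir.e1, x + uv hd Dir.e2, x + uv hd Dir.f} : Finset (Fin d → ℤ)) ⊆
      nbrs x := by
    intro y hy
    simp only [Finset.mem_insert, Finset.mem_singleton] at hy
    rcases hy with h | h | h <;> rw [h] <;> exact fb_mem hd x _
  rw [← Finset.sum_subset hsub]
  · rw [Finset.sum_insert, Finset.sum_insert, Finset.sum_singleton, add_assoc]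
    · rw [Finset.mem_singleton]
      intro h
      have := fb_uv_inj hd (add_left_cancel h)
      cases this
    · simp only [Finset.mem_insert, Finset.mem_singleton]
      rintro (h | h)
      · have := fb_uv_inj hd (add_left_cancel h)
        cases this
      · have := fb_uv_inj hd (add_left_cancel h)
        cases this
  · intro y _ hy
    apply hF
    intro δ h
    apply hy
    simp only [Finset.mem_insert, Finset.mem_singleton]
    cases δ
    · exact Or.inl h
    · exact Or.inr (Or.inl h)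
    · exact Or.inr (Or.inr h)

theorem con_step {g : GG T} (hg : g ∈ GS T) (e : Fin d → ZMod 2) (n : ℕ) (x : Fin d → ℤ) :
    con T hd g e (n + 1) x =
      ∑ y ∈ nbrs x, if par T hd g e y = x then con T hd g e n y else 0 := by
  have hP : g + ι T (pt hd x) ∈ GS T := GS_add T hg _
  rw [fb_sum hd x _ (fun y hy => fb_other T hd g e n x y hy), fb_term T hd g e n x,
    fb_term T hd g e n x, fb_term T hd g e n x]
  unfold con
  by_cases hx : on e x
  · rw [if_pos hx, if_pos hx, if_pos hx, if_pos hx, ← loc_child T hP n]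
    have h1 := fb_ct_nonneg T (GS_add T hP (vec Dir.e1)) Dir.e1 n
    have h2 := fb_ct_nonneg T (GS_add T hP (vec Dir.e2)) Dir.e2 n
    have h3 := fb_ct_nonneg T (GS_add T hP (vec Dir.f)) Dir.f n
    rw [ENNReal.ofReal_add (add_nonneg h1 h2) h3, ENNReal.ofReal_add h1 h2]
  · rw [if_neg hx, if_neg hx, if_neg hx, if_neg hx, add_zero, add_zero]

theorem con_zero {g : GG T} (hg : g ∈ GS T) (e : Fin d → ZMod 2) (x : Fin d → ℤ) :
    ∃ N, ∀ n, N ≤ n → con T hd g e n x = 0 := by
  have hP : g + ι T (pt hd x) ∈ GS T := GS_add T hg _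
  unfold con
  by_cases hx : on e x
  · rcases h : Inf T (g + ι T (pt hd x)) with _ | ⟨t, d'⟩
    · refine ⟨0, fun n _ => ?_⟩
      rw [if_pos hx]
      exact ENNReal.ofReal_zero
    · obtain ⟨N, hN⟩ := prof_zero (fb_valid T hP h)
      refine ⟨N, fun n hn => ?_⟩
      rw [if_pos hx]
      show ENNReal.ofReal (prof T t n) = 0
      rw [hN n hn, ENNReal.ofReal_zero]
  · exact ⟨0, fun n _ => if_neg hx⟩

end ES
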