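import Pool.Agent.H75.ES.GrpC

/-! Good points (definitions, helper75). -/

open MeasureTheory Filter Topology

namespace ES

variable (T : Tower)

/-- The cell of level `k` which contains the point carries a copy of `T_k`, and the point is not
in the margin of the cell. -/
def good (k : ℕ) (g : GG T) : Prop :=
  (T.m k : ℤ) ≤ cv T (k + 1) g ∧ cw T (k + 1) g < T.Y k * T.Z k ∧
    (T.m (k + 1) : ℤ) + 2 * T.m k ≤ cu T (k + 1) g ∧
    cu T (k + 1) g + 1 < (T.m (k + 1) : ℤ) + T.B k

/-- the set of points whose whole orbit is eventually good -/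
def GS : Set (GG T) := {g | ∀ x, ∀ᶠ k in atTop, good T k (g + ι T x)}

/-- the bound for the measure of the bad points -/
noncomputable def bad (k : ℕ) : ENNReal :=
  ENNReal.ofReal ((T.m k : ℝ) / T.X k + 1 / (T.Y k + 1) +
    (T.m (k + 1) + 4 * T.m k + 1) / T.X (k + 1))

end ES
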