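import Pool.Agent.H75.ES.Good

/-!
Job ES-C3a: the measure of the bad points.

`{g | ¬ good T k g}` is contained in the union of four sets: `cv (k+1) g < m k`;
`Y k * Z k ≤ cw (k+1) g`; `cu (k+1) g < m (k+1) + 2 m k`; `m (k+1) + B k ≤ cu (k+1) g + 1`.
The measure of each set is computed with `lintegral_lev` for the indicator (level `k + 1`, cell
`X (k+1) × Y (k+1) × Z (k+1)` with `Y (k+1) = X k`, `Z (k+1) = (Y k + 1) * Z k`,
`X (k+1) = m (k+1) + B k + 2 m k`): they are at most `m k / X k`, `1/(Y k + 1)`,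
`(m (k+1) + 2 m k) / X (k+1)`, `(2 m k + 1) / X (k+1)`. (A convenient general lemma: for
`P : ℤ → Prop` the measure of `{g | P (cu T k g)}` is `#{u < X k | P u} / X k`, same for `cv`, `cw`.)
-/

open MeasureTheory Filter Topology

namespace ES

variable (T : Tower)

theorem gA_inv (V N : ℕ) (hV : 0 < V) :
    (V : ENNReal)⁻¹ * (N : ENNReal) = ENNReal.ofReal ((N : ℝ) / V) := by
  rw [ENNReal.ofReal_div_of_pos (by exact_mod_cast hV), ENNReal.ofReal_natCast,
    ENNReal.ofReal_natCast, div_eq_mul_inv, mul_comm]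

theorem gA_set (k : ℕ) (P : ℤ → ℤ → ℤ → Prop) [∀ u v w, Decidable (P u v w)] :
    μG T {g | P (cu T k g) (cv T k g) (cw T k g)} =
      ((T.X k * T.Y k * T.Z k : ℕ) : ENNReal)⁻¹ *
        ∑ u ∈ Finset.range (T.X k), ∑ v ∈ Finset.range (T.Y k), ∑ w ∈ Finset.range (T.Z k),
          if P u v w then 1 else 0 := by
  have hm : MeasurableSet {g : GG T | P (cu T k g) (cv T k g) (cw T k g)} := by
    have := measurable_lev T k (fun u v w => P u v w)
    exact measurableSet_setOfPred.2 this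
  rw [← lintegral_indicator_one hm]
  have := lintegral_lev T k (fun u v w => if P u v w then (1 : ENNReal) else 0)
  rw [← this]
  apply lintegral_congr
  intro g
  simp [Set.indicator_apply]

theorem gA_pos (k : ℕ) : 0 < T.X k ∧ 0 < T.Y k ∧ 0 < T.Z k := by
  have h1 := T.X_ge k
  have h2 := T.three_le_Y k
  have h3 := T.four_le_Z k
  omega

theorem gA_cu (k : ℕ) (P : ℤ → Prop) [DecidablePred P] :
    μG T {g | P (cu T k g)} =
      ENNReal.ofReal ((((Finset.range (T.X k)).filter fun u : ℕ => P u).card : ℝ) / T.X k) := by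
  obtain ⟨h1, h2, h3⟩ := gA_pos T k
  have h := gA_set T k (fun u _ _ => P u)
  have e : (∑ u ∈ Finset.range (T.X k), ∑ v ∈ Finset.range (T.Y k), ∑ w ∈ Finset.range (T.Z k),
      if P u then (1 : ENNReal) else 0) =
      ((T.Y k * T.Z k * ((Finset.range (T.X k)).filter fun u : ℕ => P u).card : ℕ) : ENNReal) := by
    simp only [Finset.sum_const, Finset.card_range, nsmul_eq_mul, ← Finset.mul_sum]
    rw [Finset.sum_boole]
    push_cast
    ring
  rw [h, e, gA_inv _ _ (by positivity)]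
  congr 1
  push_cast
  have h1' : (0 : ℝ) < T.X k := by exact_mod_cast h1
  have h2' : (0 : ℝ) < T.Y k := by exact_mod_cast h2
  have h3' : (0 : ℝ) < T.Z k := by exact_mod_cast h3
  field_simp

theorem gA_cv (k : ℕ) (P : ℤ → Prop) [DecidablePred P] :
    μG T {g | P (cv T k g)} =
      ENNReal.ofReal ((((Finset.range (T.Y k)).filter fun u : ℕ => P u).card : ℝ) / T.Y k) := by
  obtain ⟨h1, h2, h3⟩ := gA_pos T k
  have h := gA_set T k (fun _ v _ => P v)
  have e : (∑ u ∈ Finset.range (T.X k), ∑ v ∈ Finset.range (T.Y k), ∑ w ∈ Finset.range (T.Z k),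
      if P v then (1 : ENNReal) else 0) =
      ((T.X k * T.Z k * ((Finset.range (T.Y k)).filter fun u : ℕ => P u).card : ℕ) : ENNReal) := by
    simp only [Finset.sum_const, Finset.card_range, nsmul_eq_mul, ← Finset.mul_sum]
    rw [Finset.sum_boole]
    push_cast
    ring
  rw [h, e, gA_inv _ _ (by positivity)]
  congr 1
  push_cast
  have h1' : (0 : ℝ) < T.X k := by exact_mod_cast h1
  have h2' : (0 : ℝ) < T.Y k := by exact_mod_cast h2
  have h3' : (0 : ℝ) < T.Z k := by exact_mod_cast h3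
  field_simp

theorem gA_cw (k : ℕ) (P : ℤ → Prop) [DecidablePred P] :
    μG T {g | P (cw T k g)} =
      ENNReal.ofReal ((((Finset.range (T.Z k)).filter fun u : ℕ => P u).card : ℝ) / T.Z k) := by
  obtain ⟨h1, h2, h3⟩ := gA_pos T k
  have h := gA_set T k (fun _ _ w => P w)
  have e : (∑ u ∈ Finset.range (T.X k), ∑ v ∈ Finset.range (T.Y k), ∑ w ∈ Finset.range (T.Z k),
      if P w then (1 : ENNReal) else 0) =
      ((T.X k * T.Y k * ((Finset.range (T.Z k)).filter fun u : ℕ => P u).card : ℕ) : ENNReal) := by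
    simp only [Finset.sum_const, Finset.card_range, nsmul_eq_mul]
    rw [Finset.sum_boole]
    push_cast
    ring
  rw [h, e, gA_inv _ _ (by positivity)]
  congr 1
  push_cast
  have h1' : (0 : ℝ) < T.X k := by exact_mod_cast h1
  have h2' : (0 : ℝ) < T.Y k := by exact_mod_cast h2
  have h3' : (0 : ℝ) < T.Z k := by exact_mod_cast h3
  field_simp

theorem gA_1 (k : ℕ) : μG T {g | cv T (k + 1) g < (T.m k : ℤ)} ≤
    ENNReal.ofReal ((T.m k : ℝ) / T.X k) := by
  rw [gA_cv T (k + 1) (fun v => v < (T.m k : ℤ)), T.Y_succ]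
  apply ENNReal.ofReal_le_ofReal
  apply div_le_div_of_nonneg_right _ (Nat.cast_nonneg _)
  have : ((Finset.range (T.X k)).filter fun u : ℕ => (u : ℤ) < (T.m k : ℤ)).card ≤ T.m k := by
    calc _ ≤ (Finset.range (T.m k)).card := by
          apply Finset.card_le_card
          intro u hu
          simp only [Finset.mem_filter, Finset.mem_range] at hu ⊢
          omega
      _ = T.m k := Finset.card_range _
  exact_mod_cast this

theorem gA_2 (k : ℕ) : μG T {g | ((T.Y k * T.Z k : ℕ) : ℤ) ≤ cw T (k + 1) g} ≤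
    ENNReal.ofReal (1 / ((T.Y k : ℝ) + 1)) := by
  obtain ⟨h1, h2, h3⟩ := gA_pos T k
  rw [gA_cw T (k + 1) (fun w => ((T.Y k * T.Z k : ℕ) : ℤ) ≤ w), T.Z_succ]
  apply ENNReal.ofReal_le_ofReal
  have : ((Finset.range ((T.Y k + 1) * T.Z k)).filter
      fun u : ℕ => ((T.Y k * T.Z k : ℕ) : ℤ) ≤ (u : ℤ)).card ≤ T.Z k := by
    calc _ ≤ (Finset.Ico (T.Y k * T.Z k) ((T.Y k + 1) * T.Z k)).card := by
          apply Finset.card_le_card
          intro u hu
          simp only [Finset.mem_filter, Finset.mem_range, Finset.mem_Ico] at hu ⊢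
          exact ⟨by exact_mod_cast hu.2, hu.1⟩
      _ = T.Z k := by
          rw [Nat.card_Ico, add_mul, one_mul, Nat.add_sub_cancel_left]
  have h4 : (((Finset.range ((T.Y k + 1) * T.Z k)).filter
      fun u : ℕ => ((T.Y k * T.Z k : ℕ) : ℤ) ≤ (u : ℤ)).card : ℝ) ≤ T.Z k := by exact_mod_cast this
  have h3' : (0 : ℝ) < T.Z k := by exact_mod_cast h3
  have h2' : (0 : ℝ) < T.Y k := by exact_mod_cast h2
  calc _ ≤ (T.Z k : ℝ) / (((T.Y k + 1) * T.Z k : ℕ) : ℝ) :=
        div_le_div_of_nonneg_right h4 (Nat.cast_nonneg _)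
    _ = _ := by
        push_cast
        field_simp

theorem gA_3 (k : ℕ) : μG T {g | cu T (k + 1) g < (T.m (k + 1) : ℤ) + 2 * T.m k} ≤
    ENNReal.ofReal (((T.m (k + 1) : ℝ) + 2 * T.m k) / T.X (k + 1)) := by
  rw [gA_cu T (k + 1) (fun u => u < (T.m (k + 1) : ℤ) + 2 * T.m k)]
  apply ENNReal.ofReal_le_ofReal
  apply div_le_div_of_nonneg_right _ (Nat.cast_nonneg _)
  have : ((Finset.range (T.X (k + 1))).filter
      fun u : ℕ => (u : ℤ) < (T.m (k + 1) : ℤ) + 2 * T.m k).card ≤ T.m (k + 1) + 2 * T.m k := by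
    calc _ ≤ (Finset.range (T.m (k + 1) + 2 * T.m k)).card := by
          apply Finset.card_le_card
          intro u hu
          simp only [Finset.mem_filter, Finset.mem_range] at hu ⊢
          omega
      _ = _ := Finset.card_range _
  exact_mod_cast this

theorem gA_4 (k : ℕ) : μG T {g | (T.m (k + 1) : ℤ) + T.B k ≤ cu T (k + 1) g + 1} ≤
    ENNReal.ofReal ((2 * (T.m k : ℝ) + 1) / T.X (k + 1)) := by
  rw [gA_cu T (k + 1) (fun u => (T.m (k + 1) : ℤ) + T.B k ≤ u + 1)]
  apply ENNReal.ofReal_le_ofReal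
  apply div_le_div_of_nonneg_right _ (Nat.cast_nonneg _)
  have hX := T.X_succ k
  have hB := T.B_pos k
  have : ((Finset.range (T.X (k + 1))).filter
      fun u : ℕ => (T.m (k + 1) : ℤ) + T.B k ≤ (u : ℤ) + 1).card ≤ 2 * T.m k + 1 := by
    calc _ ≤ (Finset.Ico (T.m (k + 1) + T.B k - 1) (T.X (k + 1))).card := by
          apply Finset.card_le_card
          intro u hu
          simp only [Finset.mem_filter, Finset.mem_range, Finset.mem_Ico] at hu ⊢
          omega
      _ ≤ _ := by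
          rw [Nat.card_Ico]
          omega
  exact_mod_cast this

theorem measure_bad_le (k : ℕ) : μG T {g | ¬ good T k g} ≤ bad T k := by
  have hsub : {g | ¬ good T k g} ⊆
      (({g | cv T (k + 1) g < (T.m k : ℤ)} ∪ {g | ((T.Y k * T.Z k : ℕ) : ℤ) ≤ cw T (k + 1) g}) ∪
      {g | cu T (k + 1) g < (T.m (k + 1) : ℤ) + 2 * T.m k}) ∪
      {g | (T.m (k + 1) : ℤ) + T.B k ≤ cu T (k + 1) g + 1} := by
    intro g hg
    simp only [Set.mem_ofPred_eq, Set.mem_union] at hg ⊢
    unfold good at hg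
    push_cast
    by_contra hc
    push Not at hc
    exact hg ⟨hc.1.1.1, hc.1.1.2, hc.1.2, hc.2⟩
  have hp1 : (0 : ℝ) ≤ (T.m k : ℝ) / T.X k := by positivity
  have hp2 : (0 : ℝ) ≤ 1 / ((T.Y k : ℝ) + 1) := by positivity
  have hp3 : (0 : ℝ) ≤ ((T.m (k + 1) : ℝ) + 2 * T.m k) / T.X (k + 1) := by positivity
  have hp4 : (0 : ℝ) ≤ (2 * (T.m k : ℝ) + 1) / T.X (k + 1) := by positivity
  calc μG T {g | ¬ good T k g} ≤ _ := measure_mono hsub
    _ ≤ _ := measure_union_le _ _
    _ ≤ _ := add_le_add_left (measure_union_le _ _) _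
    _ ≤ _ := add_le_add_left (add_le_add_left (measure_union_le _ _) _) _
    _ ≤ ENNReal.ofReal ((T.m k : ℝ) / T.X k) + ENNReal.ofReal (1 / ((T.Y k : ℝ) + 1)) +
        ENNReal.ofReal (((T.m (k + 1) : ℝ) + 2 * T.m k) / T.X (k + 1)) +
        ENNReal.ofReal ((2 * (T.m k : ℝ) + 1) / T.X (k + 1)) :=
        add_le_add (add_le_add (add_le_add (gA_1 T k) (gA_2 T k)) (gA_3 T k)) (gA_4 T k)
    _ = ENNReal.ofReal ((T.m k : ℝ) / T.X k + 1 / ((T.Y k : ℝ) + 1) +
        ((T.m (k + 1) : ℝ) + 2 * T.m k) / T.X (k + 1) + (2 * (T.m k : ℝ) + 1) / T.X (k + 1)) := by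
        rw [ENNReal.ofReal_add (by positivity) hp4, ENNReal.ofReal_add (by positivity) hp3,
          ENNReal.ofReal_add hp1 hp2]
    _ = bad T k := by
        unfold bad
        congr 1
        ring

end ES
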