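import Pool.Agent.H75.ES.Good

/-!
Job ES-C3b: the bounds for the bad points are summable.

By `T.grow k` (all other terms are nonnegative, `T.dec k`, `RR_nonneg`) and
`T.m_succ : m (k+1) = X k * ((Y k + 1) * Z k)`: `4^(k+4) * m (k+1) ≤ X (k+1)` and
`4^(k+4) * m k ≤ X (k+1)`. Hence `m (k+1)/X (k+1) ≤ 4^{-k}`, `(m (k+1) + 4 m k + 1)/X (k+1) ≤ 4^{-k}`;
`Y (k+2) = X (k+1) ≥ 4^k`. Compare with a geometric series (finitely many terms do not matter),
`∑ ENNReal.ofReal` is finite if the real series is summable.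
-/

open MeasureTheory Filter Topology

namespace ES

variable (T : Tower)

theorem gB_grow (k : ℕ) : (4 : ℝ) ^ (k + 4) * (T.m (k + 1) + T.m k + 4) ≤ T.X (k + 1) := by
  have hm : 3 ≤ T.m k := le_trans (by norm_num) (T.twelve_le_m k)
  have hR : 0 ≤ RR (T.f k) (T.m k) (T.h k) := RR_nonneg (T.dec k) hm
  have hf : 0 ≤ T.f k 0 := (T.dec k).nonneg 0
  have hg := T.grow k
  refine le_trans (mul_le_mul_of_nonneg_left ?_ (by positivity)) hg
  have h1 : (T.m (k + 1) : ℝ) = (T.X k : ℝ) * ((T.Y k : ℝ) + 1) * (T.Z k : ℝ) := by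
    rw [T.m_succ]
    push_cast
    ring
  have h2 : (4 : ℝ) ≤ ((T.m k : ℝ) + (T.h k : ℝ) + 1) *
      (RR (T.f k) (T.m k) (T.h k) + T.f k 0 + 4) := by
    have h3 : (1 : ℝ) ≤ (T.m k : ℝ) + (T.h k : ℝ) + 1 := by
      have : (0 : ℝ) ≤ (T.m k : ℝ) := Nat.cast_nonneg _
      have : (0 : ℝ) ≤ (T.h k : ℝ) := Nat.cast_nonneg _
      linarith
    have h4 : (4 : ℝ) ≤ RR (T.f k) (T.m k) (T.h k) + T.f k 0 + 4 := by linarith
    nlinarith
  rw [h1]
  linarith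

theorem gB_real (k : ℕ) : (T.m (k + 2) : ℝ) / T.X (k + 2) + 1 / (T.Y (k + 2) + 1) +
    (T.m (k + 3) + 4 * T.m (k + 2) + 1) / T.X (k + 3) ≤ 3 * (1 / 4) ^ k := by
  have hX : ∀ j, (0 : ℝ) < T.X j := fun j => by
    have := T.X_ge j
    exact_mod_cast (by omega : 0 < T.X j)
  have hm : ∀ j, (0 : ℝ) ≤ (T.m j : ℝ) := fun j => Nat.cast_nonneg _
  have h4 : (0 : ℝ) < 4 ^ k := by positivity
  have e4 : ((1 : ℝ) / 4) ^ k = 1 / 4 ^ k := by rw [one_div, inv_pow, one_div]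
  have g1 := gB_grow T k
  have g2 := gB_grow T (k + 1)
  have g3 := gB_grow T (k + 2)
  have p1 : (4 : ℝ) ^ (k + 4) = 256 * 4 ^ k := by rw [pow_add]; ring
  have p2 : (4 : ℝ) ^ (k + 1 + 4) = 1024 * 4 ^ k := by rw [pow_add, pow_add]; ring
  have p3 : (4 : ℝ) ^ (k + 2 + 4) = 4096 * 4 ^ k := by rw [pow_add, pow_add]; ring
  rw [p1] at g1
  rw [p2] at g2
  rw [p3] at g3
  have a1 : (T.m (k + 2) : ℝ) / T.X (k + 2) ≤ 1 / 4 ^ k := by
    rw [div_le_div_iff₀ (hX _) h4]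
    have := hm (k + 1)
    have := hm (k + 2)
    have h5 : (T.m (k + 2) : ℝ) ≤ T.m (k + 1 + 1) + T.m (k + 1) + 4 := by
      have : T.m (k + 2) = T.m (k + 1 + 1) := rfl
      rw [this]
      linarith
    calc (T.m (k + 2) : ℝ) * 4 ^ k ≤ (T.m (k + 1 + 1) + T.m (k + 1) + 4) * 4 ^ k :=
          mul_le_mul_of_nonneg_right h5 h4.le
      _ ≤ 1024 * 4 ^ k * (T.m (k + 1 + 1) + T.m (k + 1) + 4) := by
          have : (0 : ℝ) ≤ (T.m (k + 1 + 1) + T.m (k + 1) + 4) * 4 ^ k := by positivity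
          linarith
      _ ≤ 1 * T.X (k + 2) := by rw [one_mul]; exact g2
  have a2 : 1 / ((T.Y (k + 2) : ℝ) + 1) ≤ 1 / 4 ^ k := by
    have hY : T.Y (k + 2) = T.X (k + 1) := T.Y_succ (k + 1)
    apply one_div_le_one_div_of_le h4
    rw [hY]
    have := hm (k + 1)
    have := hm k
    have : (0 : ℝ) ≤ 4 ^ k * (T.m (k + 1) + T.m k) := by positivity
    nlinarith
  have a3 : ((T.m (k + 3) : ℝ) + 4 * T.m (k + 2) + 1) / T.X (k + 3) ≤ 1 / 4 ^ k := by
    rw [div_le_div_iff₀ (hX _) h4]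
    have := hm (k + 2)
    have := hm (k + 3)
    have h5 : (T.m (k + 3) : ℝ) + 4 * T.m (k + 2) + 1 ≤
        4 * (T.m (k + 2 + 1) + T.m (k + 2) + 4) := by
      have : T.m (k + 3) = T.m (k + 2 + 1) := rfl
      rw [this]
      linarith
    calc ((T.m (k + 3) : ℝ) + 4 * T.m (k + 2) + 1) * 4 ^ k ≤
          4 * (T.m (k + 2 + 1) + T.m (k + 2) + 4) * 4 ^ k :=
          mul_le_mul_of_nonneg_right h5 h4.le
      _ ≤ 4096 * 4 ^ k * (T.m (k + 2 + 1) + T.m (k + 2) + 4) := by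
          have : (0 : ℝ) ≤ (T.m (k + 2 + 1) + T.m (k + 2) + 4) * 4 ^ k := by positivity
          linarith
      _ ≤ 1 * T.X (k + 3) := by rw [one_mul]; exact g3
  rw [e4]
  linarith

theorem tsum_bad_ne_top : ∑' k, bad T k ≠ ⊤ := by
  unfold bad
  apply Summable.tsum_ofReal_ne_top
  rw [← summable_nat_add_iff 2]
  have hs : Summable fun k : ℕ => (3 : ℝ) * (1 / 4) ^ k :=
    (summable_geometric_of_lt_one (by norm_num) (by norm_num)).mul_left 3
  refine Summable.of_nonneg_of_le (fun k => by positivity) (fun k => ?_) hs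
  exact gB_real T k

end ES
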