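import Pool.Agent.H75.ES.GoodA
import Pool.Agent.H75.ES.GoodB

/-!
Job ES-C3c: almost every orbit is eventually good.

For fixed `x : ℤ × ℤ × ℤ`: `μG {g | ¬ good T k (g + ι T x)} = μG {g | ¬ good T k g}` (invariance, the group
is commutative), so the sum over `k` is finite, and the Borel-Cantelli lemma
(`measure_setOf_frequently_eq_zero` / `ae_eventually_notMem`) gives `∀ᵐ g, ∀ᶠ k, good T k (g + ι T x)`;
`ae_all_iff` over the countable set of `x`.
-/

open MeasureTheory Filter Topology

namespace ES

variable (T : Tower)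

theorem ae_GS : ∀ᵐ g ∂(μG T), g ∈ GS T := by
  have h1 : ∀ᵐ g ∂(μG T), ∀ x : ℤ × ℤ × ℤ, ∀ᶠ k in atTop, good T k (g + ι T x) := by
    rw [ae_all_iff]
    intro x
    have h2 : ∀ k, μG T {g | ¬ good T k (g + ι T x)} ≤ bad T k := by
      intro k
      have e : {g : GG T | ¬ good T k (g + ι T x)} =
          (fun g => ι T x + g) ⁻¹' {g | ¬ good T k g} := by
        ext g
        simp only [Set.mem_ofPred_eq, Set.mem_preimage]
        rw [add_comm]
      rw [e, measure_preimage_add]
      exact measure_bad_le T k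
    have h3 : ∑' k, μG T {g | ¬ good T k (g + ι T x)} ≠ ⊤ :=
      ne_top_of_le_ne_top (tsum_bad_ne_top T) (ENNReal.tsum_le_tsum h2)
    filter_upwards [ae_eventually_notMem h3] with g hg
    filter_upwards [hg] with k hk
    by_contra h4
    exact hk h4
  exact h1

end ES
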