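import Pool.Agent.H75.ES.InfoL

/-!
The compact group on which the random configuration lives: the closure of `ℤ³` in the product of
the finite groups `ℤ/X_k × ℤ/Y_k × ℤ/Z_k` (coordinates exchanged for odd `k`), with its Haar
probability measure.
-/

open MeasureTheory Filter Topology

namespace ES

instance (T : Tower) (k : ℕ) : NeZero (T.X k) := ⟨by have := T.X_ge k; omega⟩
instance (T : Tower) (k : ℕ) : NeZero (T.Y k) := ⟨by have := T.three_le_Y k; omega⟩
instance (T : Tower) (k : ℕ) : NeZero (T.Z k) := ⟨by have := T.four_le_Z k; omega⟩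

variable (T : Tower)

/-- the group of level `k` -/
abbrev AA (k : ℕ) : Type := ZMod (T.X k) × ZMod (T.Y k) × ZMod (T.Z k)

/-- exchange the first two coordinates if `k` is odd -/
def tw (k : ℕ) (x : ℤ × ℤ × ℤ) : ℤ × ℤ × ℤ := if Even k then x else (x.2.1, x.1, x.2.2)

/-- the diagonal embedding -/
def hom : ℤ × ℤ × ℤ →+ (∀ k, AA T k) where
  toFun x k := ((((tw k x).1 : ℤ) : ZMod (T.X k)), (((tw k x).2.1 : ℤ) : ZMod (T.Y k)),
    (((tw k x).2.2 : ℤ) : ZMod (T.Z k)))
  map_zero' := by
    funext k
    by_cases h : Even k <;> simp [tw, h]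
  map_add' x y := by
    funext k
    by_cases h : Even k <;> simp [tw, h]

/-- the closure of `ℤ³` -/
def GG : AddSubgroup (∀ k, AA T k) := (hom T).range.topologicalClosure

instance : CompactSpace (GG T) :=
  isCompact_iff_compactSpace.mp ((AddSubgroup.isClosed_topologicalClosure _).isCompact)

instance : MeasurableSpace (GG T) := borel _

instance : BorelSpace (GG T) := ⟨rfl⟩

/-- the Haar probability measure -/
noncomputable def μG : Measure (GG T) :=
  Measure.addHaarMeasure (⊤ : TopologicalSpace.PositiveCompacts (GG T))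

instance : IsProbabilityMeasure (μG T) := ⟨by
  have := Measure.addHaarMeasure_self (K₀ := (⊤ : TopologicalSpace.PositiveCompacts (GG T)))
  unfold μG
  simpa using this⟩

instance : (μG T).IsAddLeftInvariant := by unfold μG; infer_instance

/-- `ℤ³` inside the group -/
def ι : ℤ × ℤ × ℤ →+ GG T where
  toFun x := ⟨hom T x, subset_closure ⟨x, rfl⟩⟩
  map_zero' := by ext1; simp
  map_add' x y := by ext1; simp

/-- the coordinates of level `k`, as integers in `[0, X)`, `[0, Y)`, `[0, Z)` -/
def cu (k : ℕ) (g : GG T) : ℤ := ((g.1 k).1.val : ℤ)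
def cv (k : ℕ) (g : GG T) : ℤ := ((g.1 k).2.1.val : ℤ)
def cw (k : ℕ) (g : GG T) : ℤ := ((g.1 k).2.2.val : ℤ)

end ES
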