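import Pool.Agent.H75.ES.Grp

/-!
Job ES-C1: coordinates on the group.

`cu T k g = ((g.1 k).1.val : ℤ)` etc.; `ZMod.val_lt`. `cu_eq`, `cv_eq`, `cw_eq`: for each of them the set of
all `a : ∀ k, AA T k` with the property is closed (it is defined by `a k` and `a (k+1)`, which depend
continuously on `a` and live in discrete spaces: preimage of a subset of the discrete space
`AA T k × AA T (k+1)` under a continuous map is clopen) and contains the range of `hom T`; `g.2` says that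
`g.1` is in the closure of the range (`closure_minimal`). On `hom T x`: `ZMod.val_intCast` (the value is
`x % n`), `(tw (k+1) x).2.1 = (tw k x).1`, `(tw (k+1) x).1 = (tw k x).2.1`, `T.Y_succ`, `T.Y_dvd_X`,
`Z k ∣ Z (k+1)` by `T.Z_succ`, `Int.emod_emod_of_dvd`. `cu_add`...: `(ι T x).1 k` is `hom T x k` by definition,
`ZMod.val_add`, `ZMod.val_intCast`, or use that both sides are in `[0, n)` and congruent mod `n`.
-/

open MeasureTheory Filter Topology

namespace ES

variable (T : Tower) (k : ℕ) (g : GG T)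

theorem cu_nonneg : 0 ≤ cu T k g := by unfold cu; positivity
theorem cv_nonneg : 0 ≤ cv T k g := by unfold cv; positivity
theorem cw_nonneg : 0 ≤ cw T k g := by unfold cw; positivity
theorem cu_lt : cu T k g < T.X k := by unfold cu; exact_mod_cast ZMod.val_lt _
theorem cv_lt : cv T k g < T.Y k := by unfold cv; exact_mod_cast ZMod.val_lt _
theorem cw_lt : cw T k g < T.Z k := by unfold cw; exact_mod_cast ZMod.val_lt _

/-- a property of two consecutive levels which holds on `ℤ³` holds on the group -/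
theorem GG.two_levels (P : AA T k × AA T (k + 1) → Prop)
    (hP : ∀ x, P (hom T x k, hom T x (k + 1))) : P (g.1 k, g.1 (k + 1)) := by
  have hc : Continuous (fun a : (∀ k, AA T k) => (a k, a (k + 1))) := by fun_prop
  have hcl : IsClosed ((fun a : (∀ k, AA T k) => (a k, a (k + 1))) ⁻¹' {p | P p}) :=
    (isClosed_discrete _).preimage hc
  have hsub : ((hom T).range : Set (∀ k, AA T k)) ⊆
      (fun a : (∀ k, AA T k) => (a k, a (k + 1))) ⁻¹' {p | P p} := by
    rintro _ ⟨x, rfl⟩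
    exact hP x
  have := closure_minimal hsub hcl
  exact this g.2

theorem tw_succ_fst (x : ℤ × ℤ × ℤ) : (tw (k + 1) x).1 = (tw k x).2.1 := by
  unfold tw
  by_cases h : Even k
  · have h' : ¬ Even (k + 1) := by rw [Nat.even_add_one]; exact fun h1 => h1 h
    simp [h, h']
  · have h' : Even (k + 1) := by rw [Nat.even_add_one]; exact h
    simp [h, h']

theorem tw_succ_snd (x : ℤ × ℤ × ℤ) : (tw (k + 1) x).2.1 = (tw k x).1 := by
  unfold tw
  by_cases h : Even k
  · have h' : ¬ Even (k + 1) := by rw [Nat.even_add_one]; exact fun h1 => h1 h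
    simp [h, h']
  · have h' : Even (k + 1) := by rw [Nat.even_add_one]; exact h
    simp [h, h']

theorem tw_succ_thd (x : ℤ × ℤ × ℤ) : (tw (k + 1) x).2.2 = (tw k x).2.2 := by
  unfold tw
  split_ifs <;> rfl

/-- the levels are compatible (closed condition, true on `ℤ³`; `Y (k+1) = X k`,
`Y k ∣ X (k+1)`, `Z k ∣ Z (k+1)`) -/
theorem cu_eq : cu T k g = cv T (k + 1) g := by
  refine GG.two_levels T k g (fun p => ((p.1.1.val : ℕ) : ℤ) = ((p.2.2.1.val : ℕ) : ℤ)) ?_
  intro x
  show (((((tw k x).1 : ℤ) : ZMod (T.X k)).val : ℕ) : ℤ) =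
    (((((tw (k + 1) x).2.1 : ℤ) : ZMod (T.Y (k + 1))).val : ℕ) : ℤ)
  rw [ZMod.val_intCast, ZMod.val_intCast, tw_succ_snd, T.Y_succ]

theorem cv_eq : cv T k g = cu T (k + 1) g % T.Y k := by
  refine GG.two_levels T k g
    (fun p => ((p.1.2.1.val : ℕ) : ℤ) = ((p.2.1.val : ℕ) : ℤ) % T.Y k) ?_
  intro x
  show (((((tw k x).2.1 : ℤ) : ZMod (T.Y k)).val : ℕ) : ℤ) =
    (((((tw (k + 1) x).1 : ℤ) : ZMod (T.X (k + 1))).val : ℕ) : ℤ) % T.Y k
  rw [ZMod.val_intCast, ZMod.val_intCast, tw_succ_fst]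
  rw [Int.emod_emod_of_dvd]
  exact_mod_cast T.Y_dvd_X k

theorem cw_eq : cw T k g = cw T (k + 1) g % T.Z k := by
  refine GG.two_levels T k g
    (fun p => ((p.1.2.2.val : ℕ) : ℤ) = ((p.2.2.2.val : ℕ) : ℤ) % T.Z k) ?_
  intro x
  show (((((tw k x).2.2 : ℤ) : ZMod (T.Z k)).val : ℕ) : ℤ) =
    (((((tw (k + 1) x).2.2 : ℤ) : ZMod (T.Z (k + 1))).val : ℕ) : ℤ) % T.Z k
  rw [ZMod.val_intCast, ZMod.val_intCast, tw_succ_thd]
  rw [Int.emod_emod_of_dvd]
  exact_mod_cast (Dvd.intro_left _ (T.Z_succ k).symm)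

theorem ZMod_val_add_int {n : ℕ} [NeZero n] (a : ZMod n) (z : ℤ) :
    (((a + (z : ZMod n)).val : ℕ) : ℤ) = ((a.val : ℕ) + z) % (n : ℤ) := by
  have h : a + (z : ZMod n) = (((a.val : ℤ) + z : ℤ) : ZMod n) := by
    push_cast
    rw [ZMod.natCast_zmod_val]
  rw [h, ZMod.val_intCast]

theorem cu_add (x : ℤ × ℤ × ℤ) : cu T k (g + ι T x) = (cu T k g + (tw k x).1) % T.X k :=
  ZMod_val_add_int _ _
theorem cv_add (x : ℤ × ℤ × ℤ) : cv T k (g + ι T x) = (cv T k g + (tw k x).2.1) % T.Y k :=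
  ZMod_val_add_int _ _
theorem cw_add (x : ℤ × ℤ × ℤ) : cw T k (g + ι T x) = (cw T k g + (tw k x).2.2) % T.Z k :=
  ZMod_val_add_int _ _

end ES
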