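import Pool.Agent.H75.ES.GrpA

/-!
Job ES-C2: the coordinates of level `k` are uniformly distributed.

* `measurableSet_fib`: `g ↦ g.1 k` is continuous to a discrete space, so the preimage of every set
  is open (`BorelSpace (GG T)`).
* `μG_fib`: for `a, a' : AA T k` there is `x : ℤ × ℤ × ℤ` with `(ι T x).1 k = a - a'` (`ZMod.intCast_surjective`
  in each coordinate, `tw k` is an involution), and `{g | g.1 k = a} ` is the preimage of
  `{g | g.1 k = a'}` under `g ↦ -ι T x + g`; Haar measure is left invariant
  (`measure_preimage_add`). So all `X Y Z` fibres have the same measure; they are disjoint and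
  cover everything, total mass 1 (`Fintype.card (ZMod n) = n`).
-/

open MeasureTheory Filter Topology

namespace ES

variable (T : Tower) (k : ℕ)

theorem GrpB_cont : Continuous (fun g : GG T => g.1 k) :=
  (continuous_apply k).comp continuous_subtype_val

theorem measurableSet_fib (s : Set (AA T k)) : MeasurableSet {g : GG T | g.1 k ∈ s} :=
  ((isOpen_discrete s).preimage (GrpB_cont T k)).measurableSet

theorem GrpB_tw_tw (x : ℤ × ℤ × ℤ) : tw k (tw k x) = x := by
  unfold tw
  split_ifs <;> rfl

theorem GrpB_surj (d : AA T k) : ∃ x : ℤ × ℤ × ℤ, (ι T x).1 k = d := by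
  obtain ⟨a, ha⟩ := ZMod.intCast_surjective d.1
  obtain ⟨b, hb⟩ := ZMod.intCast_surjective d.2.1
  obtain ⟨c, hc⟩ := ZMod.intCast_surjective d.2.2
  refine ⟨tw k (a, b, c), ?_⟩
  show ((((tw k (tw k (a, b, c))).1 : ℤ) : ZMod (T.X k)),
    (((tw k (tw k (a, b, c))).2.1 : ℤ) : ZMod (T.Y k)),
    (((tw k (tw k (a, b, c))).2.2 : ℤ) : ZMod (T.Z k))) = d
  rw [GrpB_tw_tw]
  exact Prod.ext ha (Prod.ext hb hc)

theorem GrpB_eq (a a' : AA T k) :
    μG T {g | g.1 k = a} = μG T {g | g.1 k = a'} := by
  obtain ⟨x, hx⟩ := GrpB_surj T k (a - a')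
  have h : {g : GG T | g.1 k = a} = (fun g => -ι T x + g) ⁻¹' {g : GG T | g.1 k = a'} := by
    ext g
    simp only [Set.mem_ofPred_eq, Set.mem_preimage]
    have e : (-ι T x + g).1 k = -(ι T x).1 k + g.1 k := rfl
    rw [e, hx]
    constructor
    · intro h1
      rw [h1]
      abel
    · intro h1
      have h2 : g.1 k = (a - a') + (-(a - a') + g.1 k) := by abel
      rw [h2, h1]
      abel
  rw [h, measure_preimage_add]

/-- all fibres have the same measure -/
theorem μG_fib (a : AA T k) :
    μG T {g | g.1 k = a} = ((T.X k * T.Y k * T.Z k : ℕ) : ENNReal)⁻¹ := by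
  classical
  have hcard : Fintype.card (AA T k) = T.X k * T.Y k * T.Z k := by
    rw [Fintype.card_prod, Fintype.card_prod, ZMod.card, ZMod.card, ZMod.card, mul_assoc]
  have hU : (⋃ b : AA T k, {g : GG T | g.1 k = b}) = Set.univ := by
    ext g
    simp
  have hsum : ∑ b : AA T k, μG T {g | g.1 k = b} = 1 := by
    have h1 : μG T (⋃ b : AA T k, {g : GG T | g.1 k = b}) =
        ∑ b : AA T k, μG T {g | g.1 k = b} := by
      rw [measure_iUnion]
      · exact tsum_fintype _
      · intro b b' hbb
        rw [Function.onFun, Set.disjoint_left]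
        intro g hg hg'
        exact hbb (hg.symm.trans hg')
      · intro b
        exact measurableSet_fib T k {b}
    rw [← h1, hU, measure_univ]
  have hall : ∑ b : AA T k, μG T {g | g.1 k = b} =
      ((T.X k * T.Y k * T.Z k : ℕ) : ENNReal) * μG T {g | g.1 k = a} := by
    rw [Finset.sum_congr rfl fun b _ => GrpB_eq T k b a, Finset.sum_const, Finset.card_univ, hcard,
      nsmul_eq_mul]
  rw [hall] at hsum
  exact ENNReal.eq_inv_of_mul_eq_one_left (by rw [mul_comm]; exact hsum)

end ES
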