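import Pool.Agent.H75.ES.GrpB

/-!
Job ES-C2b: integrals of functions of the coordinates of level `k`.

`cu T k g = ((g.1 k).1.val : ℤ)` etc. The function `g ↦ F (cu ..) (cv ..) (cw ..)` takes finitely
many values; `∫⁻ = ∑_{a : AA T k} F(a) * μG {g | g.1 k = a}` (e.g. `lintegral` of a finite sum of
indicators, or `lintegral_fintype` for the image measure on the finite type `AA T k`), then rewrite
the sum over `ZMod X × ZMod Y × ZMod Z` as iterated sums over `Finset.range`
(`Fintype.sum_prod_type`, `ZMod.val` is a bijection onto `range n`: `Finset.sum_bij` or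
`Fin.sum_univ_eq_sum_range` after the equivalence with `Fin n`).
-/

open MeasureTheory Filter Topology

namespace ES

variable (T : Tower) (k : ℕ)

theorem gC_sum_zmod {n : ℕ} [NeZero n] {M : Type*} [AddCommMonoid M] (f : ℕ → M) :
    ∑ x : ZMod n, f x.val = ∑ i ∈ Finset.range n, f i := by
  refine Finset.sum_nbij' (fun x => x.val) (fun i => (i : ZMod n)) ?_ ?_ ?_ ?_ ?_
  · intro x _
    exact Finset.mem_range.2 (ZMod.val_lt x)
  · intro i _
    exact Finset.mem_univ _
  · intro x _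
    exact ZMod.natCast_zmod_val x
  · intro i hi
    exact ZMod.val_cast_of_lt (Finset.mem_range.1 hi)
  · intro x _
    rfl

/-- a function of the coordinates of level `k` -/
theorem lintegral_lev (F : ℤ → ℤ → ℤ → ENNReal) :
    ∫⁻ g, F (cu T k g) (cv T k g) (cw T k g) ∂(μG T) =
      ((T.X k * T.Y k * T.Z k : ℕ) : ENNReal)⁻¹ *
        ∑ u ∈ Finset.range (T.X k), ∑ v ∈ Finset.range (T.Y k), ∑ w ∈ Finset.range (T.Z k),
          F u v w := by
  classical
  set V : ENNReal := ((T.X k * T.Y k * T.Z k : ℕ) : ENNReal)⁻¹ with hV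
  have hm : ∀ a : AA T k, MeasurableSet {g : GG T | g.1 k = a} := fun a =>
    measurableSet_fib T k {a}
  have e1 : ∀ g : GG T, F (cu T k g) (cv T k g) (cw T k g) =
      ∑ a : AA T k, Set.indicator {g : GG T | g.1 k = a}
        (fun _ => F ((a.1.val : ℕ) : ℤ) ((a.2.1.val : ℕ) : ℤ) ((a.2.2.val : ℕ) : ℤ)) g := by
    intro g
    rw [Finset.sum_eq_single (g.1 k)]
    · have h : g ∈ {g' : GG T | g'.1 k = g.1 k} := rfl
      rw [Set.indicator_of_mem h]
      rfl
    · intro b _ hb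
      have h : g ∉ {g' : GG T | g'.1 k = b} := fun h => hb (Eq.symm h)
      rw [Set.indicator_of_notMem h]
    · intro h
      exact absurd (Finset.mem_univ _) h
  calc ∫⁻ g, F (cu T k g) (cv T k g) (cw T k g) ∂(μG T) =
      ∫⁻ g, ∑ a : AA T k, Set.indicator {g : GG T | g.1 k = a}
        (fun _ => F ((a.1.val : ℕ) : ℤ) ((a.2.1.val : ℕ) : ℤ) ((a.2.2.val : ℕ) : ℤ)) g ∂(μG T) :=
        lintegral_congr e1
    _ = ∑ a : AA T k, ∫⁻ g, Set.indicator {g : GG T | g.1 k = a}
        (fun _ => F ((a.1.val : ℕ) : ℤ) ((a.2.1.val : ℕ) : ℤ) ((a.2.2.val : ℕ) : ℤ)) g ∂(μG T) :=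
        lintegral_finsetSum _ fun a _ => measurable_const.indicator (hm a)
    _ = ∑ a : AA T k, V *
        F ((a.1.val : ℕ) : ℤ) ((a.2.1.val : ℕ) : ℤ) ((a.2.2.val : ℕ) : ℤ) := by
        refine Finset.sum_congr rfl fun a _ => ?_
        rw [lintegral_indicator_const (hm a), μG_fib, mul_comm]
    _ = V * ∑ a : AA T k, F ((a.1.val : ℕ) : ℤ) ((a.2.1.val : ℕ) : ℤ) ((a.2.2.val : ℕ) : ℤ) := by
        rw [Finset.mul_sum]
    _ = _ := by
        congr 1
        rw [Fintype.sum_prod_type]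
        rw [← gC_sum_zmod (n := T.X k) (fun u => ∑ v ∈ Finset.range (T.Y k),
          ∑ w ∈ Finset.range (T.Z k), F u v w)]
        refine Finset.sum_congr rfl fun x _ => ?_
        rw [Fintype.sum_prod_type]
        rw [← gC_sum_zmod (n := T.Y k) (fun v => ∑ w ∈ Finset.range (T.Z k), F (x.val : ℤ) v w)]
        refine Finset.sum_congr rfl fun y _ => ?_
        rw [← gC_sum_zmod (n := T.Z k) (fun w => F (x.val : ℤ) (y.val : ℤ) w)]

theorem measurable_lev {α : Type*} [MeasurableSpace α] (F : ℤ → ℤ → ℤ → α) :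
    Measurable fun g : GG T => F (cu T k g) (cv T k g) (cw T k g) := by
  intro s _
  exact measurableSet_fib T k
    {a | F ((a.1.val : ℕ) : ℤ) ((a.2.1.val : ℕ) : ℤ) ((a.2.2.val : ℕ) : ℤ) ∈ s}

end ES
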