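import Pool.Agent.H75.ES.Def

/-!
Job ES-A6: properties of `JJ`.

`JJ a b x = b * r` with `r = ((1 - x) * Int.gcdB a b) % a`, `0 ≤ r < a` (`Int.emod_nonneg`,
`Int.emod_lt_of_pos`). If `a`, `b` are coprime then `a * gcdA a b + b * gcdB a b = 1` (`Int.gcd_eq_gcd_ab`,
`Int.gcd_natCast_natCast`), so `b * gcdB ≡ 1` and `b * r ≡ 1 - x` modulo `a` (`Int.ModEq`,
`Int.emod_emod_of_dvd`, ...). `JJ_eq`: `b * j ≡ b * r` modulo `a`, cancel `b` (coprime to `a`,
`IsCoprime.dvd_of_dvd_mul_left`): `a ∣ j - r`, both in `[0, a)`, so `j = r` (`Int.eq_of_...` or `nlinarith`).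
-/

namespace ES

variable {a b : ℕ}

theorem JJ_nonneg (ha : 0 < a) (x : ℤ) : 0 ≤ JJ a b x := by
  unfold JJ
  exact mul_nonneg (by positivity) (Int.emod_nonneg _ (by omega))

theorem JJ_dvd (x : ℤ) : (b : ℤ) ∣ JJ a b x := Dvd.intro _ rfl

theorem JJ_le (ha : 0 < a) (x : ℤ) : JJ a b x + b ≤ a * b := by
  unfold JJ
  have h := Int.emod_lt_of_pos ((1 - x) * Int.gcdB a b) (show (0 : ℤ) < a by omega)
  have hb : (0 : ℤ) ≤ b := by positivity
  nlinarith

theorem JJ_emod (ha : 0 < a) (h : Nat.Coprime a b) (x : ℤ) :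
    (x + JJ a b x) % a = 1 % a := by
  have hg : (a : ℤ) * Int.gcdA a b + b * Int.gcdB a b = 1 := by
    have h1 := Int.gcd_eq_gcd_ab a b
    have h2 : Int.gcd (a : ℤ) (b : ℤ) = 1 := by rw [Int.gcd_natCast_natCast]; exact h
    rw [h2] at h1
    push_cast at h1
    linarith
  unfold JJ
  have h1 : (b : ℤ) * (((1 - x) * Int.gcdB a b) % a) ≡ 1 - x [ZMOD a] := by
    have e1 : (b : ℤ) * (((1 - x) * Int.gcdB a b) % a) ≡ b * ((1 - x) * Int.gcdB a b) [ZMOD a] :=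
      (Int.mod_modEq _ _).mul_left _
    have e2 : (b : ℤ) * ((1 - x) * Int.gcdB a b) = (1 - x) + a * (-(1 - x) * Int.gcdA a b) := by
      linear_combination (1 - x) * hg
    rw [e2] at e1
    refine e1.trans ?_
    exact Int.modEq_iff_dvd.mpr ⟨(1 - x) * Int.gcdA a b, by ring⟩
  have h2 : x + (b : ℤ) * (((1 - x) * Int.gcdB a b) % a) ≡ x + (1 - x) [ZMOD a] :=
    h1.add_left x
  have e : x + (1 - x) = 1 := by ring
  rw [e] at h2
  exact h2

/-- the characterisation of `JJ` -/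
theorem JJ_eq (ha : 0 < a) (h : Nat.Coprime a b) (x j : ℤ) (h0 : 0 ≤ j) (h1 : j < a)
    (hx : (x + b * j) % a = 1 % a) : JJ a b x = b * j := by
  have hJ := JJ_emod ha h x
  have ha' : (0 : ℤ) < a := by omega
  obtain ⟨r, hr⟩ : ∃ r, r = ((1 - x) * Int.gcdB a b) % (a : ℤ) := ⟨_, rfl⟩
  have hr0 : 0 ≤ r := by rw [hr]; exact Int.emod_nonneg _ ha'.ne'
  have hr1 : r < a := by rw [hr]; exact Int.emod_lt_of_pos _ ha'
  have hJr : JJ a b x = b * r := by rw [hr]; rfl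
  rw [hJr] at hJ ⊢
  have hcong : x + (b : ℤ) * r ≡ x + b * j [ZMOD a] := by
    show (x + (b : ℤ) * r) % a = (x + b * j) % a
    rw [hJ, hx]
  have hd := hcong.dvd
  have e : x + (b : ℤ) * j - (x + b * r) = b * (j - r) := by ring
  rw [e] at hd
  have hcop : IsCoprime (a : ℤ) (b : ℤ) := Nat.isCoprime_iff_coprime.mpr h
  have hd2 : (a : ℤ) ∣ j - r := hcop.dvd_of_dvd_mul_left hd
  have hjr : j = r := by
    have := Int.eq_zero_of_abs_lt_dvd hd2 (by rw [abs_lt]; constructor <;> linarith)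
    linarith
  rw [hjr]

end ES
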