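import Pool.Agent.H75.ES.Tow
import Pool.Agent.H75.ES.JJ

/-! Unfolding lemmas for `info` (helper75). -/

namespace ES

variable (T : Tower) (k : ℕ)

theorem info_street {u v w : ℤ} (hv : v < T.m k) :
    info T (k + 1) u v w =
      if v = 1 ∧ w = 0 ∧ (T.m (k + 1) : ℤ) ≤ u ∧ u < T.m (k + 1) + T.B k then
        some (Tag.t (k + 1) (u - T.m (k + 1)).toNat, Dir.e1)
      else if 2 ≤ v ∧ (T.m (k + 1) : ℤ) ≤ u - w ∧ u - w < T.m (k + 1) + T.B k ∧
          w = min (v - 2) (JJ (T.Y k) (T.Z k) (u - w)) then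
        some (Tag.s k (v - 1).toNat, if w = v - 2 ∧ 0 < w then Dir.f else Dir.e2)
      else none := by
  rw [info, if_pos hv]

theorem info_sub {u v w : ℤ} (hv : (T.m k : ℤ) ≤ v) :
    info T (k + 1) u v w =
    if 0 ≤ w ∧ w < T.Y k * T.Z k ∧
        (T.m (k + 1) : ℤ) ≤ T.Y k * (u / T.Y k) + 1 - T.Z k * (w / T.Z k) ∧
        T.Y k * (u / T.Y k) + 1 - T.Z k * (w / T.Z k) < (T.m (k + 1) : ℤ) + T.B k then
      (info T k v (u % T.Y k) (w % T.Z k)).map (fun r => (r.1, r.2.swap))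
    else none := by
  rw [info, if_neg (not_lt.mpr hv)]

/-- trunk vertices -/
theorem info_trunk {i : ℕ} (hi : i < T.B k) :
    info T (k + 1) (T.m (k + 1) + i) 1 0 = some (Tag.t (k + 1) i, Dir.e1) := by
  have h12 := T.twelve_le_m k
  rw [info_street T k (by omega), if_pos (by omega)]
  congr 3
  omega

/-- the lowest layer `v = 1` contains only trunk vertices -/
theorem info_v1 {u w : ℤ} {r : Tag × Dir} (h : info T (k + 1) u 1 w = some r) :
    ∃ i : ℕ, i < T.B k ∧ u = T.m (k + 1) + i ∧ w = 0 ∧ r = (Tag.t (k + 1) i, Dir.e1) := by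
  have h12 := T.twelve_le_m k
  rw [info_street T k (by omega)] at h
  split_ifs at h with h1 h2
  · refine ⟨(u - T.m (k + 1)).toNat, by omega, by omega, by omega, ?_⟩
    simpa using h.symm
  all_goals exact absurd h2.1 (by norm_num)

/-- stem vertices -/
theorem info_stem {x v : ℤ} (hx : (T.m (k + 1) : ℤ) ≤ x) (hx' : x < T.m (k + 1) + T.B k)
    (hv : 2 ≤ v) (hv' : v < T.m k) :
    info T (k + 1) (x + min (v - 2) (JJ (T.Y k) (T.Z k) x)) v
      (min (v - 2) (JJ (T.Y k) (T.Z k) x)) =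
      some (Tag.s k (v - 1).toNat,
        if min (v - 2) (JJ (T.Y k) (T.Z k) x) = v - 2 ∧
          0 < min (v - 2) (JJ (T.Y k) (T.Z k) x) then Dir.f else Dir.e2) := by
  rw [info_street T k (by omega), if_neg (by omega), if_pos]
  refine ⟨hv, ?_, ?_, ?_⟩
  · rw [add_sub_cancel_right]; exact hx
  · rw [add_sub_cancel_right]; exact hx'
  · rw [add_sub_cancel_right]

/-- what can be found in the street zone above the trunk -/
theorem info_street_some {u v w : ℤ} {t : Tag} {d : Dir} (hv : 2 ≤ v) (hv' : v < T.m k)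
    (h : info T (k + 1) u v w = some (t, d)) :
    (T.m (k + 1) : ℤ) ≤ u - w ∧ u - w < T.m (k + 1) + T.B k ∧
      w = min (v - 2) (JJ (T.Y k) (T.Z k) (u - w)) ∧ t = Tag.s k (v - 1).toNat ∧
      d = if w = v - 2 ∧ 0 < w then Dir.f else Dir.e2 := by
  rw [info_street T k (by omega), if_neg (by omega)] at h
  by_cases h1 : 2 ≤ v ∧ (T.m (k + 1) : ℤ) ≤ u - w ∧ u - w < T.m (k + 1) + T.B k ∧
      w = min (v - 2) (JJ (T.Y k) (T.Z k) (u - w))
  · rw [if_pos h1] at h
    simp only [Option.some.injEq, Prod.mk.injEq] at h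
    exact ⟨h1.2.1, h1.2.2.1, h1.2.2.2, h.1.symm, h.2.symm⟩
  · rw [if_neg h1] at h
    simp at h

/-- below `v = 1` there is nothing -/
theorem info_v0 {u v w : ℤ} (hv : v ≤ 0) : info T (k + 1) u v w = none := by
  have h12 := T.twelve_le_m k
  rw [info_street T k (by omega), if_neg (by omega), if_neg (by omega)]

/-- the copies of `T_k`, in terms of the coordinates inside the cell -/
theorem info_cell {κ j v' w' v : ℤ} (hv : (T.m k : ℤ) ≤ v) (h0 : 0 ≤ v') (h1 : v' < T.Y k)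
    (h2 : 0 ≤ w') (h3 : w' < T.Z k) :
    info T (k + 1) (T.Y k * κ + v') v (T.Z k * j + w') =
      if 0 ≤ j ∧ j < T.Y k ∧ (T.m (k + 1) : ℤ) ≤ T.Y k * κ + 1 - T.Z k * j ∧
        T.Y k * κ + 1 - T.Z k * j < (T.m (k + 1) : ℤ) + T.B k then
      (info T k v v' w').map (fun r => (r.1, r.2.swap)) else none := by
  have hY := T.three_le_Y k
  have hZ := T.four_le_Z k
  have e1 : (T.Y k * κ + v') / (T.Y k : ℤ) = κ := by
    rw [Int.mul_add_ediv_left _ _ (by omega), Int.ediv_eq_zero_of_lt h0 h1, add_zero]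
  have e2 : (T.Y k * κ + v') % (T.Y k : ℤ) = v' := by
    rw [Int.mul_add_emod_self_left, Int.emod_eq_of_lt h0 h1]
  have e3 : (T.Z k * j + w') / (T.Z k : ℤ) = j := by
    rw [Int.mul_add_ediv_left _ _ (by omega), Int.ediv_eq_zero_of_lt h2 h3, add_zero]
  have e4 : (T.Z k * j + w') % (T.Z k : ℤ) = w' := by
    rw [Int.mul_add_emod_self_left, Int.emod_eq_of_lt h2 h3]
  rw [info_sub T k hv, e1, e2, e3, e4]
  refine if_congr ?_ rfl rfl
  constructor
  · rintro ⟨a1, a2, a3, a4⟩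
    refine ⟨?_, ?_, a3, a4⟩
    · by_contra hj
      have : (T.Z k : ℤ) * j ≤ T.Z k * (-1) := by
        apply mul_le_mul_of_nonneg_left _ (by omega); omega
      omega
    · by_contra hj
      have : (T.Z k : ℤ) * T.Y k ≤ T.Z k * j := by
        apply mul_le_mul_of_nonneg_left _ (by omega); omega
      rw [mul_comm (T.Z k : ℤ) (T.Y k)] at this
      omega
  · rintro ⟨a1, a2, a3, a4⟩
    refine ⟨?_, ?_, a3, a4⟩
    · have : 0 ≤ (T.Z k : ℤ) * j := by positivity
      omega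
    · have : (T.Z k : ℤ) * j ≤ T.Z k * (T.Y k - 1) := by
        apply mul_le_mul_of_nonneg_left _ (by omega); omega
      have e : (T.Z k : ℤ) * (T.Y k - 1) = T.Y k * T.Z k - T.Z k := by ring
      omega

/-- what can be found in the zone of the copies -/
theorem info_sub_some {u v w : ℤ} {t : Tag} {d : Dir} (hv : (T.m k : ℤ) ≤ v)
    (h : info T (k + 1) u v w = some (t, d)) :
    ∃ κ j v' w' : ℤ, u = T.Y k * κ + v' ∧ w = T.Z k * j + w' ∧ 0 ≤ v' ∧ v' < T.Y k ∧ 0 ≤ w' ∧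
      w' < T.Z k ∧ 0 ≤ j ∧ j < T.Y k ∧ (T.m (k + 1) : ℤ) ≤ T.Y k * κ + 1 - T.Z k * j ∧
      T.Y k * κ + 1 - T.Z k * j < (T.m (k + 1) : ℤ) + T.B k ∧
      info T k v v' w' = some (t, d.swap) := by
  have hY := T.three_le_Y k
  have hZ := T.four_le_Z k
  have eu : u = T.Y k * (u / T.Y k) + u % T.Y k := (Int.mul_ediv_add_emod u _).symm
  have ew : w = T.Z k * (w / T.Z k) + w % T.Z k := (Int.mul_ediv_add_emod w _).symm
  have a1 : 0 ≤ u % (T.Y k : ℤ) := Int.emod_nonneg _ (by omega)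
  have a2 : u % (T.Y k : ℤ) < T.Y k := Int.emod_lt_of_pos _ (by omega)
  have a3 : 0 ≤ w % (T.Z k : ℤ) := Int.emod_nonneg _ (by omega)
  have a4 : w % (T.Z k : ℤ) < T.Z k := Int.emod_lt_of_pos _ (by omega)
  rw [eu, ew, info_cell T k hv a1 a2 a3 a4] at h
  split_ifs at h with hc
  · refine ⟨_, _, _, _, eu, ew, a1, a2, a3, a4, hc.1, hc.2.1, hc.2.2.1, hc.2.2.2, ?_⟩
    cases hi : info T k v (u % T.Y k) (w % T.Z k) with
    | none => rw [hi] at h; simp at h
    | some r =>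
      rw [hi] at h
      simp only [Option.map_some, Option.some.injEq, Prod.mk.injEq] at h
      rw [← h.1, ← h.2]
      obtain ⟨r1, r2⟩ := r
      cases r2 <;> rfl

theorem Dir.swap_swap (d : Dir) : d.swap.swap = d := by cases d <;> rfl

theorem Dir.swap_x (d : Dir) : d.swap.x = d.y := by cases d <;> rfl

theorem Dir.swap_y (d : Dir) : d.swap.y = d.x := by cases d <;> rfl

theorem Dir.swap_z (d : Dir) : d.swap.z = d.z := by cases d <;> rfl

theorem Dir.swap_inj {d e : Dir} : d.swap = e.swap ↔ d = e := by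
  cases d <;> cases e <;> simp [Dir.swap]

end ES
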