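import Pool.Agent.H75.ES.LawB
import Pool.Agent.H75.ES.FieldA
import Pool.Agent.H75.ES.FieldB
import Pool.Agent.H75.ES.DetC
import Pool.Agent.H75.ES.DetD
import Pool.Agent.H75.ES.GoodC

/-!
Job ES-E5: almost every configuration is in `QQ`.

`QQ_Γ`: `Γ T hd (g, e) = con T hd g e 0` (`cc_eq` at `g + ι T (pt hd x)`, `GS_add`) and `QQ_of_parent` with
`c = con T hd g e`, `p = par T hd g e`. `law_QQ`: `ae_map_iff` (`measurable_Γ`, `measurableSet_QQ`), and
`∀ᵐ ω ∂(μG.prod ν), ω.1 ∈ GS T` from `ae_GS` (`Measure.quasiMeasurePreserving_fst`.ae).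
-/

open MeasureTheory Filter Topology MP_37d2f2_pr

namespace ES

variable (T : Tower) {d : ℕ} (hd : 3 ≤ d)

theorem QQ_Γ {g : GG T} (hg : g ∈ GS T) (e : Fin d → ZMod 2) : QQ (Γ T hd (g, e)) := by
  have h1 : Γ T hd (g, e) = con T hd g e 0 := by
    funext x
    unfold Γ con
    by_cases hx : on e x
    · rw [if_pos hx, if_pos hx]
      exact cc_eq T (GS_add T hg _)
    · rw [if_neg hx, if_neg hx]
  rw [h1]
  exact QQ_of_parent (fun n x hx => con_max T hd hg e n x hx) (fun n x => con_step T hd hg e n x)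
    (fun x => con_zero T hd hg e x)

theorem law_QQ : ∀ᵐ c ∂(law T hd), QQ c := by
  unfold law
  rw [ae_map_iff (measurable_Γ T hd).aemeasurable measurableSet_QQ]
  have h1 : ∀ᵐ ω ∂((μG T).prod (ν d)), ω.1 ∈ GS T :=
    Measure.quasiMeasurePreserving_fst.ae (ae_GS T)
  filter_upwards [h1] with ω hω
  exact QQ_Γ T hd hω ω.2

end ES
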