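import Pool.Agent.H75.ES.Field

/-!
Job ES-E6: the law of the random configuration is a translation-invariant probability measure.

`ν d` is the Haar probability measure on the finite discrete group `Fin d → ZMod 2` (all sets are
measurable, `DiscreteMeasurableSpace`).
* `measurable_Γ`: `measurable_pi_iff`; for fixed `x`, `{ω | on ω.2 x}` is the preimage of a subset of the
  discrete space `Fin d → ZMod 2`, and `ω ↦ cc T (ω.1 + ι T (pt hd x))` is measurable (`measurable_cc`,
  translation is continuous, `BorelSpace (GG T)`).
* `law_prob`: `isProbabilityMeasure_map`.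
* `law_shift z`: `Γ ω (x + z) = Γ (ω.1 + ι T (pt hd z), ω.2 + fun i => (z i : ZMod 2)) x` (`pt_add`,
  `map_add`). So the left side is the image of `(μG T).prod (ν d)` under
  `Γ ∘ (Prod.map (· + a) (· + b))` (`Measure.map_map`), and the translation preserves the product measure:
  `Measure.map_prod_map`, `map_add_right_eq_self` (`μG T`, `ν d` are invariant, commutative groups), or
  `(measurePreserving_add_right _ a).prod (measurePreserving_add_right _ b)`.
-/

open MeasureTheory Filter Topology MP_37d2f2_pr

namespace ES

/-- the uniform distribution on `Fin d → ZMod 2` -/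
noncomputable def ν (d : ℕ) : Measure (Fin d → ZMod 2) :=
  Measure.addHaarMeasure (⊤ : TopologicalSpace.PositiveCompacts (Fin d → ZMod 2))

instance (d : ℕ) : IsProbabilityMeasure (ν d) := ⟨by
  have := Measure.addHaarMeasure_self
    (K₀ := (⊤ : TopologicalSpace.PositiveCompacts (Fin d → ZMod 2)))
  unfold ν
  simpa using this⟩

instance (d : ℕ) : (ν d).IsAddLeftInvariant := by unfold ν; infer_instance

instance (d : ℕ) : (ν d).IsOpenPosMeasure := by unfold ν; infer_instance

variable (T : Tower) {d : ℕ} (hd : 3 ≤ d)

theorem measurable_Γ : Measurable (Γ T hd) := by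
  rw [measurable_pi_iff]
  intro x
  have h1 : Measurable fun ω : GG T × (Fin d → ZMod 2) => cc T (ω.1 + ι T (pt hd x)) := by
    have h := (measurable_cc T).comp
      ((continuous_id.add continuous_const).measurable :
        Measurable fun g : GG T => g + ι T (pt hd x))
    exact h.comp measurable_fst
  have h2 : MeasurableSet {ω : GG T × (Fin d → ZMod 2) | on ω.2 x} := by
    have h3 : MeasurableSet {e : Fin d → ZMod 2 | on e x} := MeasurableSet.of_discrete
    exact measurable_snd h3
  exact Measurable.ite h2 h1 measurable_const

/-- the law of the initial configuration -/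
noncomputable def law : Measure ((Fin d → ℤ) → ENNReal) := ((μG T).prod (ν d)).map (Γ T hd)

theorem law_prob : IsProbabilityMeasure (law T hd) :=
  Measure.isProbabilityMeasure_map (measurable_Γ T hd).aemeasurable

theorem law_shift (z : Fin d → ℤ) : (law T hd).map (fun c x => c (x + z)) = law T hd := by
  have hm : Measurable fun (c : (Fin d → ℤ) → ENNReal) (x : Fin d → ℤ) => c (x + z) :=
    measurable_pi_iff.mpr fun x => measurable_pi_apply _
  let a : GG T := ι T (pt hd z)
  let b : Fin d → ZMod 2 := fun i => (z i : ZMod 2)
  have key : (fun (c : (Fin d → ℤ) → ENNReal) (x : Fin d → ℤ) => c (x + z)) ∘ Γ T hd =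
      Γ T hd ∘ Prod.map (fun g => g + a) (fun e => e + b) := by
    funext ω x
    have hon : on ω.2 (x + z) ↔ on (ω.2 + b) x := by
      unfold on
      refine forall_congr' fun i => forall_congr' fun _ => ?_
      have h : ((x + z) i : ZMod 2) + ω.2 i = (x i : ZMod 2) + (ω.2 + b) i := by
        rw [Pi.add_apply, Pi.add_apply, Int.cast_add]
        show _ = (x i : ZMod 2) + (ω.2 i + (z i : ZMod 2))
        ring
      rw [h]
    have hpt : ω.1 + ι T (pt hd (x + z)) = ω.1 + a + ι T (pt hd x) := by
      rw [pt_add, map_add]
      show _ = ω.1 + ι T (pt hd z) + ι T (pt hd x)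
      abel
    show (if on ω.2 (x + z) then cc T (ω.1 + ι T (pt hd (x + z))) else 0) =
      if on (ω.2 + b) x then cc T (ω.1 + a + ι T (pt hd x)) else 0
    rw [hpt]
    exact if_congr hon rfl rfl
  have hp : MeasurePreserving (Prod.map (fun g => g + a) (fun e => e + b))
      ((μG T).prod (ν d)) ((μG T).prod (ν d)) :=
    (measurePreserving_add_right _ a).prod (measurePreserving_add_right _ b)
  unfold law
  rw [Measure.map_map hm (measurable_Γ T hd), key,
    ← Measure.map_map (measurable_Γ T hd) hp.measurable, hp.map_eq]

end ES
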