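import Pool.Agent.H75.ES.Mean

/-!
Job ES-D2: the mean of the initial content is finite.

Fatou (`lintegral_liminf_le`, measurability from `measurable_lev`): `∫⁻ cc ≤ liminf_k ∫⁻ F_k` with
`F_k g = ofReal (pr T (info T k (cu) (cv) (cw)) 0)`. `lintegral_lev` with
`F u v w = ofReal (pr T (info T k u v w) 0)` and `pr_nonneg` (`ENNReal.ofReal_sum_of_nonneg`) give
`∫⁻ F_k = (X k * Y k * Z k)⁻¹ * ofReal (Wt T k) ≤ ofReal C` by `Wt_le`. Then
`liminf_le_of_frequently_le` (or `Filter.liminf_le_liminf` with a constant) and `ENNReal.ofReal_lt_top`.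
-/

open MeasureTheory Filter Topology

namespace ES

variable (T : Tower)

theorem lintegral_cc_lt_top : ∫⁻ g, cc T g ∂(μG T) < ⊤ := by
  obtain ⟨C, hC, hW⟩ := Wt_le T
  have h1 : ∫⁻ g, cc T g ∂(μG T) ≤ liminf (fun k => ∫⁻ g, ENNReal.ofReal
      (pr T (info T k (cu T k g) (cv T k g) (cw T k g)) 0) ∂(μG T)) atTop :=
    lintegral_liminf_le fun k =>
      measurable_lev T k fun u v w => ENNReal.ofReal (pr T (info T k u v w) 0)
  have h2 : ∀ k, ∫⁻ g, ENNReal.ofReal
      (pr T (info T k (cu T k g) (cv T k g) (cw T k g)) 0) ∂(μG T) ≤ ENNReal.ofReal C := by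
    intro k
    rw [lintegral_lev T k (fun u v w => ENNReal.ofReal (pr T (info T k u v w) 0))]
    have e : ∑ u ∈ Finset.range (T.X k), ∑ v ∈ Finset.range (T.Y k),
        ∑ w ∈ Finset.range (T.Z k), ENNReal.ofReal (pr T (info T k u v w) 0) =
          ENNReal.ofReal (Wt T k) := by
      have hn : ∀ u v w : ℕ, 0 ≤ pr T (info T k u v w) 0 := fun u v w =>
        pr_nonneg (T := T) k (u : ℤ) (v : ℤ) (w : ℤ) 0
      rw [Wt, ENNReal.ofReal_sum_of_nonneg fun u _ => Finset.sum_nonneg fun v _ =>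
        Finset.sum_nonneg fun w _ => hn u v w]
      refine Finset.sum_congr rfl fun u _ => ?_
      rw [ENNReal.ofReal_sum_of_nonneg fun v _ => Finset.sum_nonneg fun w _ => hn u v w]
      refine Finset.sum_congr rfl fun v _ => ?_
      rw [ENNReal.ofReal_sum_of_nonneg fun w _ => hn u v w]
    rw [e]
    calc ((T.X k * T.Y k * T.Z k : ℕ) : ENNReal)⁻¹ * ENNReal.ofReal (Wt T k)
        ≤ ((T.X k * T.Y k * T.Z k : ℕ) : ENNReal)⁻¹ *
            (ENNReal.ofReal C * ((T.X k * T.Y k * T.Z k : ℕ) : ENNReal)) := by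
          gcongr
          rw [← ENNReal.ofReal_natCast, ← ENNReal.ofReal_mul hC]
          exact ENNReal.ofReal_le_ofReal (hW k)
      _ = ENNReal.ofReal C * (((T.X k * T.Y k * T.Z k : ℕ) : ENNReal) *
            ((T.X k * T.Y k * T.Z k : ℕ) : ENNReal)⁻¹) := by ring
      _ ≤ ENNReal.ofReal C * 1 := by
          gcongr
          exact ENNReal.mul_inv_le_one _
      _ = ENNReal.ofReal C := mul_one _
  have h3 : liminf (fun k => ∫⁻ g, ENNReal.ofReal
      (pr T (info T k (cu T k g) (cv T k g) (cw T k g)) 0) ∂(μG T)) atTop ≤ ENNReal.ofReal C :=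
    liminf_le_of_frequently_le' (Eventually.of_forall h2).frequently
  exact (h1.trans h3).trans_lt ENNReal.ofReal_lt_top

end ES
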