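import Pool.Agent.H75.ES.Lim
import Pool.Agent.H75.ES.StrAll

/-!
Job ES-D3a: every good orbit carries something.

Choose `K` with `good T k g` for all `k ≥ K` (`GS_ev`) and `x : ℤ × ℤ × ℤ` with
`tw K x = (m K - cu K g, 1 - cv K g, - cw K g)` (`tw K` is an involution). Let `g' = g + ι T x`. Show
by induction on `k ≥ K`:
 (a) `cu k g' = cu k g + (tw k x).1`, `cv k g' = cv k g + (tw k x).2.1`, `cw k g' = cw k g + x.2.2`,
 (b) `info T k (cu k g') (cv k g') (cw k g') ≠ none`.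
`k = K`: `cu_add` etc. and `Int.emod_eq_of_lt` (`m K < X K`, `1 < Y K`, `0 < Z K`); (b) is `Str.root`.
`k → k + 1` (write `good T k g` as `m k ≤ cv (k+1) g`, `cw (k+1) g < Y k * Z k`,
`m (k+1) + 2 m k ≤ cu (k+1) g`, `cu (k+1) g + 1 < m (k+1) + B k`): `(tw (k+1) x).1 = (tw k x).2.1` and
`(tw (k+1) x).2.1 = (tw k x).1`. By (a), `|(tw k x).2.1| < Y k ≤ m k`, so
`0 ≤ cu (k+1) g + (tw (k+1) x).1 < X (k+1)` (`T.X_succ`), no wrap-around in `cu_add`.
`cv (k+1) g' = cu k g'` and `cv (k+1) g = cu k g` (`cu_eq`). With `j = cw (k+1) g / Z k`,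
`cw (k+1) g = Z k * j + cw k g` (`cw_eq`), `0 ≤ j < Y k`, so `cw (k+1) g + x.2.2 = Z k * j + cw k g'` is
in `[0, Y k * Z k)`, no wrap-around in `cw_add`. Similarly `cu (k+1) g = Y k * κ + cv k g`
(`cv_eq`), `cu (k+1) g' = Y k * κ + cv k g'`. (b): `info_cell` with `v' = cv k g'`, `w' = cw k g'`,
`v = cv (k+1) g' = cu k g' ≥ m k` by `Str.supp` at level `k`; the four conditions follow from the
bounds in `good T k g`.
Finally `g' ∈ GS T` (`GS_add`), so `Inf T g' = II T k g'` for large `k` (`eventually_Inf_eq`), which is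
not `none` by (b).
-/

open MeasureTheory Filter Topology

namespace ES

variable (T : Tower)

theorem posa_tw_tw (k : ℕ) (x : ℤ × ℤ × ℤ) : tw k (tw k x) = x := by
  by_cases h : Even k <;> simp [tw, h]

theorem posa_tw_succ1 (k : ℕ) (x : ℤ × ℤ × ℤ) : (tw (k + 1) x).1 = (tw k x).2.1 := by
  by_cases h : Even k <;> simp [tw, h, Nat.even_add_one]

theorem posa_tw_succ2 (k : ℕ) (x : ℤ × ℤ × ℤ) : (tw (k + 1) x).2.1 = (tw k x).1 := by
  by_cases h : Even k <;> simp [tw, h, Nat.even_add_one]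

theorem posa_tw_3 (k : ℕ) (x : ℤ × ℤ × ℤ) : (tw k x).2.2 = x.2.2 := by
  by_cases h : Even k <;> simp [tw, h]

theorem posa_step {g : GG T} {x : ℤ × ℤ × ℤ} {k : ℕ} (hg : good T k g)
    (a1 : cu T k (g + ι T x) = cu T k g + (tw k x).1)
    (a2 : cv T k (g + ι T x) = cv T k g + (tw k x).2.1)
    (a3 : cw T k (g + ι T x) = cw T k g + x.2.2)
    (b : info T k (cu T k (g + ι T x)) (cv T k (g + ι T x)) (cw T k (g + ι T x)) ≠ none) :
    cu T (k + 1) (g + ι T x) = cu T (k + 1) g + (tw (k + 1) x).1 ∧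
    cv T (k + 1) (g + ι T x) = cv T (k + 1) g + (tw (k + 1) x).2.1 ∧
    cw T (k + 1) (g + ι T x) = cw T (k + 1) g + x.2.2 ∧
    info T (k + 1) (cu T (k + 1) (g + ι T x)) (cv T (k + 1) (g + ι T x))
      (cw T (k + 1) (g + ι T x)) ≠ none := by
  obtain ⟨h1, h2, h3, h4⟩ := hg
  obtain ⟨r, hr⟩ := Option.ne_none_iff_exists'.mp b
  obtain ⟨s1, s2, s3, s4, s5, s6⟩ := (Str.all T k).supp _ _ _ _ hr
  have hY := T.three_le_Y k
  have hZ := T.four_le_Z k
  have hm : (T.m k : ℤ) = T.Y k * T.Z k := by rw [T.m_eq]; push_cast; ring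
  have hY3 : (T.Y k : ℤ) * 4 ≤ T.Y k * T.Z k := by
    apply mul_le_mul_of_nonneg_left _ (by omega); exact_mod_cast hZ
  have hv0 := cv_nonneg T k g
  have hv1 := cv_lt T k g
  have hw0 := cw_nonneg T k g
  have hw1 := cw_lt T k g
  have hW0 := cw_nonneg T (k + 1) g
  have hX : (T.X (k + 1) : ℤ) = T.m (k + 1) + T.B k + 2 * T.m k := by
    rw [T.X_succ]; push_cast; ring
  have hZ1 : (T.Z (k + 1) : ℤ) = T.Y k * T.Z k + T.Z k := by
    rw [T.Z_succ]; push_cast; ring
  have eu := Int.mul_ediv_add_emod (cu T (k + 1) g) (T.Y k)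
  have ew := Int.mul_ediv_add_emod (cw T (k + 1) g) (T.Z k)
  rw [← cv_eq T k g] at eu
  rw [← cw_eq T k g] at ew
  set κ : ℤ := cu T (k + 1) g / T.Y k with hκ
  set j : ℤ := cw T (k + 1) g / T.Z k with hj
  have hj0 : 0 ≤ j := Int.ediv_nonneg hW0 (by omega)
  have hj1 : j < T.Y k := by
    rw [hj]
    apply Int.ediv_lt_of_lt_mul (by omega)
    exact h2
  have hzj : 0 ≤ (T.Z k : ℤ) * j := mul_nonneg (by omega) hj0
  have hzj1 : (T.Z k : ℤ) * j ≤ T.Y k * T.Z k - T.Z k := by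
    have : (T.Z k : ℤ) * j ≤ T.Z k * (T.Y k - 1) := by
      apply mul_le_mul_of_nonneg_left _ (by omega); omega
    have e : (T.Z k : ℤ) * (T.Y k - 1) = T.Y k * T.Z k - T.Z k := by ring
    omega
  have c1 : cu T (k + 1) (g + ι T x) = cu T (k + 1) g + (tw (k + 1) x).1 := by
    rw [cu_add, posa_tw_succ1]
    apply Int.emod_eq_of_lt <;> omega
  have c2 : cv T (k + 1) (g + ι T x) = cu T k (g + ι T x) := (cu_eq T k _).symm
  have c3 : cw T (k + 1) (g + ι T x) = cw T (k + 1) g + x.2.2 := by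
    rw [cw_add, posa_tw_3]
    apply Int.emod_eq_of_lt <;> omega
  refine ⟨c1, ?_, c3, ?_⟩
  · rw [c2, a1, posa_tw_succ2, cu_eq T k g]
  · have d1 : cu T (k + 1) (g + ι T x) = T.Y k * κ + cv T k (g + ι T x) := by
      rw [c1, posa_tw_succ1]; omega
    have d3 : cw T (k + 1) (g + ι T x) = T.Z k * j + cw T k (g + ι T x) := by
      rw [c3]; omega
    rw [d1, c2, d3, info_cell T k s1 (by omega) s4 s5 (by omega), if_pos, hr]
    · simp
    · refine ⟨hj0, hj1, ?_, ?_⟩ <;> omega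

theorem exists_some {g : GG T} (hg : g ∈ GS T) : ∃ x, Inf T (g + ι T x) ≠ none := by
  obtain ⟨K, hK⟩ := eventually_atTop.mp (GS_ev T hg)
  set y : ℤ × ℤ × ℤ := ((T.m K : ℤ) - cu T K g, 1 - cv T K g, - cw T K g) with hy
  refine ⟨tw K y, ?_⟩
  set x : ℤ × ℤ × ℤ := tw K y with hx
  have hxy : tw K x = y := posa_tw_tw K y
  have hx3 : x.2.2 = - cw T K g := by rw [hx, posa_tw_3]
  have hY := T.three_le_Y K
  have hZ := T.four_le_Z K
  have hmX := T.m_lt_X K
  have key : ∀ k, K ≤ k →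
      cu T k (g + ι T x) = cu T k g + (tw k x).1 ∧
      cv T k (g + ι T x) = cv T k g + (tw k x).2.1 ∧
      cw T k (g + ι T x) = cw T k g + x.2.2 ∧
      info T k (cu T k (g + ι T x)) (cv T k (g + ι T x)) (cw T k (g + ι T x)) ≠ none := by
    intro k hk
    induction k, hk using Nat.le_induction with
    | base =>
      have c1 : cu T K (g + ι T x) = T.m K := by
        rw [cu_add, hxy]
        simp only [hy]
        rw [add_sub_cancel, Int.emod_eq_of_lt (by omega) (by omega)]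
      have c2 : cv T K (g + ι T x) = 1 := by
        rw [cv_add, hxy]
        simp only [hy]
        rw [add_sub_cancel, Int.emod_eq_of_lt (by omega) (by omega)]
      have c3 : cw T K (g + ι T x) = 0 := by
        rw [cw_add, hxy]
        simp only [hy]
        rw [add_neg_cancel, Int.zero_emod]
      refine ⟨?_, ?_, ?_, ?_⟩
      · rw [c1, hxy]; simp only [hy]; ring
      · rw [c2, hxy]; simp only [hy]; ring
      · rw [c3, hx3]; ring
      · rw [c1, c2, c3, (Str.all T K).root]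
        simp
    | succ n hn ih =>
      obtain ⟨i1, i2, i3, i4⟩ := ih
      exact posa_step T (hK n hn) i1 i2 i3 i4
  obtain ⟨N, hN⟩ := eventually_atTop.mp (eventually_Inf_eq T (GS_ev T (GS_add T hg x)))
  rw [hN (max K N) (le_max_right _ _), II]
  have := (key (max K N) (le_max_left _ _)).2.2.2
  intro h
  exact this (by simpa using h)

end ES
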