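import Pool.Agent.H75.ES.Mean
import Pool.Agent.H75.ES.PosA
import Pool.Agent.H75.ES.GoodC

/-!
Job ES-D3b: the mean of the initial content is positive.

Otherwise `cc T = 0` a.e. (`lintegral_eq_zero_iff`, `measurable_cc`), and by invariance of the Haar
measure of the commutative group `GG T` (right translation by `ι T x`: quasi measure preserving)
`cc T (g + ι T x) = 0` for a.e. `g`, for every `x`, hence (`ae_all_iff`, countably many `x`) for a.e.
`g` for all `x`. By `ae_GS` and `μG T ≠ 0` there is such a `g` in `GS T`; by `exists_some` there is `x` with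
`Inf T (g + ι T x) = some (t, d)`; `GS_add`, `cc_eq` give `cc T (g + ι T x) = ofReal (prof T t 0)`. As
`Inf = II T k` for some `k` (`eventually_Inf_eq`), `t` is `Valid` by `info_valid`, so `prof T t 0 > 0` by
`prof_pos`. Contradiction.

Status: complete (helper26).
-/

open MeasureTheory Filter Topology

namespace ES

variable (T : Tower)

theorem posB_quasi (x : GG T) {p : GG T → Prop} (h : ∀ᵐ g ∂(μG T), p g) :
    ∀ᵐ g ∂(μG T), p (g + x) :=
  (measurePreserving_add_right (μG T) x).quasiMeasurePreserving.ae h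

theorem lintegral_cc_pos : 0 < ∫⁻ g, cc T g ∂(μG T) := by
  rw [pos_iff_ne_zero]
  intro h0
  have h1 : ∀ᵐ g ∂(μG T), cc T g = 0 := (lintegral_eq_zero_iff (measurable_cc T)).1 h0
  have h2 : ∀ x : ℤ × ℤ × ℤ, ∀ᵐ g ∂(μG T), cc T (g + ι T x) = 0 :=
    fun x => posB_quasi T (ι T x) (p := fun g => cc T g = 0) h1
  have h3 := ae_all_iff.2 h2
  have h4 := ae_GS T
  obtain ⟨g, hg3, hg4⟩ := (h3.and h4).exists
  obtain ⟨x, hx⟩ := exists_some T hg4
  have h5 := GS_add T hg4 x
  have h6 := cc_eq T h5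
  have h7 := hg3 x
  obtain ⟨⟨t, d⟩, htd⟩ := Option.ne_none_iff_exists'.1 hx
  rw [h6, htd] at h7
  obtain ⟨k, hk⟩ := (eventually_Inf_eq T (GS_ev T h5)).exists
  have h8 : II T k (g + ι T x) = some (t, d) := hk.symm.trans htd
  rw [II, Option.map_eq_some_iff] at h8
  obtain ⟨⟨t', d'⟩, h9, h10⟩ := h8
  have h11 : t' = t := congrArg Prod.fst h10
  subst h11
  have h12 : 0 < prof T t' 0 := prof_pos (info_valid h9)
  have h13 : ∀ r : Tag × Dir, pr T (some r) 0 = prof T r.1 0 := fun r => rfl
  rw [ENNReal.ofReal_eq_zero, h13] at h7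
  exact absurd h12 (not_lt_of_ge h7)

end ES
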