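import Pool.Agent.H75.ES.LawB
import Pool.Agent.H75.ES.MeanB
import Pool.Agent.H75.ES.PosB

/-!
Job ES-E7: the mean of the random configuration is positive and finite.

`∫⁻ c, c x ∂law = ∫⁻ ω, Γ T hd ω x ∂(μG.prod ν)` (`lintegral_map`, `measurable_pi_apply`, `measurable_Γ`)
and `Γ T hd ω x = (if on ω.2 x then 1 else 0) * cc T (ω.1 + ι T (pt hd x))`, so the integral is the product
(`lintegral_prod_mul` or Tonelli) of `ν {e | on e x}` and `∫⁻ cc T (g + ι T (pt hd x)) = ∫⁻ cc T g`
(`lintegral_add_right_eq_self`). The first factor is at most `1` and positive: the set contains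
`fun i => -(x i : ZMod 2)`, and every nonempty set is open and of positive measure
(`IsOpenPosMeasure`, discrete topology).
-/

open MeasureTheory Filter Topology MP_37d2f2_pr

namespace ES

variable (T : Tower) {d : ℕ} (hd : 3 ≤ d)

theorem measurable_of_e (x : Fin d → ℤ) :
    Measurable (fun e : Fin d → ZMod 2 => (if on e x then (1 : ENNReal) else 0)) :=
  measurable_of_finite _

theorem measurable_add_ι (y : ℤ × ℤ × ℤ) : Measurable (fun g : GG T => g + ι T y) :=
  (continuous_id.add continuous_const).measurable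

theorem lintegral_law (x : Fin d → ℤ) :
    ∫⁻ c, c x ∂(law T hd) =
      (∫⁻ g, cc T g ∂(μG T)) * ∫⁻ e, (if on e x then (1 : ENNReal) else 0) ∂(ν d) := by
  have h1 : ∫⁻ c, c x ∂(law T hd) = ∫⁻ ω, Γ T hd ω x ∂((μG T).prod (ν d)) := by
    rw [law, lintegral_map (measurable_pi_apply x) (measurable_Γ T hd)]
  have h2 : ∀ ω : GG T × (Fin d → ZMod 2), Γ T hd ω x =
      cc T (ω.1 + ι T (pt hd x)) * (if on ω.2 x then (1 : ENNReal) else 0) := by
    intro ω
    rw [Γ]
    split_ifs <;> simp
  rw [h1, lintegral_congr h2]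
  rw [lintegral_prod_mul (μ := μG T) (ν := ν d)
    (f := fun g => cc T (g + ι T (pt hd x)))
    (g := fun e => (if on e x then (1 : ENNReal) else 0))
    ((measurable_cc T).comp (measurable_add_ι T _)).aemeasurable
    (measurable_of_e x).aemeasurable]
  congr 1
  have : (μG T).IsAddRightInvariant := inferInstance
  exact lintegral_add_right_eq_self (μ := μG T) (cc T) (ι T (pt hd x))

theorem on_neg (x : Fin d → ℤ) : on (fun i => -((x i : ℤ) : ZMod 2)) x := by
  intro i _
  exact add_neg_cancel _

theorem law_mean_lt (x : Fin d → ℤ) : ∫⁻ c, c x ∂(law T hd) < ⊤ := by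
  rw [lintegral_law]
  refine ENNReal.mul_lt_top (lintegral_cc_lt_top T) ?_
  refine lt_of_le_of_lt (lintegral_mono (g := fun _ => 1) ?_) ?_
  · intro e
    dsimp only
    split_ifs
    · exact le_refl _
    · exact bot_le
  · rw [lintegral_one, measure_univ]
    exact ENNReal.one_lt_top

theorem law_mean_pos (x : Fin d → ℤ) : 0 < ∫⁻ c, c x ∂(law T hd) := by
  rw [lintegral_law]
  refine ENNReal.mul_pos (lintegral_cc_pos T).ne' ?_
  have hs : (ν d) {fun i => -((x i : ℤ) : ZMod 2)} ≠ 0 :=
    (isOpen_discrete _).measure_ne_zero _ (Set.singleton_nonempty _)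
  intro h0
  rw [lintegral_eq_zero_iff (measurable_of_e x)] at h0
  have h1 : (ν d) {e | ¬ (if on e x then (1 : ENNReal) else 0) = 0} = 0 := h0
  apply hs
  refine measure_mono_null ?_ h1
  intro e he
  rw [Set.mem_singleton_iff] at he
  subst he
  show ¬ _
  rw [if_pos (on_neg x)]
  exact one_ne_zero

end ES
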