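import Pool.Agent.H75.ES.Good

/-! The infinite structure (definitions, helper75). -/

open MeasureTheory Filter Topology

namespace ES

variable (T : Tower)

/-- exchange of the first two directions for odd `k` -/
def twd (k : ℕ) (d : Dir) : Dir := if Even k then d else d.swap

/-- the vector of a direction -/
def vec (d : Dir) : ℤ × ℤ × ℤ := (d.x, d.y, d.z)

/-- the structure seen at level `k` -/
def II (k : ℕ) (g : GG T) : Option (Tag × Dir) :=
  (info T k (cu T k g) (cv T k g) (cw T k g)).map fun r => (r.1, twd k r.2)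

/-- the structure at the point `g` -/
noncomputable def Inf (g : GG T) : Option (Tag × Dir) := by
  classical
  exact if h : ∃ K, ∀ k, K ≤ k → good T k g then II T (Nat.find h) g else none

theorem twd_succ (k : ℕ) (d : Dir) : twd (k + 1) d.swap = twd k d := by
  by_cases h : Even k <;> cases d <;> simp [twd, h, Nat.even_add_one, Dir.swap]

theorem twd_twd (k : ℕ) (d : Dir) : twd k (twd k d) = d := by
  by_cases h : Even k <;> cases d <;> simp [twd, h, Dir.swap]

theorem tw_vec (k : ℕ) (d : Dir) : tw k (vec d) = vec (twd k d) := by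
  by_cases h : Even k <;> cases d <;> simp [twd, tw, vec, h, Dir.swap, Dir.x, Dir.y, Dir.z]

/-- if the point is good at level `k` then the levels `k` and `k + 1` agree -/
theorem II_succ {k : ℕ} {g : GG T} (hg : good T k g) : II T (k + 1) g = II T k g := by
  obtain ⟨h1, h2, h3, h4⟩ := hg
  have hY := T.three_le_Y k
  have hZ := T.four_le_Z k
  have hw0 := cw_nonneg T (k + 1) g
  have hu0 := cu_nonneg T (k + 1) g
  have hm : (T.m k : ℤ) = T.Y k * T.Z k := by rw [T.m_eq]; push_cast; ring
  have a1 : 0 ≤ cu T (k + 1) g % (T.Y k : ℤ) := Int.emod_nonneg _ (by omega)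
  have a2 : cu T (k + 1) g % (T.Y k : ℤ) < T.Y k := Int.emod_lt_of_pos _ (by omega)
  have a3 : 0 ≤ cw T (k + 1) g % (T.Z k : ℤ) := Int.emod_nonneg _ (by omega)
  have a4 : 0 ≤ (T.Z k : ℤ) * (cw T (k + 1) g / T.Z k) :=
    mul_nonneg (by omega) (Int.ediv_nonneg hw0 (by omega))
  have eu := Int.mul_ediv_add_emod (cu T (k + 1) g) (T.Y k)
  have ew := Int.mul_ediv_add_emod (cw T (k + 1) g) (T.Z k)
  have hY2 : (3 : ℤ) * T.Z k ≤ T.Y k * T.Z k := by
    apply mul_le_mul_of_nonneg_right _ (by omega); exact_mod_cast hY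
  have hY3 : (T.Y k : ℤ) * 4 ≤ T.Y k * T.Z k := by
    apply mul_le_mul_of_nonneg_left _ (by omega); exact_mod_cast hZ
  rw [II, II, info_sub T k h1, if_pos]
  · rw [← cu_eq T k g, ← cv_eq T k g, ← cw_eq T k g]
    cases info T k (cu T k g) (cv T k g) (cw T k g) with
    | none => rfl
    | some r => simp [twd_succ]
  · refine ⟨hw0, h2, ?_, ?_⟩ <;> omega

theorem II_eq {K k : ℕ} {g : GG T} (hg : ∀ j, K ≤ j → good T j g) (hk : K ≤ k) :
    II T k g = II T K g := by
  induction k, hk using Nat.le_induction with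
  | base => rfl
  | succ n hn ih => rw [II_succ T (hg n hn), ih]

/-- the limit is attained at all high levels -/
theorem Inf_eq {K k : ℕ} {g : GG T} (hg : ∀ j, K ≤ j → good T j g) (hk : K ≤ k) :
    Inf T g = II T k g := by
  classical
  have h : ∃ K, ∀ k, K ≤ k → good T k g := ⟨K, hg⟩
  rw [Inf, dif_pos h, II_eq T hg hk]
  rcases le_total K (Nat.find h) with h' | h'
  · exact II_eq T hg h'
  · exact (II_eq T (Nat.find_spec h) h').symm

theorem eventually_Inf_eq {g : GG T} (hg : ∀ᶠ k in atTop, good T k g) :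
    ∀ᶠ k in atTop, Inf T g = II T k g := by
  obtain ⟨K, hK⟩ := eventually_atTop.mp hg
  exact eventually_atTop.mpr ⟨K, fun k hk => Inf_eq T hK hk⟩

theorem GS_add {g : GG T} (hg : g ∈ GS T) (x : ℤ × ℤ × ℤ) : g + ι T x ∈ GS T := by
  intro y
  have := hg (x + y)
  rwa [map_add, ← add_assoc] at this

theorem GS_ev {g : GG T} (hg : g ∈ GS T) : ∀ᶠ k in atTop, good T k g := by
  have := hg 0
  rwa [map_zero, add_zero] at this

end ES
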