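import Pool.Agent.H75.ES.Lim

/-!
Job ES-D1a: no wrap-around at high levels.

`tw_vec : tw k (vec δ) = vec (twd k δ)`; by `cu_add`, `cv_add`, `cw_add` it is enough that for all large
`k`: `cu k g + 1 < X k`, `cv k g + 1 < Y k`, `cw k g + 1 < Z k` (all coordinates of `vec` are `0` or `1`).
`good T (k-1) g` says `cu k g + 1 < m k + B (k-1) ≤ X k` (`T.X_succ`) and
`cw k g < Y (k-1) * Z (k-1)`, so `cw k g + 1 < (Y (k-1) + 1) * Z (k-1) = Z k`; and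
`cv k g = cu (k-1) g % Y (k-1) ..`: better `cu_eq : cu T (k-1) g = cv T k g` and `Y k = X (k-1)`, so
`good T (k-2) g` gives `cv k g + 1 = cu (k-1) g + 1 < X (k-1) = Y k`.
-/

open MeasureTheory Filter Topology

namespace ES

variable (T : Tower) {g : GG T}

theorem loca_fit {k : ℕ} (h0 : good T k g) (h1 : good T (k + 1) g) :
    cu T (k + 2) g + 1 < T.X (k + 2) ∧ cv T (k + 2) g + 1 < T.Y (k + 2) ∧
      cw T (k + 2) g + 1 < T.Z (k + 2) := by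
  obtain ⟨_, _, _, a4⟩ := h0
  obtain ⟨_, b2, _, b4⟩ := h1
  have hX1 : (T.X (k + 1) : ℤ) = T.m (k + 1) + T.B k + 2 * T.m k := by
    rw [T.X_succ]; push_cast; ring
  have hX2 : (T.X (k + 2) : ℤ) = T.m (k + 2) + T.B (k + 1) + 2 * T.m (k + 1) := by
    rw [T.X_succ (k + 1)]; push_cast; ring
  have hY2 : (T.Y (k + 2) : ℤ) = T.X (k + 1) := by rw [T.Y_succ (k + 1)]
  have hZ2 : (T.Z (k + 2) : ℤ) = T.Y (k + 1) * T.Z (k + 1) + T.Z (k + 1) := by
    rw [T.Z_succ (k + 1)]; push_cast; ring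
  have hZ := T.four_le_Z (k + 1)
  have e := cu_eq T (k + 1) g
  refine ⟨?_, ?_, ?_⟩
  · show cu T (k + 1 + 1) g + 1 < _
    rw [hX2]
    have : (T.m (k + 1 + 1) : ℤ) = T.m (k + 2) := rfl
    omega
  · rw [hY2]
    have : cv T (k + 2) g = cu T (k + 1) g := e.symm
    omega
  · rw [hZ2]
    show cw T (k + 1 + 1) g + 1 < _
    omega

theorem loca_dir (d : Dir) : (0 ≤ d.x ∧ d.x ≤ 1) ∧ (0 ≤ d.y ∧ d.y ≤ 1) ∧ (0 ≤ d.z ∧ d.z ≤ 1) := by
  cases d <;> simp [Dir.x, Dir.y, Dir.z]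

theorem shift_coord (hg : ∀ᶠ k in atTop, good T k g) (δ : Dir) : ∀ᶠ k in atTop,
    cu T k (g + ι T (vec δ)) = cu T k g + (twd k δ).x ∧
    cv T k (g + ι T (vec δ)) = cv T k g + (twd k δ).y ∧
    cw T k (g + ι T (vec δ)) = cw T k g + (twd k δ).z := by
  obtain ⟨K, hK⟩ := eventually_atTop.mp hg
  refine eventually_atTop.mpr ⟨K + 2, fun n hn => ?_⟩
  obtain ⟨k, rfl⟩ : ∃ k, n = k + 2 := ⟨n - 2, by omega⟩
  obtain ⟨f1, f2, f3⟩ := loca_fit T (hK k (by omega)) (hK (k + 1) (by omega))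
  obtain ⟨⟨d1, d2⟩, ⟨d3, d4⟩, ⟨d5, d6⟩⟩ := loca_dir (twd (k + 2) δ)
  have n1 := cu_nonneg T (k + 2) g
  have n2 := cv_nonneg T (k + 2) g
  have n3 := cw_nonneg T (k + 2) g
  refine ⟨?_, ?_, ?_⟩
  · rw [cu_add, tw_vec]
    exact Int.emod_eq_of_lt (by simp only [vec]; omega) (by simp only [vec]; omega)
  · rw [cv_add, tw_vec]
    exact Int.emod_eq_of_lt (by simp only [vec]; omega) (by simp only [vec]; omega)
  · rw [cw_add, tw_vec]
    exact Int.emod_eq_of_lt (by simp only [vec]; omega) (by simp only [vec]; omega)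

end ES
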