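import Pool.Agent.H75.ES.LawA
import Pool.Agent.H75.ES.LawC
import Pool.Agent.H75.ES.DetB
import Pool.Agent.H75.ES.Exist

/-! Final assembly (helper75). -/

open MeasureTheory Filter Topology

namespace MP_37d2f2_pr

theorem escape (d : ℕ) (hd : 3 ≤ d) :
    ∃ μ : Measure ((Fin d → ℤ) → ENNReal), IsProbabilityMeasure μ ∧
      (∀ z : Fin d → ℤ, μ.map (fun c x => c (x + z)) = μ) ∧
      ∀ (Ω : Type) [MeasurableSpace Ω] (P : Measure Ω) (C : ℕ → Ω → (Fin d → ℤ) → ENNReal)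
        (a : ℕ → Ω → (Fin d → ℤ) → (Fin d → ℤ)),
        Measurable (C 0) → P.map (C 0) = μ →
        (∀ᵐ ω ∂P, IsRun (fun n => C n ω) (fun n => a n ω)) →
        ∃ Cinf : Ω → (Fin d → ℤ) → ENNReal,
          (∀ᵐ ω ∂P, ∀ x, Tendsto (fun n => C n ω x) atTop (𝓝 (Cinf ω x))) ∧
          ∀ x, ∫⁻ ω, Cinf ω x ∂P < ∫⁻ ω, C 0 ω x ∂P ∧ ∫⁻ ω, C 0 ω x ∂P < ⊤ := by
  obtain ⟨T⟩ := ES.exists_tower
  refine ⟨ES.law T hd, ES.law_prob T hd, ES.law_shift T hd, ?_⟩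
  intro Ω _ P C a hC hP hrun
  have hx : ∀ x, ∫⁻ ω, C 0 ω x ∂P = ∫⁻ c, c x ∂(ES.law T hd) := by
    intro x
    rw [← hP, lintegral_map (measurable_pi_apply x) hC]
  refine ⟨fun _ _ => 0, ?_, ?_⟩
  · have hQ : ∀ᵐ ω ∂P, QQ (C 0 ω) := by
      have := ES.law_QQ T hd
      rw [← hP] at this
      exact ae_of_ae_map hC.aemeasurable this
    filter_upwards [hQ, hrun] with ω h1 h2 x
    obtain ⟨N, hN⟩ := h1.2 x
    refine tendsto_const_nhds.congr' ?_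
    filter_upwards [eventually_ge_atTop N] with n hn
    have := IsRun.eq_FF h1 h2 rfl n
    rw [this]
    exact (hN n hn).symm
  · intro x
    rw [hx x]
    refine ⟨?_, ES.law_mean_lt T hd x⟩
    simpa using ES.law_mean_pos T hd x

end MP_37d2f2_pr
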