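import Pool.Agent.H75.ES.WtC
import Pool.Agent.H75.ES.LocA

/-! The initial content at a point of the group (definition, helper75). -/

open MeasureTheory Filter Topology

namespace ES

variable (T : Tower)

/-- the initial content at the point `g` -/
noncomputable def cc (g : GG T) : ENNReal :=
  liminf (fun k => ENNReal.ofReal (pr T (info T k (cu T k g) (cv T k g) (cw T k g)) 0)) atTop

theorem pr_II (k : ℕ) (g : GG T) (n : ℕ) :
    pr T (II T k g) n = pr T (info T k (cu T k g) (cv T k g) (cw T k g)) n := by
  rw [II]
  cases info T k (cu T k g) (cv T k g) (cw T k g) <;> rfl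

theorem measurable_cc : Measurable (cc T) :=
  Measurable.liminf fun k => measurable_lev T k fun u v w => ENNReal.ofReal (pr T (info T k u v w) 0)

theorem cc_eq {g : GG T} (hg : g ∈ GS T) : cc T g = ENNReal.ofReal (pr T (Inf T g) 0) := by
  have h : Tendsto (fun k => ENNReal.ofReal (pr T (info T k (cu T k g) (cv T k g) (cw T k g)) 0))
      atTop (𝓝 (ENNReal.ofReal (pr T (Inf T g) 0))) := by
    refine tendsto_const_nhds.congr' ?_
    filter_upwards [eventually_Inf_eq T (GS_ev T hg)] with k hk
    rw [hk, pr_II]
  exact h.liminf_eq

end ES
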