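import Pool.Agent.H75.ES.InfoL

/-!
Job ES-C4: the profiles of the vertices of a tower.

`T.dec k : Dec (T.f k) (T.h k)`, `T.twelve_le_m`, `T.B_pos`, `T.f_succ`, `T.m_eq` are in `Tow.lean`,
the facts on `ph`, `PP` in `SeqA.lean`, `SeqB.lean`, `SeqC.lean`.
* `prof_root`: `k = 0` by definition, `k = l + 1`: `prof T (t (l+1) 0) = PP .. 0 = T.f (l+1)` by
  `T.f_succ`.
* `rel_lt`: cases of `Rel`: trunk = `PP_lt`, side = `ph_lt_PP`, stem = `((T.dec l).ph _).dec (i + n)`
  (`0 < ph (i+n+1) → ph (i+n+1) < ph (i+n)`), root: `T.f l n = ph (m - 2 + 1 + n)` (`ph_root`),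
  then as for stem; `prof T (t l 0) = T.f l` by `prof_root`.
* `prof_pos`: `t 0`: `T.f 0 = (T.init) fun n => if n = 0 then 1 else 0` (or `T.dec 0`), `t (l+1)`:
  `PP_pos`, `s l i` with `i + 2 ≤ m`: the first case in the definition of `ph`, `f 0 > 0`.
* `prof_nonneg`: `PP_nonneg`, `Dec.nonneg`.
* `prof_zero`: `t 0`, `s`: `Dec.zero`; `t (l+1) i`: for `n ≥ B + m + h`:
  `PP i n = Ph n - Ph (i + n - B) = RR - RR = 0` by `Ph_eq_RR`.
-/

namespace ES

variable (T : Tower)

/-- the indices which really occur -/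
def Valid : Tag → Prop
  | Tag.t 0 i => i = 0
  | Tag.t (l + 1) i => i < T.B l
  | Tag.s l i => 1 ≤ i ∧ i + 2 ≤ T.m l

theorem prof_root (k : ℕ) : prof T (Tag.t k 0) = T.f k := by
  cases k with
  | zero => rfl
  | succ l =>
    rw [T.f_succ l]
    rfl

theorem three_le_m (l : ℕ) : 3 ≤ T.m l := le_trans (by norm_num) (T.twelve_le_m l)

variable {T}

theorem rel_lt {p c : Tag} (h : Rel T p c) {n : ℕ} (hc : 0 < prof T c n) :
    prof T c n < prof T p n := by
  cases h with
  | trunk l i hi => exact PP_lt (T.dec l) (three_le_m T l) hi n hc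
  | side l i hi => exact ph_lt_PP (T.dec l) (three_le_m T l) hi n hc
  | stem l i hi =>
    have h1 : i + 1 + n = i + n + 1 := by omega
    have hc' : 0 < ph (T.f l) (T.m l) (i + 1 + n) := hc
    show ph (T.f l) (T.m l) (i + 1 + n) < ph (T.f l) (T.m l) (i + n)
    rw [h1] at hc' ⊢
    exact ((T.dec l).ph (three_le_m T l)).dec (i + n) hc'
  | root l =>
    rw [prof_root] at hc ⊢
    have h2 := ph_root (f := T.f l) (three_le_m T l) n
    have h1 : T.m l - 2 + 1 + n = T.m l - 2 + n + 1 := by omega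
    rw [h1] at h2
    show T.f l n < ph (T.f l) (T.m l) (T.m l - 2 + n)
    rw [← h2] at hc ⊢
    exact ((T.dec l).ph (three_le_m T l)).dec _ hc

theorem prof_nonneg {t : Tag} (h : Valid T t) (n : ℕ) : 0 ≤ prof T t n := by
  match t, h with
  | Tag.t 0 i, _ => exact (T.dec 0).nonneg n
  | Tag.t (l + 1) i, h => exact PP_nonneg (T.dec l) (three_le_m T l) h n
  | Tag.s l i, _ => exact ((T.dec l).ph (three_le_m T l)).nonneg _

theorem prof_pos {t : Tag} (h : Valid T t) : 0 < prof T t 0 := by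
  match t, h with
  | Tag.t 0 i, _ => exact (T.dec 0).pos
  | Tag.t (l + 1) i, h => exact PP_pos (T.dec l) (three_le_m T l) h
  | Tag.s l i, h =>
    show 0 < ph (T.f l) (T.m l) (i + 0)
    unfold ph
    rw [if_pos (by have := h.2; omega)]
    have := ph_pos_case (three_le_m T l) (i + 0) (by have := h.2; omega)
    linarith [(T.dec l).pos]

theorem prof_zero {t : Tag} (h : Valid T t) : ∃ N, ∀ n, N ≤ n → prof T t n = 0 := by
  match t, h with
  | Tag.t 0 i, _ => exact ⟨T.h 0, fun n hn => (T.dec 0).zero n hn⟩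
  | Tag.t (l + 1) i, _ =>
    refine ⟨T.B l + T.m l + T.h l, fun n hn => ?_⟩
    show PP (T.f l) (T.m l) (T.h l) (T.B l) i n = 0
    unfold PP
    rw [if_neg (by omega), Ph_eq_RR (T.dec l) (three_le_m T l) n (by omega),
      Ph_eq_RR (T.dec l) (three_le_m T l) (i + n - T.B l) (by omega), sub_self]
  | Tag.s l i, _ =>
    refine ⟨T.m l + T.h l, fun n hn => ?_⟩
    exact ((T.dec l).ph (three_le_m T l)).zero _ (by omega)

end ES
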