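import Mathlib

/-!
# MP_37d2f2_pr: the clustering dynamics on `ℤ^d`
-/

namespace MP_37d2f2_pr

/-- `Nbr x z` means `z ∈ N(x)`, i.e. the `ℓ¹` distance of `x` and `z` is at most one. -/
def Nbr {d : ℕ} (x z : Fin d → ℤ) : Prop := ∑ i, |x i - z i| ≤ 1

/-- `C n x` is the resource at `x` at time `n`, `a n x` the vertex to which `x` sends its
resource at time `n`: `a n x = x` if `C n x = 0`, and otherwise `a n x` is one of the vertices of
`N(x)` with the largest resource (ties may be broken in any way). -/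
structure IsRun {d : ℕ} (C : ℕ → (Fin d → ℤ) → ENNReal)
    (a : ℕ → (Fin d → ℤ) → (Fin d → ℤ)) : Prop where
  stay : ∀ n x, C n x = 0 → a n x = x
  near : ∀ n x, C n x ≠ 0 → Nbr x (a n x)
  max : ∀ n x, C n x ≠ 0 → ∀ z, Nbr x z → C n z ≤ C n (a n x)
  step : ∀ n x, C (n + 1) x = ∑' y, if a n y = x then C n y else 0

end MP_37d2f2_pr
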