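import Pool.Agent.H75.ES.Def

/-!
Job ES-A1: the stem profile.

* `Dec.anti`: `antitone_nat_of_succ_le`; `f (n+1) ≤ f n`: if `f (n+1) = 0` by `nonneg`, otherwise `dec`.
* `Dec.ph`: `ph j` is `f 0 + (m - 1 - j)/(m - 1)` for `j ≤ m - 2` and `f (j + 1 - m)` for `j ≥ m - 1`. At the
  boundary: `ph (m-2) = f 0 + 1/(m-1) > f 0 = ph (m-1)`. `zero`: `j ≥ m + h` implies `j + 1 - m ≥ h`.
* the other statements are direct computations (`split_ifs`, casts of natural numbers).
-/

namespace ES

variable {f : ℕ → ℝ} {m h : ℕ}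

theorem Dec.anti (H : Dec f h) : Antitone f := by
  refine antitone_nat_of_succ_le (fun n => ?_)
  by_cases h0 : 0 < f (n + 1)
  · exact (H.dec n h0).le
  · exact le_trans (not_lt.1 h0) (H.nonneg n)

theorem ph_pos_case (hm : 3 ≤ m) (j : ℕ) (hj : j + 2 ≤ m) :
    0 < ((m : ℝ) - 1 - j) / (m - 1) := by
  have h1 : ((j : ℝ) + 2) ≤ m := by exact_mod_cast hj
  have h2 : (3 : ℝ) ≤ m := by exact_mod_cast hm
  apply div_pos <;> linarith

theorem Dec.ph (H : Dec f h) (hm : 3 ≤ m) : Dec (ph f m) (m + h) := by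
  have h3 : (3 : ℝ) ≤ m := by exact_mod_cast hm
  refine ⟨fun n => ?_, ?_, fun n hn => ?_, fun n hn => ?_⟩
  · unfold ES.ph
    split_ifs with h1
    · have := ph_pos_case hm n h1
      linarith [H.pos]
    · exact H.nonneg _
  · unfold ES.ph
    rw [if_pos (by omega)]
    have := ph_pos_case hm 0 (by omega)
    linarith [H.pos]
  · unfold ES.ph at hn ⊢
    by_cases h1 : n + 1 + 2 ≤ m
    · rw [if_pos h1, if_pos (by omega)]
      have hlt : ((m : ℝ) - 1 - ((n + 1 : ℕ) : ℝ)) / (m - 1) < ((m : ℝ) - 1 - (n : ℝ)) / (m - 1) := by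
        apply div_lt_div_of_pos_right _ (by linarith)
        push_cast; linarith
      linarith
    · rw [if_neg h1] at hn ⊢
      by_cases h2 : n + 2 ≤ m
      · rw [if_pos h2]
        have h4 : n + 1 + 1 - m = 0 := by omega
        rw [h4]
        have := ph_pos_case hm n h2
        linarith
      · rw [if_neg h2]
        have h4 : n + 1 + 1 - m = (n + 1 - m) + 1 := by omega
        rw [h4] at hn ⊢
        exact H.dec _ hn
  · unfold ES.ph
    rw [if_neg (by omega)]
    exact H.zero _ (by omega)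

theorem ph_le (H : Dec f h) (hm : 3 ≤ m) (j : ℕ) : ES.ph f m j ≤ f 0 + 1 := by
  have h3 : (3 : ℝ) ≤ m := by exact_mod_cast hm
  unfold ES.ph
  split_ifs with h1
  · have : ((m : ℝ) - 1 - j) / (m - 1) ≤ 1 := by
      rw [div_le_one (by linarith)]
      have : (0 : ℝ) ≤ j := Nat.cast_nonneg j
      linarith
    linarith
  · have := H.anti (Nat.zero_le (j + 1 - m))
    linarith

theorem ph_zero (hm : 3 ≤ m) : ES.ph f m 0 = f 0 + 1 := by
  have h3 : (3 : ℝ) ≤ m := by exact_mod_cast hm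
  unfold ES.ph
  rw [if_pos (by omega)]
  have : ((m : ℝ) - 1 - ((0 : ℕ) : ℝ)) / (m - 1) = 1 := by
    rw [Nat.cast_zero, sub_zero]
    exact div_self (by linarith)
  rw [this]

/-- beyond the stem one sees the profile of the root of `T_k` -/
theorem ph_root (hm : 3 ≤ m) (n : ℕ) : ES.ph f m (m - 2 + 1 + n) = f n := by
  unfold ES.ph
  rw [if_neg (by omega)]
  congr 1
  omega

end ES
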