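import Pool.Agent.H75.ES.SeqA

/-!
Job ES-A2: the sums `Ph` and the recursion of the trunk profile.

* `Ph_succ`: `Finset.sum_range_succ`. `Ph_mono`, `Ph_nonneg`: `ph ≥ 0` by `(H.ph hm).nonneg`.
* `Ph_eq_RR`: `RR = Ph (m + h)`, and `ph (i + 1) = 0` for `i ≥ m + h` (`(H.ph hm).zero`).
* `PP_succ`: `i + (n+1) < B ↔ (i+1) + n < B`; in both cases of the definition the two sides agree
  because `Ph (n+1) = Ph n + ph (n+1)` (`push_cast`, `ring`; natural indices `i + (n+1) = (i+1) + n`).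
* `PP_last`: second case of the definition, `i + (n + 1) - B = n`.
-/

namespace ES

variable {f : ℕ → ℝ} {m h B : ℕ}

theorem Ph_succ (n : ℕ) : Ph f m (n + 1) = Ph f m n + ph f m (n + 1) := by
  unfold Ph
  rw [Finset.sum_range_succ]

theorem Ph_mono (H : Dec f h) (hm : 3 ≤ m) : Monotone (Ph f m) := by
  refine monotone_nat_of_le_succ (fun n => ?_)
  rw [Ph_succ]
  linarith [(H.ph hm).nonneg (n + 1)]

theorem Ph_nonneg (H : Dec f h) (hm : 3 ≤ m) (n : ℕ) : 0 ≤ Ph f m n :=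
  Finset.sum_nonneg (fun i _ => (H.ph hm).nonneg (i + 1))

theorem Ph_eq_RR (H : Dec f h) (hm : 3 ≤ m) (n : ℕ) (hn : m + h ≤ n) : Ph f m n = RR f m h := by
  induction n, hn using Nat.le_induction with
  | base => rfl
  | succ n hn ih =>
    rw [Ph_succ, ih, (H.ph hm).zero (n + 1) (by omega), add_zero]

theorem Ph_le_RR (H : Dec f h) (hm : 3 ≤ m) (n : ℕ) : Ph f m n ≤ RR f m h := by
  rw [← Ph_eq_RR H hm (max n (m + h)) (le_max_right _ _)]
  exact Ph_mono H hm (le_max_left _ _)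

theorem RR_nonneg (H : Dec f h) (hm : 3 ≤ m) : 0 ≤ RR f m h := Ph_nonneg H hm _

theorem PP_succ {i : ℕ} (hi : i + 1 < B) (n : ℕ) :
    PP f m h B i (n + 1) = PP f m h B (i + 1) n + ph f m (n + 1) := by
  have h1 : i + (n + 1) = i + 1 + n := by omega
  unfold PP
  rw [h1, Ph_succ]
  split_ifs with h2
  · push_cast; ring
  · ring

theorem PP_last {i : ℕ} (hi : i + 1 = B) (n : ℕ) : PP f m h B i (n + 1) = ph f m (n + 1) := by
  unfold PP
  rw [if_neg (by omega), Ph_succ]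
  have h1 : i + (n + 1) - B = n := by omega
  rw [h1]
  ring

end ES
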