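import Pool.Agent.H75.ES.SeqB

/-!
Job ES-A3: monotonicity of the trunk profiles.

Write `P = Ph f m`, `p = ph f m` (`H.ph hm : Dec p (m+h)`, so `p` is antitone and strictly decreasing while
positive), `R = RR f m h ≥ P n`. Recall `PP i n = f 0 + 1 + (R - P (i+n)) + (B-i-n)/B + P n` if `i + n < B`
(case I) and `PP i n = P n - P (i+n-B)` otherwise (case II; `i + n - B ≤ n` if `i < B`).
* `PP_nonneg`: clear. `PP_pos`: case I.
* `PP_lt`: (i+1, n) in case I: the difference `PP i n - PP (i+1) n = p (i+n+1) + 1/B > 0`.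
  `i + n = B - 1`: `PP (i+1) n = P n - P 0 = P n`, `PP i n = f 0 + 1 + (R - P (B-1)) + 1/B + P n`. `i + n ≥ B`: the
  difference is `p (i+n-B+1)`, which is positive: otherwise `p j = 0` for all `j ≥ i+n-B+1` and
  `PP (i+1) n = P n - P (i+1+n-B)` would be `0`.
* `ph_lt_PP`: case I: `PP i n > f 0 + 1 ≥ p (1+n)` (`ph_le`). Case II: `n ≥ 1`,
  `PP i n = P n - P (i+n-B) ≥ P n - P (n-1) = p n > p (n+1)`.
* `Dec.PP`: `dec`: `n + 1 < B`: `PP 0 n - PP 0 (n+1) = 1/B`. `n + 1 = B`: `PP 0 n = f 0 + 1 + R + 1/B`,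
  `PP 0 B = P B ≤ R`. `n ≥ B`: the difference is `p (n+1-B) - p (n+1)`; as
  `0 < PP 0 (n+1) = P (n+1) - P (n+1-B)`, `p (n+2-B) > 0` (antitone), so
  `p (n+1-B) > p (n+2-B) ≥ p (n+1)`. `zero`: `n - B ≥ m + h`, both `P` are `R` (`Ph_eq_RR`).
-/

namespace ES

variable {f : ℕ → ℝ} {m h B : ℕ}

theorem PP_of_lt {i n : ℕ} (h1 : i + n < B) : PP f m h B i n =
    f 0 + 1 + (RR f m h - Ph f m (i + n)) + ((B : ℝ) - i - n) / B + Ph f m n := if_pos h1

theorem PP_of_le {i n : ℕ} (h1 : B ≤ i + n) :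
    PP f m h B i n = Ph f m n - Ph f m (i + n - B) := if_neg (by omega)

theorem Ph_zero : Ph f m 0 = 0 := by simp [Ph]

theorem PP_nonneg (H : Dec f h) (hm : 3 ≤ m) {i : ℕ} (hi : i < B) (n : ℕ) :
    0 ≤ PP f m h B i n := by
  rcases lt_or_ge (i + n) B with h1 | h1
  · rw [PP_of_lt h1]
    have a1 := H.pos
    have a2 := Ph_le_RR H hm (i + n)
    have a3 := Ph_nonneg H hm n
    have a4 : 0 ≤ ((B : ℝ) - i - n) / B := by
      apply div_nonneg _ (Nat.cast_nonneg _)
      have : ((i + n : ℕ) : ℝ) < (B : ℝ) := by exact_mod_cast h1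
      push_cast at this
      linarith
    linarith
  · rw [PP_of_le h1]
    have := Ph_mono H hm (show i + n - B ≤ n by omega)
    linarith

theorem PP_pos (H : Dec f h) (hm : 3 ≤ m) {i : ℕ} (hi : i < B) : 0 < PP f m h B i 0 := by
  rw [PP_of_lt (show i + 0 < B by omega)]
  have a1 := H.pos
  have a2 := Ph_le_RR H hm (i + 0)
  have a3 := Ph_nonneg H hm 0
  have a4 : 0 ≤ ((B : ℝ) - i - (0 : ℕ)) / B := by
    apply div_nonneg _ (Nat.cast_nonneg _)
    have : (i : ℝ) < (B : ℝ) := by exact_mod_cast hi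
    push_cast
    linarith
  linarith

theorem Ph_const (H : Dec f h) (hm : 3 ≤ m) {j : ℕ} (hj : ph f m (j + 1) ≤ 0) {n : ℕ}
    (hn : j ≤ n) : Ph f m n = Ph f m j := by
  induction n, hn using Nat.le_induction with
  | base => rfl
  | succ n hn ih =>
    rw [Ph_succ, ih]
    have h1 : ph f m (n + 1) ≤ ph f m (j + 1) := (H.ph hm).anti (by omega)
    have h2 := (H.ph hm).nonneg (n + 1)
    linarith

/-- the content increases towards the root of the trunk -/
theorem PP_lt (H : Dec f h) (hm : 3 ≤ m) {i : ℕ} (hi : i + 1 < B) (n : ℕ)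
    (hp : 0 < PP f m h B (i + 1) n) : PP f m h B (i + 1) n < PP f m h B i n := by
  have hB : (0 : ℝ) < B := by exact_mod_cast (by omega : 0 < B)
  rcases lt_trichotomy (i + 1 + n) B with h1 | h1 | h1
  · rw [PP_of_lt h1, PP_of_lt (show i + n < B by omega)]
    have e : i + 1 + n = (i + n) + 1 := by omega
    rw [e, Ph_succ]
    have h2 := (H.ph hm).nonneg (i + n + 1)
    have h3 : ((B : ℝ) - (i + 1 : ℕ) - n) / B < ((B : ℝ) - i - n) / B := by
      apply div_lt_div_of_pos_right _ hB
      push_cast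
      linarith
    linarith
  · rw [PP_of_le (show B ≤ i + 1 + n by omega), PP_of_lt (show i + n < B by omega)]
    have e : i + 1 + n - B = 0 := by omega
    rw [e, Ph_zero]
    have a1 := H.pos
    have a2 := Ph_le_RR H hm (i + n)
    have a4 : 0 ≤ ((B : ℝ) - i - n) / B := by
      apply div_nonneg _ hB.le
      have : ((i + n : ℕ) : ℝ) < (B : ℝ) := by exact_mod_cast (show i + n < B by omega)
      push_cast at this
      linarith
    linarith
  · rw [PP_of_le (show B ≤ i + 1 + n by omega)] at hp ⊢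
    rw [PP_of_le (show B ≤ i + n by omega)]
    have e : i + 1 + n - B = (i + n - B) + 1 := by omega
    rw [e] at hp ⊢
    by_cases h2 : ph f m (i + n - B + 1) ≤ 0
    · exfalso
      have h3 := Ph_const H hm h2 (show i + n - B ≤ n by omega)
      have h4 := Ph_const H hm h2 (show i + n - B ≤ i + n - B + 1 by omega)
      rw [h3, h4] at hp
      linarith
    · push Not at h2
      rw [Ph_succ]
      linarith

/-- the trunk vertex has more than its side child -/
theorem ph_lt_PP (H : Dec f h) (hm : 3 ≤ m) {i : ℕ} (hi : i < B) (n : ℕ)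
    (hp : 0 < ph f m (1 + n)) : ph f m (1 + n) < PP f m h B i n := by
  have hB : (0 : ℝ) < B := by exact_mod_cast (by omega : 0 < B)
  rcases lt_or_ge (i + n) B with h1 | h1
  · rw [PP_of_lt h1]
    have a2 := Ph_le_RR H hm (i + n)
    have a3 := Ph_nonneg H hm n
    have a4 : 0 < ((B : ℝ) - i - n) / B := by
      apply div_pos _ hB
      have : ((i + n : ℕ) : ℝ) < (B : ℝ) := by exact_mod_cast h1
      push_cast at this
      linarith
    have a5 := ph_le H hm (1 + n)
    linarith
  · rw [PP_of_le h1]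
    obtain ⟨n', rfl⟩ : ∃ n', n = n' + 1 := ⟨n - 1, by omega⟩
    have h2 := Ph_mono H hm (show i + (n' + 1) - B ≤ n' by omega)
    rw [Ph_succ]
    have h3 := (H.ph hm).dec (n' + 1) (by rwa [show n' + 1 + 1 = 1 + (n' + 1) by omega])
    rw [show n' + 1 + 1 = 1 + (n' + 1) by omega] at h3
    linarith

/-- the profile of the root of `T_{k+1}` -/
theorem Dec.PP (H : Dec f h) (hm : 3 ≤ m) (hB : 0 < B) : Dec (PP f m h B 0) (B + m + h) := by
  have hB' : (0 : ℝ) < B := by exact_mod_cast hB
  refine ⟨fun n => PP_nonneg H hm hB n, PP_pos H hm hB, ?_, ?_⟩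
  · intro n hp
    rcases lt_trichotomy (n + 1) B with h1 | h1 | h1
    · rw [PP_of_lt (show 0 + (n + 1) < B by omega), PP_of_lt (show 0 + n < B by omega)]
      simp only [zero_add]
      have h3 : ((B : ℝ) - (0 : ℕ) - (n + 1 : ℕ)) / B < ((B : ℝ) - (0 : ℕ) - n) / B := by
        apply div_lt_div_of_pos_right _ hB'
        push_cast
        linarith
      linarith
    · rw [PP_of_le (show B ≤ 0 + (n + 1) by omega), PP_of_lt (show 0 + n < B by omega)]
      have e : 0 + (n + 1) - B = 0 := by omega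
      rw [e, Ph_zero, zero_add]
      have a1 := H.pos
      have a2 := Ph_le_RR H hm (n + 1)
      have a4 : 0 ≤ ((B : ℝ) - (0 : ℕ) - n) / B := by
        apply div_nonneg _ hB'.le
        have : ((n : ℕ) : ℝ) < (B : ℝ) := by exact_mod_cast (show n < B by omega)
        push_cast
        linarith
      linarith
    · rw [PP_of_le (show B ≤ 0 + (n + 1) by omega)] at hp ⊢
      rw [PP_of_le (show B ≤ 0 + n by omega)]
      have e : 0 + (n + 1) - B = (n - B) + 1 := by omega
      have e2 : 0 + n - B = n - B := by omega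
      rw [e] at hp ⊢
      rw [e2]
      rw [Ph_succ, Ph_succ (n - B)]
      -- need ph (n+1) < ph (n - B + 1)
      have h5 : 0 < ES.ph f m (n - B + 1 + 1) := by
        by_contra hcon
        push Not at hcon
        have h3 := Ph_const H hm hcon (show n - B + 1 ≤ n + 1 by omega)
        rw [h3] at hp
        linarith
      have h6 := (H.ph hm).dec (n - B + 1) h5
      have h7 : ES.ph f m (n + 1) ≤ ES.ph f m (n - B + 1 + 1) := (H.ph hm).anti (by omega)
      linarith
  · intro n hn
    rw [PP_of_le (show B ≤ 0 + n by omega), Ph_eq_RR H hm n (by omega),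
      Ph_eq_RR H hm (0 + n - B) (by omega)]
    ring

theorem PP_zero_zero (hB : 0 < B) : ES.PP f m h B 0 0 = f 0 + 2 + RR f m h := by
  have hB' : (B : ℝ) ≠ 0 := by exact_mod_cast (by omega : B ≠ 0)
  rw [PP_of_lt (show 0 + 0 < B by omega)]
  simp only [zero_add, Ph_zero]
  push_cast
  rw [sub_zero, sub_zero, sub_zero, div_self hB']
  ring

end ES
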