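import Pool.Agent.H75.ES.SeqB

/-!
Job ES-A4: the weight of the trunk.

`PP i 0 = f 0 + 1 + (RR - Ph i) + (B - i)/B + Ph 0` for `i < B`, `Ph 0 = 0`, so
`PP i 0 ≤ f 0 + 2 + (RR - Ph i)`; and `∑ i < B, (RR - Ph i) ≤ (m + h) RR`, because
the terms with `i ≥ m + h` vanish (`Ph_eq_RR`) and the others are at most `RR` (`Ph_nonneg`).
-/

namespace ES

variable {f : ℕ → ℝ} {m h B : ℕ}

theorem sD_term (H : Dec f h) (hm : 3 ≤ m) {i : ℕ} (hi : i < B) :
    PP f m h B i 0 ≤ (f 0 + 2) + (if i < m + h then RR f m h else 0) := by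
  have hB : (0 : ℝ) < B := by exact_mod_cast (lt_of_le_of_lt (Nat.zero_le i) hi)
  have h0 : Ph f m 0 = 0 := by simp [Ph]
  have e : PP f m h B i 0 = f 0 + 1 + (RR f m h - Ph f m i) + ((B : ℝ) - i) / B := by
    unfold PP
    rw [add_zero, if_pos hi, h0]
    push_cast
    ring
  have h1 : ((B : ℝ) - i) / B ≤ 1 := by
    rw [div_le_one hB]
    have : (0 : ℝ) ≤ i := Nat.cast_nonneg _
    linarith
  rw [e]
  by_cases h2 : i < m + h
  · rw [if_pos h2]
    have := Ph_nonneg H hm i
    linarith
  · rw [if_neg h2, Ph_eq_RR H hm i (not_lt.1 h2)]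
    linarith

theorem PP_sum_le (H : Dec f h) (hm : 3 ≤ m) :
    ∑ i ∈ Finset.range B, PP f m h B i 0 ≤ B * (f 0 + 2) + (m + h) * RR f m h := by
  calc ∑ i ∈ Finset.range B, PP f m h B i 0 ≤
      ∑ i ∈ Finset.range B, ((f 0 + 2) + (if i < m + h then RR f m h else 0)) :=
        Finset.sum_le_sum fun i hi => sD_term H hm (Finset.mem_range.1 hi)
    _ = B * (f 0 + 2) +
        (((Finset.range B).filter fun i => i < m + h).card : ℝ) * RR f m h := by
        rw [Finset.sum_add_distrib, Finset.sum_const, Finset.card_range, nsmul_eq_mul,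
          ← Finset.sum_filter, Finset.sum_const, nsmul_eq_mul]
    _ ≤ _ := by
        have h1 : ((Finset.range B).filter fun i => i < m + h).card ≤ m + h := by
          calc _ ≤ (Finset.range (m + h)).card := by
                apply Finset.card_le_card
                intro i hi
                simp only [Finset.mem_filter, Finset.mem_range] at hi ⊢
                exact hi.2
            _ = m + h := Finset.card_range _
        have h2 : (((Finset.range B).filter fun i => i < m + h).card : ℝ) ≤ m + h := by
          exact_mod_cast h1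
        have h3 := RR_nonneg H hm
        have h4 := mul_le_mul_of_nonneg_right h2 h3
        linarith

end ES
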