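import Pool.Agent.H75.ES.InfoL

/-!
Job ES-B1: the structure `T_0`.

`info T 0 u v w = some (t 0 0, e1)` if `(u, v, w) = (m 0, 1, 0)` and `none` otherwise; `m 0 = 12`,
`X 0 = 27`, `Y 0 = 3`, `Z 0 = 4` (`T.init`). `nbr`: two different vertices cannot both carry something.
`child`: the right side is `0` or `T.f 0 (n+1) = 0` (`T.init`); on the left only `(u+1, v, w)` can carry
something with the right direction `e1`, and this is excluded by the hypothesis.
-/

namespace ES

variable (T : Tower)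

theorem Str.zero : Str T 0 := by
  have hm : T.m 0 = 12 := by
    show (T.s 0).m = 12
    rw [T.init]
    rfl
  have hX : T.X 0 = 27 := by
    show (T.s 0).X = 27
    rw [T.init]
    rfl
  have hY : T.Y 0 = 3 := by
    show (T.s 0).Y = 3
    rw [T.init]
    rfl
  have hZ : T.Z 0 = 4 := by
    show (T.s 0).Z = 4
    rw [T.init]
    rfl
  have hs : ∀ (u v w : ℤ) (r : Tag × Dir), info T 0 u v w = some r →
      u = T.m 0 ∧ v = 1 ∧ w = 0 ∧ r = (Tag.t 0 0, Dir.e1) := by
    intro u v w r h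
    rw [info] at h
    split_ifs at h with h1
    exact ⟨h1.1, h1.2.1, h1.2.2, (Option.some.inj h).symm⟩
  have hf : ∀ n, T.f 0 (n + 1) = 0 := by
    intro n
    show (T.s 0).f (n + 1) = 0
    rw [T.init]
    rfl
  refine ⟨?_, ?_, ?_, ?_, ?_, ?_⟩
  · intro u v w r h
    obtain ⟨h1, h2, h3, _⟩ := hs u v w r h
    rw [hX, hY, hZ]
    rw [hm] at h1 ⊢
    omega
  · rw [info, if_pos ⟨rfl, rfl, rfl⟩]
  · rw [info, if_neg]
    rintro ⟨_, h, _⟩
    omega
  · intro u v w t d h
    obtain ⟨h1, h2, h3, _⟩ := hs u v w _ h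
    exact Or.inl ⟨h1, h2, h3⟩
  · intro u v w t d δ t' d' h h'
    obtain ⟨h1, h2, h3, _⟩ := hs u v w _ h
    obtain ⟨h4, h5, h6, _⟩ := hs _ _ _ _ h'
    exfalso
    cases δ <;> simp only [Dir.x, Dir.y, Dir.z] at h4 h5 h6 <;> omega
  · intro u v w n hn
    have e1 : ct T (info T 0 (u + 1) v w) Dir.e1 n = 0 := by
      rw [info, if_neg]
      · rfl
      · rintro ⟨h1, h2, h3⟩
        exact hn ⟨by omega, h2, h3⟩
    have e2 : ct T (info T 0 u (v + 1) w) Dir.e2 n = 0 := by
      rw [info]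
      split_ifs with h
      · show (if Dir.e1 = Dir.e2 then prof T (Tag.t 0 0) n else 0) = 0
        rw [if_neg (by decide)]
      · rfl
    have e3 : ct T (info T 0 (u + 1) (v + 1) (w + 1)) Dir.f n = 0 := by
      rw [info]
      split_ifs with h
      · show (if Dir.e1 = Dir.f then prof T (Tag.t 0 0) n else 0) = 0
        rw [if_neg (by decide)]
      · rfl
    rw [e1, e2, e3, info]
    split_ifs with h
    · show (0 : ℝ) + 0 + 0 = T.f 0 (n + 1)
      rw [hf]
      norm_num
    · show (0 : ℝ) + 0 + 0 = 0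
      norm_num

end ES
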