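import Pool.Agent.H75.ES.SeqC

/-!
Job ES-A5: basic facts on a tower.

The first six are definitional after rewriting with `T.step k` (`T.s (k+1) = (T.s k).next (T.s (k+1)).X`;
take `congrArg` of the projections, e.g. `T.Y (k+1) = ((T.s k).next _).Y = (T.s k).X`).
Then prove jointly, by induction on `k`: `Dec (f k) (h k)`, `27 ≤ X k`, `3 ≤ Y k`, `4 ≤ Z k`, `0 < B k` and
`X (k+1) = m (k+1) + B k + 2 m k`: `k = 0` is `T.init`; `Dec` at level `k` gives `0 ≤ RR` (`RR_nonneg`,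
`3 ≤ m k`), `0 ≤ f k 0`, so in `T.grow k` every summand is nonnegative and
`4^(k+4) * (X k * (Y k + 1) * Z k + m k + 4 (m k + h k + 1)) ≤ X (k+1)`; as
`B k = X (k+1) - X k * ((Y k + 1) * Z k) - 2 * m k` (natural subtraction, no truncation) `B k > 0`, and
`Dec` at level `k + 1` is `Dec.PP`. `three_dvd_Y`: `Y 0 = 3`, `Y (k+1) = X k` is a power of `3` (`T.pow`) and
`≥ 27`. `coprime`: `Y k` is a power of `3`, `3 ∤ Z k` by induction (`Z 0 = 4`, `Z (k+1) = (Y k + 1) * Z k`).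
`Y_dvd_X`: two powers of `3` with `Y k ≤ X (k+1)` (`pow_dvd_pow`, `Nat.pow_le_pow_iff_right`).
-/

namespace ES.Tower

variable (T : Tower) (k : ℕ)

theorem Y_succ : T.Y (k + 1) = T.X k := congrArg St.Y (T.step k)

theorem Z_succ : T.Z (k + 1) = (T.Y k + 1) * T.Z k := congrArg St.Z (T.step k)

theorem m_eq : T.m k = T.Y k * T.Z k := rfl

theorem m_succ : T.m (k + 1) = T.X k * ((T.Y k + 1) * T.Z k) := by
  rw [m_eq, Y_succ, Z_succ]

theorem h_succ : T.h (k + 1) = T.B k + T.m k + T.h k := congrArg St.h (T.step k)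

theorem f_succ : T.f (k + 1) = PP (T.f k) (T.m k) (T.h k) (T.B k) 0 :=
  congrArg St.f (T.step k)

theorem X_zero : T.X 0 = 27 := congrArg St.X T.init

theorem Y_zero : T.Y 0 = 3 := congrArg St.Y T.init

theorem Z_zero : T.Z 0 = 4 := congrArg St.Z T.init

theorem h_zero : T.h 0 = 1 := congrArg St.h T.init

theorem f_zero : T.f 0 = fun n => if n = 0 then 1 else 0 := congrArg St.f T.init

theorem grow_nat (H : Dec (T.f k) (T.h k)) (hm : 3 ≤ T.m k) :
    256 * (T.X k * ((T.Y k + 1) * T.Z k) + T.m k) ≤ T.X (k + 1) := by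
  have hg := T.grow k
  have hR : 0 ≤ RR (T.f k) (T.m k) (T.h k) := RR_nonneg H hm
  have hf : 0 < T.f k 0 := H.pos
  have h4 : (256 : ℝ) ≤ (4 : ℝ) ^ (k + 4) := by
    have : (4 : ℝ) ^ 4 ≤ (4 : ℝ) ^ (k + 4) := pow_le_pow_right₀ (by norm_num) (by omega)
    calc (256 : ℝ) = (4 : ℝ) ^ 4 := by norm_num
      _ ≤ _ := this
  have hnn : (0 : ℝ) ≤ (T.X k * ((T.Y k + 1) * T.Z k) + T.m k : ℝ) := by positivity
  have h1 : (256 : ℝ) * (T.X k * ((T.Y k + 1) * T.Z k) + T.m k) ≤ T.X (k + 1) := by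
    calc (256 : ℝ) * (T.X k * ((T.Y k + 1) * T.Z k) + T.m k)
        ≤ (4 : ℝ) ^ (k + 4) * (T.X k * ((T.Y k + 1) * T.Z k) + T.m k) :=
          mul_le_mul_of_nonneg_right h4 hnn
      _ ≤ (4 : ℝ) ^ (k + 4) * ((T.X k) * ((T.Y k) + 1) * (T.Z k) + (T.m k) +
          ((T.m k) + (T.h k) + 1) * (RR (T.f k) (T.m k) (T.h k) + (T.f k) 0 + 4)) := by
          apply mul_le_mul_of_nonneg_left _ (by positivity)
          have : (0 : ℝ) ≤ ((T.m k : ℝ) + (T.h k) + 1) *
              (RR (T.f k) (T.m k) (T.h k) + (T.f k) 0 + 4) := by positivity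
          nlinarith [this]
      _ ≤ _ := hg
  exact_mod_cast h1

theorem core : Dec (T.f k) (T.h k) ∧ 27 ≤ T.X k ∧ 3 ≤ T.Y k ∧ 4 ≤ T.Z k := by
  induction k with
  | zero =>
    refine ⟨?_, (X_zero T).ge, (Y_zero T).ge, (Z_zero T).ge⟩
    rw [f_zero, h_zero]
    refine ⟨fun n => ?_, by simp, fun n hn => ?_, fun n hn => ?_⟩
    · show (0 : ℝ) ≤ if n = 0 then 1 else 0
      split_ifs <;> norm_num
    · simp at hn
    · show (if n = 0 then (1 : ℝ) else 0) = 0
      rw [if_neg (by omega)]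
  | succ k ih =>
    obtain ⟨H, hX, hY, hZ⟩ := ih
    have hm : 3 ≤ T.m k := by
      rw [m_eq]
      calc 3 ≤ 3 * 4 := by norm_num
        _ ≤ T.Y k * T.Z k := Nat.mul_le_mul hY hZ
    have hg := grow_nat T k H hm
    have ha : 27 * (4 * 4) ≤ T.X k * ((T.Y k + 1) * T.Z k) :=
      Nat.mul_le_mul hX (Nat.mul_le_mul (by omega) hZ)
    have hB : 0 < T.B k := by
      show 0 < T.X (k + 1) - T.X k * ((T.Y k + 1) * T.Z k) - 2 * T.m k
      omega
    refine ⟨?_, by omega, ?_, ?_⟩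
    · rw [f_succ, h_succ]
      exact Dec.PP H hm hB
    · rw [Y_succ]; omega
    · rw [Z_succ]
      calc 4 ≤ 4 * 4 := by norm_num
        _ ≤ _ := Nat.mul_le_mul (by omega) hZ

/-- the root profiles (prove this first, by induction on `k`, jointly with `27 ≤ X k`,
`3 ≤ Y k`, `4 ≤ Z k`, `0 < B k`: `Dec` at level `k` gives `0 ≤ RR`, so `grow` bounds `X (k+1)`) -/
theorem dec : Dec (T.f k) (T.h k) := (core T k).1

theorem X_ge : 27 ≤ T.X k := (core T k).2.1

theorem three_dvd_Y : 3 ∣ T.Y k := by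
  cases k with
  | zero => rw [Y_zero]
  | succ k =>
    rw [Y_succ]
    obtain ⟨e, he⟩ := T.pow k
    have h27 := X_ge T k
    have he' : T.X k = 3 ^ e := he
    rw [he'] at h27 ⊢
    cases e with
    | zero => simp at h27
    | succ e => exact dvd_pow_self 3 (by omega)

theorem three_le_Y : 3 ≤ T.Y k := (core T k).2.2.1

theorem four_le_Z : 4 ≤ T.Z k := (core T k).2.2.2

theorem Y_pow : ∃ e, T.Y k = 3 ^ e := by
  cases k with
  | zero => exact ⟨1, by rw [Y_zero]; norm_num⟩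
  | succ k => rw [Y_succ]; exact T.pow k

theorem not_three_dvd_Z : ¬ 3 ∣ T.Z k := by
  induction k with
  | zero => rw [Z_zero]; norm_num
  | succ k ih =>
    rw [Z_succ]
    intro h
    rcases (Nat.Prime.dvd_mul Nat.prime_three).1 h with h1 | h1
    · have := three_dvd_Y T k
      omega
    · exact ih h1

/-- `Z k` is not divisible by 3, `Y k` is a power of 3 -/
theorem coprime : Nat.Coprime (T.Y k) (T.Z k) := by
  obtain ⟨e, he⟩ := Y_pow T k
  rw [he]
  exact Nat.Coprime.pow_left e ((Nat.Prime.coprime_iff_not_dvd Nat.prime_three).2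
    (not_three_dvd_Z T k))

theorem twelve_le_m : 12 ≤ T.m k := by
  rw [m_eq]
  calc 12 = 3 * 4 := by norm_num
    _ ≤ T.Y k * T.Z k := Nat.mul_le_mul (three_le_Y T k) (four_le_Z T k)

theorem m_lt_X : T.m k < T.X k := by
  cases k with
  | zero =>
    rw [m_eq, X_zero, Y_zero, Z_zero]; norm_num
  | succ k =>
    have hg := grow_nat T k (dec T k) (le_trans (by norm_num) (twelve_le_m T k))
    have h12 := twelve_le_m T k
    rw [m_succ]
    omega

theorem Y_le_X : T.Y k ≤ T.X (k + 1) := by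
  have hg := grow_nat T k (dec T k) (le_trans (by norm_num) (twelve_le_m T k))
  have hmY : T.Y k ≤ T.m k := by
    rw [m_eq]
    exact Nat.le_mul_of_pos_right _ (by have := four_le_Z T k; omega)
  omega

theorem Y_dvd_X : T.Y k ∣ T.X (k + 1) := by
  obtain ⟨e, he⟩ := Y_pow T k
  obtain ⟨e', he'⟩ := T.pow (k + 1)
  have he'' : T.X (k + 1) = 3 ^ e' := he'
  have hle := Y_le_X T k
  rw [he, he''] at hle ⊢
  exact pow_dvd_pow 3 ((Nat.pow_le_pow_iff_right (by norm_num)).1 hle)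

theorem X_succ : T.X (k + 1) = T.m (k + 1) + T.B k + 2 * T.m k := by
  have hg := grow_nat T k (dec T k) (le_trans (by norm_num) (twelve_le_m T k))
  have h12 := twelve_le_m T k
  have hms := m_succ T k
  have hB : T.B k = T.X (k + 1) - T.X k * ((T.Y k + 1) * T.Z k) - 2 * T.m k := rfl
  rw [hms, hB]
  omega

theorem B_pos : 0 < T.B k := by
  have hg := grow_nat T k (dec T k) (le_trans (by norm_num) (twelve_le_m T k))
  have h12 := twelve_le_m T k
  have hB : T.B k = T.X (k + 1) - T.X k * ((T.Y k + 1) * T.Z k) - 2 * T.m k := rfl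
  rw [hB]
  omega

end ES.Tower
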