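import Pool.Agent.H75.ES.Prof
import Pool.Agent.H75.ES.StrAll

/-! The total weight of `T_k` (definition). -/

namespace ES

variable (T : Tower)

/-- the total weight of `T_k` -/
noncomputable def Wt (k : ℕ) : ℝ :=
  ∑ u ∈ Finset.range (T.X k), ∑ v ∈ Finset.range (T.Y k), ∑ w ∈ Finset.range (T.Z k),
    pr T (info T k u v w) 0

end ES
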