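import Pool.Agent.H75.ES.Wt
import Pool.Agent.H75.ES.ProfB

/-!
Job ES-C5: the weight of the copies of `T_k` in `T_{k+1}`.

For `v ≥ m k`: by `info_sub_some` (or directly `info_sub`) the summand is `0` or equals
`pr T (info T k v (u % Y k) (w % Z k)) 0` (the map `(r.1, r.2.swap)` does not change the tag), and it
is `0` unless `w < Y k * Z k`; moreover `pr ≥ 0` (`pr_nonneg`). So the sum is at most
`∑ u < X (k+1), ∑ v < X k, ∑ w < Y k * Z k, pr T (info T k v (u % Y k) (w % Z k)) 0`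
(`Y (k+1) = X k`). As `Y k ∣ X (k+1)` (`T.Y_dvd_X`), the map `u ↦ u % Y k` hits every residue
`X (k+1) / Y k` times, and `w ↦ w % Z k` every residue `Y k` times (e.g. write `u = Y k * q + r`,
`Finset.sum_product'` / `Nat.sum_range_mul`-like lemma, or `Finset.sum_nat_mod`); the product of the
multiplicities is `X (k+1)`, and the remaining sum over `v < X k`, `r < Y k`, `s < Z k` of
`pr T (info T k v r s) 0` is `Wt T k`.
A convenient general lemma: `∑ u ∈ range (a * q), F (u % a) = q * ∑ r ∈ range a, F r`.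
-/

namespace ES

variable (T : Tower)

theorem wta_mod (a q : ℕ) (F : ℕ → ℝ) :
    ∑ u ∈ Finset.range (a * q), F (u % a) = q * ∑ r ∈ Finset.range a, F r := by
  induction q with
  | zero => simp
  | succ q ih =>
    rw [Nat.mul_succ, Finset.sum_range_add, ih, Nat.cast_succ, add_mul, one_mul]
    congr 1
    refine Finset.sum_congr rfl fun x hx => ?_
    rw [Finset.mem_range] at hx
    rw [Nat.mul_add_mod, Nat.mod_eq_of_lt hx]

theorem wta_map (o : Option (Tag × Dir)) (n : ℕ) :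
    pr T (o.map (fun r => (r.1, r.2.swap))) n = pr T o n := by
  cases o with
  | none => rfl
  | some r => rfl

theorem wta_pt (k : ℕ) {v : ℕ} (hv : T.m k ≤ v) (u w : ℕ) :
    pr T (info T (k + 1) u v w) 0 ≤
      if w < T.Y k * T.Z k then
        pr T (info T k v ((u % T.Y k : ℕ) : ℤ) ((w % T.Z k : ℕ) : ℤ)) 0 else 0 := by
  rw [info_sub T k (by exact_mod_cast hv)]
  split_ifs with h1 h2 h2
  · rw [wta_map]
    push_cast
    exact le_rfl
  · exact absurd (by exact_mod_cast h1.2.1) h2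
  · exact pr_nonneg k _ _ _ 0
  · exact le_rfl

theorem Wt_copies (k : ℕ) :
    ∑ u ∈ Finset.range (T.X (k + 1)), ∑ v ∈ Finset.Ico (T.m k) (T.Y (k + 1)),
      ∑ w ∈ Finset.range (T.Z (k + 1)), pr T (info T (k + 1) u v w) 0 ≤
    T.X (k + 1) * Wt T k := by
  obtain ⟨q, hq⟩ := T.Y_dvd_X k
  have hF : ∀ v r w : ℕ, 0 ≤ pr T (info T k v (r : ℤ) (w : ℤ)) 0 := fun v r w => pr_nonneg k _ _ _ 0
  have h1 : ∀ u ∈ Finset.range (T.X (k + 1)), ∑ v ∈ Finset.Ico (T.m k) (T.Y (k + 1)),
      ∑ w ∈ Finset.range (T.Z (k + 1)), pr T (info T (k + 1) u v w) 0 ≤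
      ∑ v ∈ Finset.range (T.X k), (T.Y k : ℝ) * ∑ w ∈ Finset.range (T.Z k),
        pr T (info T k v ((u % T.Y k : ℕ) : ℤ) (w : ℤ)) 0 := by
    intro u _
    have h2 : ∀ v ∈ Finset.Ico (T.m k) (T.Y (k + 1)), ∑ w ∈ Finset.range (T.Z (k + 1)),
        pr T (info T (k + 1) u v w) 0 ≤ (T.Y k : ℝ) * ∑ w ∈ Finset.range (T.Z k),
        pr T (info T k v ((u % T.Y k : ℕ) : ℤ) (w : ℤ)) 0 := by
      intro v hv
      rw [Finset.mem_Ico] at hv
      refine (Finset.sum_le_sum fun w _ => wta_pt T k hv.1 u w).trans ?_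
      rw [← Finset.sum_filter]
      have h3 : (Finset.range (T.Z (k + 1))).filter (fun w => w < T.Y k * T.Z k) ⊆
          Finset.range (T.Z k * T.Y k) := by
        intro w hw
        rw [Finset.mem_filter] at hw
        rw [Finset.mem_range, mul_comm]
        exact hw.2
      refine (Finset.sum_le_sum_of_subset_of_nonneg h3 fun w _ _ => hF _ _ _).trans (le_of_eq ?_)
      exact wta_mod (T.Z k) (T.Y k) (fun r => pr T (info T k v ((u % T.Y k : ℕ) : ℤ) (r : ℤ)) 0)
    refine (Finset.sum_le_sum h2).trans ?_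
    refine Finset.sum_le_sum_of_subset_of_nonneg ?_ fun v _ _ => ?_
    · intro v hv
      rw [Finset.mem_Ico, T.Y_succ] at hv
      rw [Finset.mem_range]
      exact hv.2
    · exact mul_nonneg (Nat.cast_nonneg _) (Finset.sum_nonneg fun w _ => hF _ _ _)
  refine (Finset.sum_le_sum h1).trans (le_of_eq ?_)
  rw [hq, wta_mod (T.Y k) q (fun r => ∑ v ∈ Finset.range (T.X k), (T.Y k : ℝ) *
    ∑ w ∈ Finset.range (T.Z k), pr T (info T k v (r : ℤ) (w : ℤ)) 0), Finset.sum_comm, Wt]
  simp only [← Finset.mul_sum]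
  push_cast
  ring

end ES
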