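import Pool.Agent.H75.ES.Wt

/-!
Job ES-C6b: the weight of a layer of stems of `T_{k+1}`.

By `info_street_some` (`2 ≤ v < m k`) a summand which is not `0` has `u - w = x` with
`m (k+1) ≤ x < m (k+1) + B k`, `w = min (v - 2) (JJ (T.Y k) (T.Z k) x)`, tag `s k (v-1)`, and then
`pr .. 0 = ph (f k) (m k) (v - 1 + 0) ≤ f k 0 + 1` (`ph_le`, with `T.dec k`). The map `(u, w) ↦ u - w` is
injective on these pairs (`w` is a function of `x`, `u = x + w`), so there are at most `B k` of them: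
e.g. turn the double sum into a sum over the product Finset (`Finset.sum_product'`), restrict to the
support (`Finset.sum_filter_ne_zero`), bound it by `card • (f 0 + 1)` (`Finset.sum_le_card_nsmul`) and
the cardinality by `Finset.card_le_card_of_injOn` into `Finset.Ico (m (k+1)) (m (k+1) + B k)`
(integers; `Int.card_Ico`).
-/

namespace ES

variable (T : Tower)

/-- the facts about one summand -/
theorem wtB2_term (k : ℕ) {v : ℕ} (h2 : 2 ≤ v) (hv : v < T.m k) (u w : ℕ)
    (h : pr T (info T (k + 1) u v w) 0 ≠ 0) :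
    (T.m (k + 1) : ℤ) ≤ (u : ℤ) - w ∧ (u : ℤ) - w < T.m (k + 1) + T.B k ∧
      (w : ℤ) = min ((v : ℤ) - 2) (JJ (T.Y k) (T.Z k) (u - w)) ∧
      pr T (info T (k + 1) u v w) 0 ≤ T.f k 0 + 1 := by
  have h12 := T.twelve_le_m k
  cases hi : info T (k + 1) u v w with
  | none => rw [hi] at h; exact absurd rfl h
  | some r =>
    obtain ⟨t, d⟩ := r
    obtain ⟨a1, a2, a3, a4, -⟩ := info_street_some T k (by omega) (by omega) hi
    refine ⟨a1, a2, a3, ?_⟩
    subst a4
    exact ph_le (T.dec k) (by omega) _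

theorem Wt_stem (k : ℕ) {v : ℕ} (h2 : 2 ≤ v) (hv : v < T.m k) :
    ∑ u ∈ Finset.range (T.X (k + 1)), ∑ w ∈ Finset.range (T.Z (k + 1)),
      pr T (info T (k + 1) u v w) 0 ≤ T.B k * (T.f k 0 + 1) := by
  classical
  rw [← Finset.sum_product', ← Finset.sum_filter_ne_zero]
  set S := (Finset.range (T.X (k + 1)) ×ˢ Finset.range (T.Z (k + 1))).filter
    (fun p : ℕ × ℕ => pr T (info T (k + 1) p.1 v p.2) 0 ≠ 0) with hS
  have h0 : 0 ≤ T.f k 0 + 1 := by linarith [(T.dec k).nonneg 0]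
  have h1 : ∑ p ∈ S, pr T (info T (k + 1) p.1 v p.2) 0 ≤ S.card • (T.f k 0 + 1) := by
    apply Finset.sum_le_card_nsmul
    intro p hp
    rw [hS, Finset.mem_filter] at hp
    exact (wtB2_term T k h2 hv p.1 p.2 hp.2).2.2.2
  refine h1.trans ?_
  rw [nsmul_eq_mul]
  refine mul_le_mul_of_nonneg_right ?_ h0
  have h3 : S.card ≤ (Finset.Ico (T.m (k + 1) : ℤ) (T.m (k + 1) + T.B k)).card := by
    refine Finset.card_le_card_of_injOn (fun p : ℕ × ℕ => (p.1 : ℤ) - p.2) ?_ ?_
    · intro p hp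
      rw [hS, Finset.mem_coe, Finset.mem_filter] at hp
      have h4 := wtB2_term T k h2 hv p.1 p.2 hp.2
      simp only [Finset.coe_Ico, Set.mem_Ico]
      exact ⟨h4.1, h4.2.1⟩
    · intro p hp q hq hpq
      rw [hS, Finset.mem_coe, Finset.mem_filter] at hp hq
      have h4 := (wtB2_term T k h2 hv p.1 p.2 hp.2).2.2.1
      have h5 := (wtB2_term T k h2 hv q.1 q.2 hq.2).2.2.1
      have h6 : (p.1 : ℤ) - p.2 = (q.1 : ℤ) - q.2 := hpq
      rw [h6] at h4
      have h7 : (p.2 : ℤ) = q.2 := h4.trans h5.symm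
      apply Prod.ext <;> omega
  rw [Int.card_Ico] at h3
  have h4 : S.card ≤ T.B k := by omega
  exact_mod_cast h4

end ES
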