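import Pool.Agent.H75.ES.WtB1
import Pool.Agent.H75.ES.WtB2

/-! The weight of the trunk and of the stems of `T_{k+1}` (helper75). -/

namespace ES

variable (T : Tower)

theorem Wt_street (k : ℕ) :
    ∑ u ∈ Finset.range (T.X (k + 1)), ∑ v ∈ Finset.range (T.m k),
      ∑ w ∈ Finset.range (T.Z (k + 1)), pr T (info T (k + 1) u v w) 0 ≤
    (T.B k * (T.f k 0 + 2) + (T.m k + T.h k) * RR (T.f k) (T.m k) (T.h k)) +
      T.m k * (T.B k * (T.f k 0 + 1)) := by
  rw [Finset.sum_comm]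
  have h12 := T.twelve_le_m k
  have hpos : (0 : ℝ) ≤ T.B k * (T.f k 0 + 1) :=
    mul_nonneg (Nat.cast_nonneg _) (by have := (T.dec k).nonneg 0; linarith)
  have h0 : ∑ u ∈ Finset.range (T.X (k + 1)), ∑ w ∈ Finset.range (T.Z (k + 1)),
      pr T (info T (k + 1) u ((0 : ℕ) : ℤ) w) 0 = 0 := by
    apply Finset.sum_eq_zero
    intro u _
    apply Finset.sum_eq_zero
    intro w _
    rw [info_v0 T k (by simp)]
    rfl
  have h1 : ∑ u ∈ Finset.range (T.X (k + 1)), ∑ w ∈ Finset.range (T.Z (k + 1)),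
      pr T (info T (k + 1) u ((1 : ℕ) : ℤ) w) 0 ≤
      T.B k * (T.f k 0 + 2) + (T.m k + T.h k) * RR (T.f k) (T.m k) (T.h k) := by
    simpa using Wt_v1 T k
  rw [← Finset.sum_range_add_sum_Ico _ (show 2 ≤ T.m k by omega), Finset.sum_range_succ,
    Finset.sum_range_succ, Finset.sum_range_zero, zero_add, h0, zero_add]
  refine add_le_add h1 ?_
  calc _ ≤ ∑ v ∈ Finset.Ico 2 (T.m k), (T.B k * (T.f k 0 + 1) : ℝ) := by
        apply Finset.sum_le_sum
        intro v hv
        rw [Finset.mem_Ico] at hv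
        exact Wt_stem T k hv.1 hv.2
    _ = ((T.m k - 2 : ℕ) : ℝ) * (T.B k * (T.f k 0 + 1)) := by
        rw [Finset.sum_const, Nat.card_Ico, nsmul_eq_mul]
    _ ≤ _ := by
        apply mul_le_mul_of_nonneg_right _ hpos
        exact_mod_cast Nat.sub_le _ _

end ES
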