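import Pool.Agent.H75.ES.Wt
import Pool.Agent.H75.ES.SeqD

/-!
Job ES-C6a: the weight of the trunk of `T_{k+1}`.

By `info_v1` the summand is `0` unless `w = 0` and `u = m (k+1) + i` with `i < B k`, when the tag is
`t (k+1) i` and `pr .. 0 = prof T (t (k+1) i) 0 = PP (f k) (m k) (h k) (B k) i 0`. So the double sum is
`∑ i < B, PP .. i 0` (drop all `w ≠ 0`, then `Finset.sum_subset` / `Finset.sum_bij` / image of
`range B` under `i ↦ m (k+1) + i`; all other terms vanish; use `info_trunk` for `info` at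
`(m (k+1) + i, 1, 0)`, `T.X_succ` gives `m (k+1) + i < X (k+1)`), and the bound is `PP_sum_le`
with `T.dec k`, `T.twelve_le_m k`.
-/

namespace ES

variable (T : Tower)

theorem Wt_v1 (k : ℕ) :
    ∑ u ∈ Finset.range (T.X (k + 1)), ∑ w ∈ Finset.range (T.Z (k + 1)),
      pr T (info T (k + 1) u 1 w) 0 ≤
    T.B k * (T.f k 0 + 2) + (T.m k + T.h k) * RR (T.f k) (T.m k) (T.h k) := by
  have hZ := T.four_le_Z (k + 1)
  have hm := T.twelve_le_m k
  have hX := T.X_succ k
  have e1 : ∀ u ∈ Finset.range (T.X (k + 1)), ∑ w ∈ Finset.range (T.Z (k + 1)),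
      pr T (info T (k + 1) (u : ℤ) 1 (w : ℤ)) 0 = pr T (info T (k + 1) (u : ℤ) 1 0) 0 := by
    intro u _
    rw [Finset.sum_eq_single_of_mem 0 (Finset.mem_range.mpr (by omega))]
    · rw [Nat.cast_zero]
    · intro w _ hw
      rcases h : info T (k + 1) (u : ℤ) 1 (w : ℤ) with _ | r
      · rfl
      · obtain ⟨i, _, _, h3, _⟩ := info_v1 T k h
        omega
  rw [Finset.sum_congr rfl e1]
  have hsub : Finset.Ico (T.m (k + 1)) (T.m (k + 1) + T.B k) ⊆ Finset.range (T.X (k + 1)) := by
    intro u hu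
    rw [Finset.mem_Ico] at hu
    rw [Finset.mem_range]
    omega
  rw [← Finset.sum_subset hsub]
  · rw [Finset.sum_Ico_eq_sum_range, add_tsub_cancel_left]
    refine le_trans (le_of_eq ?_) (PP_sum_le (B := T.B k) (T.dec k) (by omega : 3 ≤ T.m k))
    refine Finset.sum_congr rfl fun i hi => ?_
    have h := info_trunk T k (Finset.mem_range.mp hi)
    rw [Nat.cast_add, h]
    rfl
  · intro u _ hu
    rcases h : info T (k + 1) (u : ℤ) 1 0 with _ | r
    · rfl
    · obtain ⟨i, h1, h2, _, _⟩ := info_v1 T k h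
      exfalso
      apply hu
      rw [Finset.mem_Ico]
      omega

end ES
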