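import Pool.Agent.H75.ES.WtA
import Pool.Agent.H75.ES.WtB
import Pool.Agent.H75.ES.ProfB

/-!
Job ES-C7: the weight per unit volume is bounded.

Let `V k = X k * Y k * Z k`. Split the sum over `v < Y (k+1)` at `m k` (`T.m_lt_X`, `Y (k+1) = X k`):
`Wt (k+1) ≤ Wt_street + X (k+1) * Wt k` (`Wt_street`, `Wt_copies`).
`V (k+1) = X (k+1) * X k * ((Y k + 1) * Z k) ≥ X (k+1) * V k`, hence
`Wt (k+1) / V (k+1) ≤ Wt k / V k + S k / V (k+1)` with `S k` the street bound and `B k ≤ X (k+1)`: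
`S k / V (k+1) ≤ ((m + 1) (f 0 + 2)) / (X k (Y k + 1) Z k) + (m + h) RR / X (k+1)`. The second term is
`≤ 4^{-k}` by `T.grow k`. The first is at most `(f k 0 + 2) / X k` (`m k + 1 ≤ (Y k + 1) Z k`), which for
`k = 0` is a constant, and for `k = l + 1` is, by `PP_zero_zero` and `T.f_succ`,
`(f l 0 + 4 + RR) / X (l+1) ≤ 4^{-l}` by `T.grow l`. Sum the geometric series
(e.g. prove `Wt T k ≤ (C - 2 * (1/4)^k ..) * V k` by induction, or
`Wt T k / V k ≤ Wt T 0 / V 0 + ∑ i < k, 8 * (1/4)^i`).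
-/

namespace ES

variable (T : Tower)

theorem wtc_RR_nonneg (k : ℕ) : 0 ≤ RR (T.f k) (T.m k) (T.h k) := by
  have h12 := T.twelve_le_m k
  have hm : (1 : ℝ) ≤ (T.m k : ℝ) - 1 := by
    have : (12 : ℝ) ≤ (T.m k : ℝ) := by exact_mod_cast h12
    linarith
  unfold RR Ph
  refine Finset.sum_nonneg fun i _ => ?_
  unfold ph
  split_ifs with h
  · have h1 := (T.dec k).nonneg 0
    have h2 : 0 ≤ ((T.m k : ℝ) - 1 - ((i + 1 : ℕ) : ℝ)) / ((T.m k : ℝ) - 1) := by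
      apply div_nonneg _ (by linarith)
      have : ((i + 1 + 2 : ℕ) : ℝ) ≤ (T.m k : ℝ) := by exact_mod_cast h
      push_cast at this ⊢
      linarith
    linarith
  · exact (T.dec k).nonneg _

theorem wtc_grow (k : ℕ) : ((T.m k : ℝ) + T.h k + 1) * (RR (T.f k) (T.m k) (T.h k) + T.f k 0 + 4) ≤
    (1 / 4) ^ (k + 4) * T.X (k + 1) := by
  have h1 := T.grow k
  have h2 : (0 : ℝ) ≤ (T.X k : ℝ) * ((T.Y k : ℝ) + 1) * T.Z k + T.m k := by positivity
  have h3 : (0 : ℝ) < (4 : ℝ) ^ (k + 4) := by positivity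
  have h4 : (4 : ℝ) ^ (k + 4) * (((T.m k : ℝ) + T.h k + 1) *
      (RR (T.f k) (T.m k) (T.h k) + T.f k 0 + 4)) ≤ T.X (k + 1) := by
    refine le_trans (mul_le_mul_of_nonneg_left ?_ h3.le) h1
    linarith
  rw [one_div, inv_pow, inv_mul_eq_div, le_div_iff₀ h3, mul_comm]
  exact h4

theorem wtc_c (k : ℕ) : T.f k 0 + 2 ≤ (1 / 4) ^ k * T.X k := by
  cases k with
  | zero =>
    have h1 : T.f 0 0 = 1 := by
      show (T.s 0).f 0 = 1
      rw [T.init]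
      rfl
    have h2 : (27 : ℝ) ≤ T.X 0 := by exact_mod_cast T.X_ge 0
    rw [h1, pow_zero, one_mul]
    linarith
  | succ l =>
    have h1 : T.f (l + 1) 0 = T.f l 0 + 2 + RR (T.f l) (T.m l) (T.h l) := by
      rw [T.f_succ]
      exact PP_zero_zero (T.B_pos l)
    have h2 := wtc_grow T l
    have h3 := wtc_RR_nonneg T l
    have h4 := (T.dec l).nonneg 0
    have h5 : (1 : ℝ) ≤ (T.m l : ℝ) + T.h l + 1 := by
      have e1 : (0 : ℝ) ≤ T.m l := Nat.cast_nonneg _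
      have e2 : (0 : ℝ) ≤ T.h l := Nat.cast_nonneg _
      linarith
    have h6 : RR (T.f l) (T.m l) (T.h l) + T.f l 0 + 4 ≤ (1 / 4) ^ (l + 4) * T.X (l + 1) := by
      refine le_trans ?_ h2
      exact le_mul_of_one_le_left (by linarith) h5
    have h7 : ((1 : ℝ) / 4) ^ (l + 4) ≤ (1 / 4) ^ (l + 1) :=
      pow_le_pow_of_le_one (by norm_num) (by norm_num) (by omega)
    have h8 : (0 : ℝ) ≤ T.X (l + 1) := Nat.cast_nonneg _
    rw [h1]
    calc T.f l 0 + 2 + RR (T.f l) (T.m l) (T.h l) + 2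
        = RR (T.f l) (T.m l) (T.h l) + T.f l 0 + 4 := by ring
      _ ≤ (1 / 4) ^ (l + 4) * T.X (l + 1) := h6
      _ ≤ _ := mul_le_mul_of_nonneg_right h7 h8

theorem wtc_step (k : ℕ) : Wt T (k + 1) ≤
    ((T.B k * (T.f k 0 + 2) + (T.m k + T.h k) * RR (T.f k) (T.m k) (T.h k)) +
      T.m k * (T.B k * (T.f k 0 + 1))) + T.X (k + 1) * Wt T k := by
  have h0 : T.m k ≤ T.Y (k + 1) := by
    rw [T.Y_succ]
    exact (T.m_lt_X k).le
  have h1 : Wt T (k + 1) = ∑ u ∈ Finset.range (T.X (k + 1)), ∑ v ∈ Finset.range (T.m k),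
      ∑ w ∈ Finset.range (T.Z (k + 1)), pr T (info T (k + 1) u v w) 0 +
      ∑ u ∈ Finset.range (T.X (k + 1)), ∑ v ∈ Finset.Ico (T.m k) (T.Y (k + 1)),
      ∑ w ∈ Finset.range (T.Z (k + 1)), pr T (info T (k + 1) u v w) 0 := by
    rw [Wt, ← Finset.sum_add_distrib]
    refine Finset.sum_congr rfl fun u _ => ?_
    rw [Finset.sum_range_add_sum_Ico _ h0]
  rw [h1]
  exact add_le_add (Wt_street T k) (Wt_copies T k)

theorem wtc_rec (k : ℕ) (C : ℝ) (hC : Wt T k ≤ C * (T.X k * T.Y k * T.Z k : ℕ)) (hC0 : 0 ≤ C) :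
    Wt T (k + 1) ≤ (C + 2 * (1 / 4) ^ k) * (T.X (k + 1) * T.Y (k + 1) * T.Z (k + 1) : ℕ) := by
  have h1 := wtc_step T k
  have hB : (T.B k : ℝ) ≤ T.X (k + 1) := by
    have := T.X_succ k
    exact_mod_cast (by omega : T.B k ≤ T.X (k + 1))
  have hf := (T.dec k).nonneg 0
  have hR := wtc_RR_nonneg T k
  have hc := wtc_c T k
  have hg := wtc_grow T k
  have hX0 : (0 : ℝ) ≤ T.X (k + 1) := Nat.cast_nonneg _
  have hXk : (1 : ℝ) ≤ T.X k := by
    have := T.X_ge k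
    exact_mod_cast (by omega : 1 ≤ T.X k)
  have hY : (3 : ℝ) ≤ T.Y k := by exact_mod_cast T.three_le_Y k
  have hZ : (4 : ℝ) ≤ T.Z k := by exact_mod_cast T.four_le_Z k
  have hm : (T.m k : ℝ) = T.Y k * T.Z k := by
    rw [T.m_eq]; push_cast; rfl
  have hV : ((T.X (k + 1) * T.Y (k + 1) * T.Z (k + 1) : ℕ) : ℝ) =
      T.X (k + 1) * (T.X k * ((T.Y k + 1) * T.Z k)) := by
    rw [T.Y_succ, T.Z_succ]; push_cast; ring
  have hV' : ((T.X k * T.Y k * T.Z k : ℕ) : ℝ) = T.X k * (T.Y k * T.Z k) := by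
    push_cast; ring
  have hm0 : (0 : ℝ) ≤ T.m k := Nat.cast_nonneg _
  have hh0 : (0 : ℝ) ≤ T.h k := Nat.cast_nonneg _
  have hq : (0 : ℝ) < (1 / 4) ^ k := by positivity
  rw [hV]
  rw [hV'] at hC
  -- the copies
  have e1 : (T.X (k + 1) : ℝ) * Wt T k ≤ C * (T.X (k + 1) * (T.X k * ((T.Y k + 1) * T.Z k))) := by
    calc (T.X (k + 1) : ℝ) * Wt T k ≤ T.X (k + 1) * (C * (T.X k * (T.Y k * T.Z k))) :=
          mul_le_mul_of_nonneg_left hC hX0
      _ ≤ T.X (k + 1) * (C * (T.X k * ((T.Y k + 1) * T.Z k))) := by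
          gcongr
          linarith
      _ = _ := by ring
  -- the trunk and the stems
  have e2 : (T.B k : ℝ) * (T.f k 0 + 2) + T.m k * (T.B k * (T.f k 0 + 1)) ≤
      (1 / 4) ^ k * (T.X (k + 1) * (T.X k * ((T.Y k + 1) * T.Z k))) := by
    have a1 : (T.B k : ℝ) * (T.f k 0 + 2) ≤ T.X (k + 1) * (T.f k 0 + 2) :=
      mul_le_mul_of_nonneg_right hB (by linarith)
    have a2 : (T.m k : ℝ) * (T.B k * (T.f k 0 + 1)) ≤ T.m k * (T.X (k + 1) * (T.f k 0 + 2)) := by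
      gcongr
      norm_num
    have a3 : (T.m k : ℝ) + 1 ≤ (T.Y k + 1) * T.Z k := by
      rw [hm]; nlinarith
    calc (T.B k : ℝ) * (T.f k 0 + 2) + T.m k * (T.B k * (T.f k 0 + 1))
        ≤ (T.m k + 1) * (T.X (k + 1) * (T.f k 0 + 2)) := by linarith
      _ ≤ ((T.Y k + 1) * T.Z k) * (T.X (k + 1) * ((1 / 4) ^ k * T.X k)) := by
          gcongr
      _ = _ := by ring
  have e3 : ((T.m k : ℝ) + T.h k) * RR (T.f k) (T.m k) (T.h k) ≤
      (1 / 4) ^ k * (T.X (k + 1) * (T.X k * ((T.Y k + 1) * T.Z k))) := by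
    have a1 : ((T.m k : ℝ) + T.h k) * RR (T.f k) (T.m k) (T.h k) ≤
        (1 / 4) ^ (k + 4) * T.X (k + 1) := by
      refine le_trans ?_ hg
      refine mul_le_mul (by linarith) (by linarith) hR (by linarith)
    have a2 : ((1 : ℝ) / 4) ^ (k + 4) ≤ (1 / 4) ^ k :=
      pow_le_pow_of_le_one (by norm_num) (by norm_num) (by omega)
    have a3 : (1 : ℝ) ≤ T.X k * ((T.Y k + 1) * T.Z k) := by
      have b1 : (1 : ℝ) ≤ (T.Y k + 1) * T.Z k := by nlinarith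
      nlinarith
    calc ((T.m k : ℝ) + T.h k) * RR (T.f k) (T.m k) (T.h k)
        ≤ (1 / 4) ^ (k + 4) * T.X (k + 1) := a1
      _ ≤ (1 / 4) ^ k * T.X (k + 1) := mul_le_mul_of_nonneg_right a2 hX0
      _ = (1 / 4) ^ k * (T.X (k + 1) * 1) := by ring
      _ ≤ _ := by gcongr
  calc Wt T (k + 1) ≤ _ := h1
    _ ≤ (1 / 4) ^ k * (T.X (k + 1) * (T.X k * ((T.Y k + 1) * T.Z k))) +
        (1 / 4) ^ k * (T.X (k + 1) * (T.X k * ((T.Y k + 1) * T.Z k))) +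
        C * (T.X (k + 1) * (T.X k * ((T.Y k + 1) * T.Z k))) := by linarith
    _ = _ := by ring

theorem Wt_le : ∃ C : ℝ, 0 ≤ C ∧ ∀ k, Wt T k ≤ C * (T.X k * T.Y k * T.Z k : ℕ) := by
  have h0 : 0 ≤ Wt T 0 :=
    Finset.sum_nonneg fun _ _ => Finset.sum_nonneg fun _ _ => Finset.sum_nonneg fun _ _ =>
      pr_nonneg 0 _ _ _ 0
  have hV : ∀ k, (0 : ℝ) ≤ ((T.X k * T.Y k * T.Z k : ℕ) : ℝ) := fun k => Nat.cast_nonneg _
  have hq : ∀ k : ℕ, ((1 : ℝ) / 4) ^ k ≤ 1 := fun k => pow_le_one₀ (by norm_num) (by norm_num)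
  have hq0 : ∀ k : ℕ, 0 < ((1 : ℝ) / 4) ^ k := fun k => by positivity
  have key : ∀ k, Wt T k ≤ (Wt T 0 + 8 / 3 * (1 - (1 / 4) ^ k)) * (T.X k * T.Y k * T.Z k : ℕ) := by
    intro k
    induction k with
    | zero =>
      have h1 : (1 : ℝ) ≤ ((T.X 0 * T.Y 0 * T.Z 0 : ℕ) : ℝ) := by
        have e1 := T.X_ge 0
        have e2 := T.three_le_Y 0
        have e3 := T.four_le_Z 0
        exact_mod_cast Nat.one_le_iff_ne_zero.2 (Nat.mul_ne_zero (Nat.mul_ne_zero (by omega)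
          (by omega)) (by omega))
      rw [pow_zero, sub_self, mul_zero, add_zero]
      exact le_mul_of_one_le_right h0 h1
    | succ k ih =>
      have h1 := wtc_rec T k _ ih (by
        have := hq k
        have : 0 ≤ 8 / 3 * (1 - ((1 : ℝ) / 4) ^ k) := by nlinarith
        linarith)
      refine h1.trans (le_of_eq ?_)
      rw [pow_succ]
      ring
  refine ⟨Wt T 0 + 8 / 3, by linarith, fun k => (key k).trans ?_⟩
  refine mul_le_mul_of_nonneg_right ?_ (hV k)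
  have := hq0 k
  nlinarith

end ES
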